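import Pool.Agent.Lib.MP_b09490_nt.No.Defs

/-!
Chebyshev bounds for dyadic blocks and block decompositions.
-/

open Finset Real Filter Topology

namespace Pool.Agent.Lib.MP_b09490_nt.No

open Pool.Agent.Lib.MP_778b46_nt

/-- Sketch: each prime of the block has `log q ≥ j log 2`, and `theta (2 ^ (j+1)) ≤ log 4 * 2 ^ (j+1)`
(`Chebyshev.theta_le_log4_mul_x`, or `primorial_le_four_pow`). -/
theorem mul_card_blk_le (j : ℕ) : (j : ℝ) * #(blk j) ≤ 4 * 2 ^ j := by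
  have h1 : (2 ^ j) ^ #(blk j) ≤ ∏ q ∈ blk j, q :=
    pow_card_le_prod _ _ _ fun q hq => (mem_blk.1 hq).2.1
  have h2 : ∏ q ∈ blk j, q ≤ primorial (2 ^ (j + 1)) :=
    prod_le_prod_of_subset_of_one_le' (fun q hq => mem_filter.2
      ⟨mem_range.2 (by have := (mem_blk.1 hq).2.2; omega), (mem_blk.1 hq).1⟩)
      fun q hq _ => (mem_filter.1 hq).2.one_le
  have h3 := (h1.trans h2).trans (primorial_le_four_pow _)
  rw [← pow_mul, show 4 = 2 ^ 2 from rfl, ← pow_mul, Nat.pow_le_pow_iff_right (by norm_num),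
    pow_succ] at h3
  exact_mod_cast (show j * #(blk j) ≤ 4 * 2 ^ j by omega)

theorem card_blk_le {j : ℕ} (hj : 1 ≤ j) : (#(blk j) : ℝ) ≤ 4 * 2 ^ j / j := by
  rw [le_div_iff₀ (by exact_mod_cast hj), mul_comm]
  exact mul_card_blk_le j

theorem card_blk_le_two_pow (j : ℕ) : (#(blk j) : ℝ) ≤ 2 ^ j := by
  have h := card_filter_le (Ico (2 ^ j) (2 ^ (j + 1))) Nat.Prime
  rw [Nat.card_Ico, pow_succ] at h
  exact_mod_cast (show #(blk j) ≤ 2 ^ j by unfold blk; rw [pow_succ]; omega)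

/-- For `j = 0` both sides vanish (`blk_zero`). -/
theorem sum_inv_blk_le (j : ℕ) : ∑ q ∈ blk j, (1 : ℝ) / q ≤ 4 / j := by
  rcases Nat.eq_zero_or_pos j with rfl | hj
  · simp [blk_zero]
  refine (sum_le_card_nsmul _ _ (1 / 2 ^ j) fun q hq => one_div_le_one_div_of_le (by positivity)
    (by exact_mod_cast (mem_blk.1 hq).2.1)).trans ?_
  rw [nsmul_eq_mul, mul_one_div, div_le_iff₀ (by positivity), div_mul_eq_mul_div]
  exact card_blk_le hj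

theorem cheb1_share (j : ℕ) (p : ℕ → Prop) [DecidablePred p] :
    (j : ℝ) / 2 ^ j * #((blk j).filter p) ≤ 4 := by
  rw [div_mul_eq_mul_div, div_le_iff₀ (by positivity)]
  exact (mul_le_mul_of_nonneg_left (Nat.cast_le.2 (card_filter_le _ _)) j.cast_nonneg).trans
    (mul_card_blk_le j)

theorem shU_le (t : ℝ) (j : ℕ) : shU t j ≤ 4 := by
  exact cheb1_share j _

theorem shL_le (t : ℝ) (j : ℕ) : shL t j ≤ 4 := by
  exact cheb1_share j _

/-- A sum of `φ q / q` over a block against the normalised sum of `φ`. -/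
theorem sum_div_blk_le {j : ℕ} (φ : ℕ → ℝ) (hφ : ∀ q ∈ blk j, 0 ≤ φ q) :
    ∑ q ∈ blk j, φ q / q ≤ ((j : ℝ) / 2 ^ j * ∑ q ∈ blk j, φ q) / j := by
  rcases Nat.eq_zero_or_pos j with rfl | hj
  · simp [blk_zero]
  have h0 : (j : ℝ) ≠ 0 := by positivity
  rw [show (j : ℝ) / 2 ^ j * (∑ q ∈ blk j, φ q) / j = (∑ q ∈ blk j, φ q) / 2 ^ j by field_simp,
    sum_div]
  exact sum_le_sum fun q hq => div_le_div_of_nonneg_left (hφ q hq) (by positivity)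
    (by exact_mod_cast (mem_blk.1 hq).2.1)

theorem cheb1_sum (s : Finset ℕ) (φ : ℕ → ℝ) :
    ∑ q ∈ s.biUnion blk, φ q = ∑ j ∈ s, ∑ q ∈ blk j, φ q :=
  sum_biUnion fun _ _ _ _ h => disjoint_left.2 fun _ a b => h (blk_unique a b)

theorem cheb1_mem {J K q : ℕ} (hq : q.Prime) (h1 : 2 ^ J ≤ q) (h2 : q < 2 ^ K) :
    q ∈ (Ico J K).biUnion blk :=
  mem_biUnion.2 ⟨_, mem_Ico.2 ⟨Nat.le_log_of_pow_le (by norm_num) h1,
    Nat.log_lt_of_lt_pow hq.ne_zero h2⟩, mem_blk_log hq⟩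

theorem sum_primesBelow_eq (K : ℕ) (φ : ℕ → ℝ) :
    ∑ q ∈ Nat.primesBelow (2 ^ K), φ q = ∑ j ∈ Ico 1 K, ∑ q ∈ blk j, φ q := by
  rw [← cheb1_sum]
  refine sum_congr (Finset.ext fun q => ?_) fun _ _ => rfl
  rw [Nat.mem_primesBelow]
  refine ⟨fun h => cheb1_mem h.2 h.2.two_le h.1, fun h => ?_⟩
  obtain ⟨j, hj, hq⟩ := mem_biUnion.1 h
  exact ⟨(mem_blk.1 hq).2.2.trans_le (Nat.pow_le_pow_right (by norm_num) (mem_Ico.1 hj).2),
    (mem_blk.1 hq).1⟩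

theorem sum_le_sum_blk {S : Finset ℕ} {J K : ℕ} (hS : ∀ q ∈ S, q.Prime ∧ 2 ^ J ≤ q ∧ q < 2 ^ K)
    (φ : ℕ → ℝ) (hφ : ∀ q, q.Prime → 0 ≤ φ q) :
    ∑ q ∈ S, φ q ≤ ∑ j ∈ Ico J K, ∑ q ∈ blk j, φ q := by
  rw [← cheb1_sum]
  refine sum_le_sum_of_subset_of_nonneg (fun q hq => ?_) fun q hq _ => ?_
  · exact cheb1_mem (hS q hq).1 (hS q hq).2.1 (hS q hq).2.2
  · obtain ⟨j, -, h⟩ := mem_biUnion.1 hq
    exact hφ q (mem_blk.1 h).1

/-- From `sum_inv_le` at `n = 2 ^ (J + 1)` and `sum_primesBelow_eq`. -/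
theorem sum_inv_blks_le : ∃ C : ℝ, 0 ≤ C ∧ ∀ J : ℕ,
    ∑ j ∈ Icc 1 J, ∑ q ∈ blk j, (1 : ℝ) / q ≤ log (J + 1) + C := by
  obtain ⟨C, hC⟩ := sum_inv_le
  refine ⟨max C 0, le_max_right _ _, fun J => ?_⟩
  have h2 : 2 ≤ 2 ^ (J + 1) := by
    calc 2 = 2 ^ 1 := by norm_num
      _ ≤ 2 ^ (J + 1) := Nat.pow_le_pow_right (by norm_num) (by omega)
  have h1 := hC _ h2
  have h3 : Icc 1 J = Ico 1 (J + 1) := by
    ext x; simp only [mem_Icc, mem_Ico]; omega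
  rw [h3, ← sum_primesBelow_eq (J + 1) (fun q => (1 : ℝ) / q)]
  have h4 : ∑ q ∈ Nat.primesBelow (2 ^ (J + 1)), (1 : ℝ) / q ≤
      ∑ q ∈ Nat.primesLE (2 ^ (J + 1)), (1 : ℝ) / q := by
    apply sum_le_sum_of_subset_of_nonneg
    · intro q hq
      rw [Nat.mem_primesBelow] at hq
      exact Nat.mem_primesLE.2 ⟨hq.1.le, hq.2⟩
    · intro q _ _; positivity
  have h5 : log (log ((2 ^ (J + 1) : ℕ) : ℝ)) ≤ log (J + 1) := by
    have hl2 : 0 < log 2 := log_pos (by norm_num)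
    have hl1 : log 2 ≤ 1 := by
      have := Real.log_le_sub_one_of_pos (show (0 : ℝ) < 2 by norm_num)
      linarith
    have hJ : (0 : ℝ) < J + 1 := by positivity
    rw [Nat.cast_pow, Real.log_pow]
    push_cast
    apply Real.log_le_log (by positivity)
    nlinarith
  have h6 := le_max_left C 0
  linarith

theorem cheb2_rpow (k : ℕ) :
    ∑ j ∈ Icc 1 k, (j : ℝ) ^ (1 / 4 : ℝ) / j ≤ 4 * (k : ℝ) ^ (1 / 4 : ℝ) := by
  induction k with
  | zero => simp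
  | succ k ih =>
    rw [sum_Icc_succ_top (by omega)]
    have h4 : ∀ z : ℝ, 0 ≤ z → (z ^ (1 / 4 : ℝ)) ^ 4 = z := by
      intro z hz
      rw [← Real.rpow_natCast, ← Real.rpow_mul hz]
      norm_num
    have hx4 := h4 ((k + 1 : ℕ) : ℝ) (by positivity)
    have hy4 := h4 (k : ℝ) (by positivity)
    have hx0 : (0 : ℝ) < ((k + 1 : ℕ) : ℝ) ^ (1 / 4 : ℝ) := by positivity
    have hy0 : (0 : ℝ) ≤ (k : ℝ) ^ (1 / 4 : ℝ) := by positivity
    have hyx : (k : ℝ) ^ (1 / 4 : ℝ) ≤ ((k + 1 : ℕ) : ℝ) ^ (1 / 4 : ℝ) :=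
      Real.rpow_le_rpow (by positivity) (by push_cast; linarith) (by norm_num)
    set x := ((k + 1 : ℕ) : ℝ) ^ (1 / 4 : ℝ) with hx
    set y := (k : ℝ) ^ (1 / 4 : ℝ) with hy
    have hd : x ^ 4 - y ^ 4 = 1 := by rw [hx4, hy4]; push_cast; ring
    have hs : x / ((k + 1 : ℕ) : ℝ) ≤ 4 * (x - y) := by
      rw [← hx4, div_le_iff₀ (by positivity)]
      have h3 : x ^ 3 + x ^ 2 * y + x * y ^ 2 + y ^ 3 ≤ 4 * x ^ 3 := by
        have a1 : x ^ 2 * y ≤ x ^ 2 * x := by gcongr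
        have a2 : x * y ^ 2 ≤ x * x ^ 2 := by gcongr
        have a3 : y ^ 3 ≤ x ^ 3 := by gcongr
        nlinarith
      have h5 : (x - y) * (x ^ 3 + x ^ 2 * y + x * y ^ 2 + y ^ 3) ≤ (x - y) * (4 * x ^ 3) :=
        mul_le_mul_of_nonneg_left h3 (by linarith)
      have h6 : 1 ≤ (x - y) * (4 * x ^ 3) := by nlinarith
      nlinarith
    linarith

theorem sum_rpow_div_le (k : ℕ) : ∑ j ∈ Icc 1 k, ((j : ℝ) / k) ^ (1 / 4 : ℝ) / j ≤ 5 := by
  rcases Nat.eq_zero_or_pos k with rfl | hk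
  · simp
  have hk0 : (0 : ℝ) < k := by exact_mod_cast hk
  have hp : (0 : ℝ) < (k : ℝ) ^ (1 / 4 : ℝ) := by positivity
  have h1 : ∑ j ∈ Icc 1 k, ((j : ℝ) / k) ^ (1 / 4 : ℝ) / j =
      (∑ j ∈ Icc 1 k, (j : ℝ) ^ (1 / 4 : ℝ) / j) / (k : ℝ) ^ (1 / 4 : ℝ) := by
    rw [sum_div]
    refine sum_congr rfl fun j _ => ?_
    rw [Real.div_rpow (by positivity) hk0.le]
    ring
  rw [h1, div_le_iff₀ hp]
  have := cheb2_rpow k
  linarith

theorem cheb2_pow (m : ℕ) (hm : 1 ≤ m) (k : ℕ) (hk : 1 ≤ k) :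
    ∑ j ∈ Ico 1 k, (j : ℝ) ^ m / j ≤ (k : ℝ) ^ m / m := by
  have hm0 : (0 : ℝ) < m := by exact_mod_cast hm
  induction k, hk using Nat.le_induction with
  | base => simp
  | succ k hk ih =>
    rw [sum_Ico_succ_top hk]
    have hk0 : (0 : ℝ) < k := by exact_mod_cast hk
    have h1 := pow_add_mul_le_add_pow (a := (k : ℝ)) (b := 1) hk0.le (by linarith) m
    have h2 : (k : ℝ) ^ m / k = (k : ℝ) ^ (m - 1) := by
      obtain ⟨n, rfl⟩ : ∃ n, m = n + 1 := ⟨m - 1, by omega⟩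
      rw [pow_succ, Nat.add_sub_cancel]
      field_simp
    rw [h2]
    push_cast
    have h3 : (k : ℝ) ^ m / m + (k : ℝ) ^ (m - 1) ≤ ((k : ℝ) + 1) ^ m / m := by
      rw [div_add' _ _ _ hm0.ne', div_le_div_iff_of_pos_right hm0]
      linarith
    linarith

theorem sum_pow_div_le (k m : ℕ) (hm : 1 ≤ m) :
    ∑ j ∈ Ico 1 k, ((j : ℝ) / k) ^ m / j ≤ 1 / m := by
  rcases Nat.eq_zero_or_pos k with rfl | hk
  · simp
  have hk0 : (0 : ℝ) < k := by exact_mod_cast hk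
  have hm0 : (0 : ℝ) < m := by exact_mod_cast hm
  have h1 : ∑ j ∈ Ico 1 k, ((j : ℝ) / k) ^ m / j =
      (∑ j ∈ Ico 1 k, (j : ℝ) ^ m / j) / (k : ℝ) ^ m := by
    rw [sum_div]
    refine sum_congr rfl fun j _ => ?_
    rw [div_pow]
    ring
  rw [h1, div_le_iff₀ (by positivity)]
  have := cheb2_pow m hm k hk
  calc _ ≤ (k : ℝ) ^ m / m := this
    _ = _ := by ring

theorem sum_inv_Ioc_le {a b : ℕ} (ha : 1 ≤ a) (hab : a ≤ b) :
    ∑ j ∈ Ioc a b, (1 : ℝ) / j ≤ log b - log a := by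
  induction b, hab using Nat.le_induction with
  | base => simp
  | succ b hb ih =>
    rw [sum_Ioc_succ_top hb]
    have hb0 : (0 : ℝ) < b := by exact_mod_cast (by omega : 0 < b)
    have h1 := Real.log_le_sub_one_of_pos (show (0 : ℝ) < b / (b + 1) by positivity)
    rw [Real.log_div hb0.ne' (by positivity)] at h1
    have h2 : (b : ℝ) / (b + 1) - 1 = -(1 / (b + 1)) := by field_simp; ring
    push_cast
    linarith

theorem cesaro_zero {a : ℕ → ℝ} (h : Tendsto a atTop (𝓝 0)) :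
    Tendsto (fun k : ℕ => (∑ j ∈ Icc 1 k, a j) / k) atTop (𝓝 0) := by
  have h1 : Tendsto (fun i : ℕ => a (i + 1)) atTop (𝓝 0) := h.comp (tendsto_add_atTop_nat 1)
  refine h1.cesaro.congr fun k => ?_
  have h2 : ∑ j ∈ Icc 1 k, a j = ∑ i ∈ range k, a (i + 1) := by
    induction k with
    | zero => simp
    | succ k ih => rw [sum_Icc_succ_top (by omega), sum_range_succ, ih]
  rw [h2]
  ring

end Pool.Agent.Lib.MP_b09490_nt.No
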