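import Pool.Agent.Lib.MP_b09490_nt.No.Defs

/-!
Lower Chebyshev bound for dyadic blocks.
-/

open Finset Real Filter Topology

namespace Pool.Agent.Lib.MP_b09490_nt.No

open Pool.Agent.Lib.MP_778b46_nt

theorem chebl_cb (n : ℕ) (hn : 2 < n) (B : Finset ℕ)
    (hB : ∀ p, p.Prime → n < p → p ≤ 2 * n → p ∈ B) :
    n.centralBinom ≤ (2 * n) ^ Nat.sqrt (2 * n) * 4 ^ (2 * n / 3) * (2 * n) ^ #B := by
  have h2 : 0 < 2 * n := by omega
  have h1 : ∀ p ∈ range (2 * n + 1), p ^ n.centralBinom.factorization p ≤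
      (if p ∈ Icc 1 (Nat.sqrt (2 * n)) then 2 * n else 1) *
        (if p ∈ (range (2 * n / 3 + 1)).filter Nat.Prime then p else 1) *
          (if p ∈ B then 2 * n else 1) := fun p hp => by
    by_cases hpp : p.Prime
    swap
    · rw [Nat.factorization_eq_zero_of_not_prime _ hpp, pow_zero, if_neg
        (show p ∉ (range (2 * n / 3 + 1)).filter Nat.Prime from fun h => hpp (mem_filter.1 h).2)]
      refine Nat.mul_pos (Nat.mul_pos ?_ one_pos) ?_ <;> split_ifs <;> omega
    have p1 := hpp.one_lt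
    have a1 : p ^ n.centralBinom.factorization p ≤ 2 * n := Nat.pow_factorization_choose_le h2
    have e1 : 1 ≤ if p ∈ Icc 1 (Nat.sqrt (2 * n)) then 2 * n else 1 := by split_ifs <;> omega
    have e2 : 1 ≤ if p ∈ (range (2 * n / 3 + 1)).filter Nat.Prime then p else 1 := by
      split_ifs <;> omega
    have e3 : 1 ≤ if p ∈ B then 2 * n else 1 := by split_ifs <;> omega
    by_cases c1 : p ≤ Nat.sqrt (2 * n)
    · rw [if_pos (mem_Icc.2 ⟨p1.le, c1⟩), mul_assoc]
      exact a1.trans (Nat.le_mul_of_pos_right _ (Nat.mul_pos e2 e3))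
    by_cases c2 : n < p
    · rw [if_pos (hB p hpp c2 (Nat.lt_succ_iff.1 (mem_range.1 hp)))]
      exact a1.trans (Nat.le_mul_of_pos_left _ (Nat.mul_pos e1 e2))
    by_cases c3 : 2 * n < 3 * p
    · rw [Nat.factorization_centralBinom_of_two_mul_self_lt_three_mul hn (not_lt.1 c2) c3, pow_zero]
      exact Nat.mul_pos (Nat.mul_pos e1 e2) e3
    · rw [if_pos (mem_filter.2 ⟨mem_range.2 (show p < 2 * n / 3 + 1 by omega), hpp⟩)]
      have a2 : p ^ n.centralBinom.factorization p ≤ p :=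
        (pow_right_mono₀ p1.le (Nat.factorization_choose_le_one
          (Nat.sqrt_lt'.1 (not_le.1 c1)))).trans (pow_one p).le
      exact a2.trans ((Nat.le_mul_of_pos_left _ e1).trans (Nat.le_mul_of_pos_right _ e3))
  refine (Nat.prod_pow_factorization_centralBinom n).ge.trans ((prod_le_prod' h1).trans ?_)
  rw [prod_mul_distrib, prod_mul_distrib, prod_ite_mem, prod_ite_mem, prod_ite_mem, prod_const,
    prod_const]
  refine mul_le_mul' (mul_le_mul' ?_ ?_) ?_
  · refine pow_right_mono₀ h2 ((card_le_card inter_subset_right).trans ?_)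
    rw [Nat.card_Icc, Nat.add_sub_cancel]
  · exact (prod_le_prod_of_subset_of_one_le' inter_subset_right
      fun p hp _ => (mem_filter.1 hp).2.one_lt.le).trans (primorial_le_four_pow (2 * n / 3))
  · exact pow_right_mono₀ h2 (card_le_card inter_subset_right)

theorem chebl_num (j : ℕ) (hj : 15 ≤ j) : 72 * (j + 1) ^ 2 ≤ 2 ^ j := by
  induction j, hj using Nat.le_induction with
  | base => norm_num
  | succ j hj ih => rw [pow_succ 2 j]; nlinarith

/-- Sketch (Erdos): with `n = 2 ^ j`, `4 ^ n < n * centralBinom n`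
(`Nat.four_pow_lt_mul_centralBinom`) and, as in the Mathlib proof of
`centralBinom_le_of_no_bertrand_prime`, `centralBinom n ≤ (2n) ^ sqrt (2n) * 4 ^ (2n/3) * (product of
the primes in (n, 2n])`, the last product being at most `(2n) ^ #(blk j)`. Take logarithms:
`#(blk j) (j+1) log 2 ≥ (n/3) log 4 - log n - sqrt (2n) log (2n)`. -/
theorem card_blk_ge : ∃ j0 : ℕ, ∀ j : ℕ, j0 ≤ j → (2 : ℝ) ^ j / (10 * j) ≤ #(blk j) := by
  refine ⟨15, fun j hj => ?_⟩
  have h0 := chebl_num j hj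
  have h4 : 4 ≤ 2 ^ j := by nlinarith
  have h1 := (Nat.four_pow_lt_mul_centralBinom _ h4).trans_le (Nat.mul_le_mul_left _
    (chebl_cb (2 ^ j) (by omega) (blk j) fun p hp a b => mem_blk.2 ⟨hp, a.le, by
      rw [pow_succ']
      refine lt_of_le_of_ne b fun e => ?_
      have := (Nat.prime_mul_iff.1 (e ▸ hp)).resolve_right fun k => by omega
      omega⟩))
  have h3 := Nat.sqrt_le' (2 * 2 ^ j)
  have h5 : 0 < Nat.sqrt (2 * 2 ^ j) := Nat.sqrt_pos.2 (by omega)
  generalize Nat.sqrt (2 * 2 ^ j) = s at h1 h3 h5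
  generalize hk : 2 * 2 ^ j / 3 = k at h1
  rw [← pow_succ', show 4 = 2 ^ 2 from rfl, ← pow_mul, ← pow_mul, ← pow_mul, ← pow_mul, ← pow_add,
    ← pow_add, ← pow_add, Nat.pow_lt_pow_iff_right (by norm_num)] at h1
  have h6 : 6 * (j + 1) * s ≤ 2 ^ j := by
    refine (Nat.pow_le_pow_iff_left two_ne_zero).1 ?_
    calc (6 * (j + 1) * s) ^ 2 = 36 * (j + 1) ^ 2 * s ^ 2 := by ring
      _ ≤ 36 * (j + 1) ^ 2 * (2 * 2 ^ j) := Nat.mul_le_mul_left _ h3
      _ = 72 * (j + 1) ^ 2 * 2 ^ j := by ring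
      _ ≤ 2 ^ j * 2 ^ j := Nat.mul_le_mul_right _ h0
      _ = (2 ^ j) ^ 2 := by ring
  have h7 : 3 * k ≤ 2 * 2 ^ j := by omega
  have h8 : 2 ^ j ≤ #(blk j) * (10 * j) := by
    generalize 2 ^ j = n at *
    generalize #(blk j) = N at *
    have a1 : j ≤ (j + 1) * s := by nlinarith
    have a2 : (j + 1) * N ≤ 2 * (j * N) := by nlinarith
    nlinarith
  rw [div_le_iff₀ (by have : (15 : ℝ) ≤ j := by exact_mod_cast hj
                      linarith)]
  exact_mod_cast h8

end Pool.Agent.Lib.MP_b09490_nt.No
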