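import Pool.Agent.Lib.MP_b09490_nt.No.Mean

/-!
The mean value statement for `D` and for the class.
-/

open Finset Real Filter Topology

namespace Pool.Agent.Lib.MP_b09490_nt.No

open Pool.Agent.Lib.MP_778b46_nt

theorem tendsto_natLog_two : Tendsto (fun x : ℕ => Nat.log 2 x) atTop atTop := by
  refine tendsto_atTop.2 fun b => ?_
  filter_upwards [eventually_ge_atTop (2 ^ b)] with x hx
  exact Nat.le_log_of_pow_le (by norm_num) hx

theorem mean_D {t : ℝ} (ht0 : 0 ≤ t) (ht1 : t ≤ 1)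
    (hU : ∀ y : ℝ, 0 < y → Tendsto (shU (t + y)) atTop (𝓝 0))
    (hL : ∀ y : ℝ, 0 < y → Tendsto (shL (t - y)) atTop (𝓝 0)) :
    Tendsto (fun x : ℕ => (∑ n ∈ Icc 1 x, |(D n : ℝ) - t * lg n|) / (x * log x)) atTop (𝓝 0) := by
  obtain ⟨C, hC0, hC⟩ := sum_abs_le
  refine tendsto_order.2 ⟨fun a ha => ?_, fun ε hε => ?_⟩
  · filter_upwards [eventually_ge_atTop 1] with x hx
    have h1 : (1 : ℝ) ≤ x := by exact_mod_cast hx
    have := log_nonneg h1
    exact ha.trans_le (by positivity)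
  · set y : ℝ := ε / 32 with hy
    have hy0 : 0 < y := by positivity
    set a : ℕ → ℝ := fun j => 2 * shU (t + y) j + 2 * shL (t - y) j with ha
    have ha0 : Tendsto a atTop (𝓝 0) := by
      have := ((hU y hy0).const_mul 2).add ((hL y hy0).const_mul 2)
      simpa using this
    have h2 : Tendsto (fun k : ℕ => (∑ j ∈ Icc 1 k, a j) / k + C / k) atTop (𝓝 0) := by
      have := (cesaro_zero ha0).add (tendsto_const_div_atTop_nhds_zero_nat C)
      simpa using this
    have h3 := (tendsto_order.1 (h2.comp tendsto_natLog_two)).2 (ε / 4) (by positivity)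
    filter_upwards [h3, eventually_ge_atTop 2] with x hx hx2
    set k := Nat.log 2 x with hk
    have hk1 : 1 ≤ k := Nat.le_log_of_pow_le (by norm_num) (by simpa using hx2)
    have hk1' : (1 : ℝ) ≤ k := by exact_mod_cast hk1
    have hx0 : (0 : ℝ) < x := by exact_mod_cast (by omega : 0 < x)
    have hlog : (k : ℝ) / 2 ≤ log x := by
      have h4 : (k : ℝ) ≤ lg x := le_lg (Nat.pow_log_le_self 2 (by omega))
      rw [lg_eq, le_div_iff₀ (log_pos (by norm_num))] at h4
      have := Real.log_two_gt_d9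
      nlinarith
    have h5 : ∑ q ∈ Nat.primesLE x, |(D q : ℝ) - t * lg q| / q
        ≤ ∑ j ∈ Ico 1 (k + 1), ∑ q ∈ blk j, |(D q : ℝ) - t * lg q| / q := by
      refine sum_le_sum_blk (fun q hq => ?_) _ fun q _ => by positivity
      obtain ⟨h6, h7⟩ := Nat.mem_primesLE.1 hq
      exact ⟨h7, by simpa using h7.two_le,
        h6.trans_lt (Nat.lt_pow_succ_log_self (by norm_num) x)⟩
    have h8 : ∑ j ∈ Ico 1 (k + 1), ∑ q ∈ blk j, |(D q : ℝ) - t * lg q| / q
        ≤ 8 * y * k + ∑ j ∈ Icc 1 k, a j := by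
      rw [show Ico 1 (k + 1) = Icc 1 k from rfl]
      calc _ ≤ ∑ j ∈ Icc 1 k, (8 * y + a j) :=
            sum_le_sum fun j _ => (blk_abs_le ht0 ht1 hy0.le j).trans (by simp only [ha]; linarith)
        _ = _ := by rw [sum_add_distrib, sum_const, Nat.card_Icc]; simp; ring
    have h9 : (∑ j ∈ Icc 1 k, a j) + C < ε / 4 * k := by
      have : ((∑ j ∈ Icc 1 k, a j) + C) / k < ε / 4 := by rw [add_div]; exact hx
      rwa [div_lt_iff₀ (by linarith)] at this
    rw [div_lt_iff₀ (mul_pos hx0 (by linarith))]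
    calc _ ≤ x * ∑ q ∈ Nat.primesLE x, |(D q : ℝ) - t * lg q| / q + C * x := hC t ht0 ht1 x
      _ ≤ x * (8 * y * k + ∑ j ∈ Icc 1 k, a j) + C * x := by
          gcongr; exact h5.trans h8
      _ = x * (ε / 4 * k + ((∑ j ∈ Icc 1 k, a j) + C)) := by rw [hy]; ring
      _ < x * (ε / 4 * k + ε / 4 * k) := by gcongr
      _ = x * (ε * (k / 2)) := by ring
      _ ≤ x * (ε * log x) := by gcongr
      _ = ε * (x * log x) := by ring

theorem D_le_iterate (k : ℕ) : ∀ n : ℕ, n ≠ 0 → D n ≤ D (Nat.totient^[k] n) + k := by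
  induction k with
  | zero => intro n _; simp
  | succ k ih =>
    intro n hn
    rw [Function.iterate_succ_apply]
    have h1 := ih n.totient (Nat.totient_pos.2 (Nat.pos_of_ne_zero hn)).ne'
    have h2 := D_totient n hn
    split_ifs at h2 <;> omega

/-- The least number of iterations is `D n` or `D n + 1`. -/
theorem class_bounds {n : ℕ} (hn : n ≠ 0) :
    D n ≤ sInf {k : ℕ | 1 ≤ k ∧ Nat.totient^[k] n = 1} ∧
      sInf {k : ℕ | 1 ≤ k ∧ Nat.totient^[k] n = 1} ≤ D n + 1 := by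
  have h : D n + 1 ∈ {k : ℕ | 1 ≤ k ∧ Nat.totient^[k] n = 1} := ⟨by omega, iterate_D_succ hn⟩
  refine ⟨?_, Nat.sInf_le h⟩
  have h1 := (Nat.sInf_mem ⟨_, h⟩).2
  have h2 := D_le_iterate (sInf {k : ℕ | 1 ≤ k ∧ Nat.totient^[k] n = 1}) n hn
  rw [h1, D_one] at h2
  omega

theorem mean_class {t : ℝ} (c : ℕ → ℕ) (hc : ∀ n, n ≠ 0 → D n ≤ c n ∧ c n ≤ D n + 1)
    (h : Tendsto (fun x : ℕ => (∑ n ∈ Icc 1 x, |(D n : ℝ) - t * lg n|) / (x * log x)) atTop (𝓝 0)) :
    Tendsto (fun x : ℕ => (∑ n ∈ Icc 2 x, |(c n : ℝ) - t / log 2 * log n|) / (x * log x))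
      atTop (𝓝 0) := by
  have hl : Tendsto (fun x : ℕ => (log x)⁻¹) atTop (𝓝 0) :=
    (tendsto_log_atTop.comp tendsto_natCast_atTop_atTop).inv_tendsto_atTop
  have h1 := h.add hl
  rw [add_zero] at h1
  refine squeeze_zero' ?_ ?_ h1
  · filter_upwards [eventually_ge_atTop 1] with x hx
    have h1 : (1 : ℝ) ≤ x := by exact_mod_cast hx
    have := log_nonneg h1
    positivity
  · filter_upwards [eventually_ge_atTop 2] with x hx
    have h2 : (2 : ℝ) ≤ x := by exact_mod_cast hx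
    have h3 : 0 < log (x : ℝ) := log_pos (by linarith)
    have h4 : ∑ n ∈ Icc 2 x, |(c n : ℝ) - t / log 2 * log n|
        ≤ (∑ n ∈ Icc 1 x, |(D n : ℝ) - t * lg n|) + x := by
      calc _ ≤ ∑ n ∈ Icc 1 x, |(c n : ℝ) - t / log 2 * log n| :=
            sum_le_sum_of_subset_of_nonneg (Icc_subset_Icc_left (by norm_num))
              fun _ _ _ => abs_nonneg _
        _ ≤ ∑ n ∈ Icc 1 x, (|(D n : ℝ) - t * lg n| + 1) := by
            refine sum_le_sum fun n hn => ?_
            obtain ⟨h5, h6⟩ := hc n (by have := (mem_Icc.1 hn).1; omega)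
            have h5' : (D n : ℝ) ≤ c n := by exact_mod_cast h5
            have h6' : (c n : ℝ) ≤ D n + 1 := by exact_mod_cast h6
            have h7 : t / log 2 * log n = t * lg n := by rw [lg_eq]; ring
            rw [h7, abs_le]
            constructor
            · linarith [neg_abs_le ((D n : ℝ) - t * lg n)]
            · linarith [le_abs_self ((D n : ℝ) - t * lg n)]
        _ = _ := by rw [sum_add_distrib, sum_const, Nat.card_Icc]; simp
    calc _ ≤ ((∑ n ∈ Icc 1 x, |(D n : ℝ) - t * lg n|) + x) / (x * log x) := by gcongr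
      _ = _ := by field_simp

theorem mean_ratio {t : ℝ} (ht0 : 0 ≤ t) (ht1 : t ≤ 1) (c : ℕ → ℕ)
    (hc : ∀ n, n ≠ 0 → D n ≤ c n ∧ c n ≤ D n + 1)
    (h : Tendsto (fun x : ℕ => (∑ n ∈ Icc 2 x, |(c n : ℝ) - t / log 2 * log n|) / (x * log x))
      atTop (𝓝 0)) :
    Tendsto (fun x : ℕ => (∑ n ∈ Icc 2 x, |(c n : ℝ) / log n - t / log 2|) / x) atTop (𝓝 0) := by
  have hs : Tendsto (fun x : ℕ => (√(x : ℝ))⁻¹) atTop (𝓝 0) :=
    (tendsto_sqrt_atTop.comp tendsto_natCast_atTop_atTop).inv_tendsto_atTop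
  have h1 := (h.const_mul 2).add (hs.const_mul 6)
  rw [mul_zero, mul_zero, add_zero] at h1
  refine squeeze_zero' (Eventually.of_forall fun x => by positivity) ?_ h1
  filter_upwards [eventually_ge_atTop 2] with x hx
  have h2 : (2 : ℝ) ≤ x := by exact_mod_cast hx
  have h3 : 0 < log (x : ℝ) := log_pos (by linarith)
  have hl2 := Real.log_two_gt_d9
  have key : ∀ n ∈ Icc 2 x, |(c n : ℝ) / log n - t / log 2|
      ≤ 2 / log x * |(c n : ℝ) - t / log 2 * log n| + if n ≤ Nat.sqrt x then 6 else 0 := by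
    intro n hn
    have hn2 : (2 : ℝ) ≤ n := by exact_mod_cast (mem_Icc.1 hn).1
    have hl : log 2 ≤ log (n : ℝ) := log_le_log (by norm_num) hn2
    have hl0 : 0 < log (n : ℝ) := by linarith
    split_ifs with h4
    · have h5 : (c n : ℝ) ≤ D n + 1 := by
        exact_mod_cast (hc n (by have := (mem_Icc.1 hn).1; omega)).2
      have h6 := D_le_lg n
      rw [lg_eq, le_div_iff₀ (by linarith)] at h6
      have h7 : (c n : ℝ) / log n ≤ 4 := by
        rw [div_le_iff₀ hl0]
        have : (0 : ℝ) ≤ D n := Nat.cast_nonneg _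
        nlinarith
      have h8 : t / log 2 ≤ 2 := by rw [div_le_iff₀ (by linarith)]; linarith
      have h9 : 0 ≤ t / log 2 := by positivity
      have h10 : 0 ≤ (c n : ℝ) / log n := by positivity
      have h11 : |(c n : ℝ) / log n - t / log 2| ≤ 6 := by rw [abs_le]; constructor <;> linarith
      have : 0 ≤ 2 / log x * |(c n : ℝ) - t / log 2 * log n| := by positivity
      linarith
    · have h5 : x < n ^ 2 := Nat.sqrt_lt'.1 (not_le.1 h4)
      have h6 : log (x : ℝ) ≤ 2 * log n := by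
        have : (x : ℝ) ≤ (n : ℝ) ^ 2 := by exact_mod_cast h5.le
        calc _ ≤ log ((n : ℝ) ^ 2) := log_le_log (by linarith) this
          _ = _ := by rw [log_pow]; norm_num
      have h7 : (c n : ℝ) / log n - t / log 2
          = 1 / log n * ((c n : ℝ) - t / log 2 * log n) := by field_simp
      rw [h7, abs_mul, abs_of_pos (by positivity), add_zero]
      refine mul_le_mul_of_nonneg_right ?_ (abs_nonneg _)
      rw [div_le_div_iff₀ hl0 h3]; linarith
  have h4 : ∑ n ∈ Icc 2 x, (if n ≤ Nat.sqrt x then (6 : ℝ) else 0) ≤ 6 * √(x : ℝ) := by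
    rw [← sum_filter, sum_const, nsmul_eq_mul, mul_comm]
    refine mul_le_mul_of_nonneg_left ?_ (by norm_num)
    have : #((Icc 2 x).filter fun n => n ≤ Nat.sqrt x) ≤ Nat.sqrt x := by
      calc _ ≤ #(Icc 1 (Nat.sqrt x)) := card_le_card fun n hn => by
            rw [mem_filter, mem_Icc] at hn; rw [mem_Icc]; omega
        _ = _ := by simp
    exact (Nat.cast_le.2 this).trans Real.nat_sqrt_le_real_sqrt
  have h5 : 0 < √(x : ℝ) := sqrt_pos.2 (by linarith)
  have h6 : √(x : ℝ) / x = (√(x : ℝ))⁻¹ := by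
    rw [Real.sqrt_div_self]
  calc _ ≤ (2 / log x * ∑ n ∈ Icc 2 x, |(c n : ℝ) - t / log 2 * log n| + 6 * √(x : ℝ)) / x := by
        gcongr
        refine (sum_le_sum key).trans ?_
        rw [sum_add_distrib, ← mul_sum]
        linarith
    _ = _ := by
        rw [← h6]
        generalize (∑ n ∈ Icc 2 x, |(c n : ℝ) - t / log 2 * log n|) = S
        field_simp

end Pool.Agent.Lib.MP_b09490_nt.No
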