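import Pool.Agent.Lib.MP_b09490_nt.No.Cls

/-!
The mean value statement over the primes.
-/

open Finset Real Filter Topology

namespace Pool.Agent.Lib.MP_b09490_nt.No

theorem geo_cesaro {a : ℕ → ℝ} (h : Tendsto a atTop (𝓝 0)) :
    Tendsto (fun k : ℕ => (∑ j ∈ range k, 2 ^ j * a j) / 2 ^ k) atTop (𝓝 0) := by
  have h1 : (fun j : ℕ => (2 : ℝ) ^ j * a j) =o[atTop] fun j : ℕ => (2 : ℝ) ^ j := by
    simpa using (Asymptotics.isBigO_refl (fun j : ℕ => (2 : ℝ) ^ j) atTop).mul_isLittleO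
      ((Asymptotics.isLittleO_one_iff ℝ).2 h)
  have h2 : ∀ k : ℕ, ∑ j ∈ range k, (2 : ℝ) ^ j = 2 ^ k - 1 := fun k => by
    rw [geom_sum_eq (by norm_num)]; norm_num
  have h3 := h1.sum_range (fun j => by positivity) (by
    simp only [h2]
    exact tendsto_atTop_add_const_right _ (-1) (tendsto_pow_atTop_atTop_of_one_lt one_lt_two))
  refine (h3.trans_isBigO (Asymptotics.IsBigO.of_bound' (Eventually.of_forall fun k => ?_))
    ).tendsto_div_nhds_zero
  have h4 : (1 : ℝ) ≤ 2 ^ k := one_le_pow₀ one_le_two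
  rw [h2, norm_of_nonneg (by linarith), norm_of_nonneg (by linarith)]
  linarith

theorem blk_abs_sum_le {t y : ℝ} (ht0 : 0 ≤ t) (ht1 : t ≤ 1) (hy : 0 ≤ y) (j : ℕ) :
    ∑ q ∈ blk j, (|(D q : ℝ) - t * lg q| + 1) ≤
      2 ^ j * (8 * y) + 2 ^ j * (2 * shU (t + y) j + 2 * shL (t - y) j + 4 / j) := by
  have h1 : ∑ q ∈ blk j, |(D q : ℝ) - t * lg q| ≤ ∑ q ∈ blk j, 2 * (j : ℝ) * (y +
      (if (t + y) * lg q < D q then 1 else 0) + if (D q : ℝ) < (t - y) * lg q then 1 else 0) :=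
    sum_le_sum fun q hq => by
      have a1 := lg_le_two_mul_blk hq
      have a2 := mean1_abs ht0 ht1 q
      have a3 := mul_le_mul_of_nonneg_right a1 hy
      have a4 := mul_nonneg (lg_nonneg q) hy
      have a5 := lg_nonneg q
      split_ifs with b1 b2 b2
      · linarith
      · linarith
      · linarith
      · exact abs_le.2 ⟨by linarith, by linarith⟩
  rw [← mul_sum, sum_add_distrib, sum_add_distrib, sum_boole, sum_boole, sum_const,
    nsmul_eq_mul] at h1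
  have h2 := mul_le_mul_of_nonneg_right (mul_card_blk_le j) hy
  have h3 : (#(blk j) : ℝ) ≤ 2 ^ j * (4 / j) := by
    rcases Nat.eq_zero_or_pos j with rfl | hj
    · simp [blk_zero]
    · exact (card_blk_le hj).trans (le_of_eq (by ring))
  have h4 : ∀ c : ℝ, 2 ^ j * ((j : ℝ) / 2 ^ j * c) = j * c := fun c => by field_simp
  have h5 := h4 #((blk j).filter fun q => (t + y) * lg q < D q)
  have h6 := h4 #((blk j).filter fun q => (D q : ℝ) < (t - y) * lg q)
  rw [sum_add_distrib, sum_const, nsmul_eq_mul, mul_one, shU, shL]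
  linarith

theorem mean_class_primes {t : ℝ} (ht0 : 0 ≤ t) (ht1 : t ≤ 1)
    (hU : ∀ y : ℝ, 0 < y → Tendsto (shU (t + y)) atTop (𝓝 0))
    (hL : ∀ y : ℝ, 0 < y → Tendsto (shL (t - y)) atTop (𝓝 0))
    (c : ℕ → ℕ) (hc : ∀ n, n ≠ 0 → D n ≤ c n ∧ c n ≤ D n + 1) :
    Tendsto (fun x : ℕ => (∑ p ∈ (Icc 2 x).filter Nat.Prime, |(c p : ℝ) - t / log 2 * log p|) / x)
      atTop (𝓝 0) := by
  refine tendsto_order.2 ⟨fun a ha => Eventually.of_forall fun x => ha.trans_le (by positivity),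
    fun ε hε => ?_⟩
  obtain ⟨y, hy⟩ : ∃ y : ℝ, y = ε / 64 := ⟨_, rfl⟩
  have hy0 : 0 < y := by rw [hy]; positivity
  have ha0 : Tendsto (fun j : ℕ => 2 * shU (t + y) j + 2 * shL (t - y) j + 4 / j) atTop (𝓝 0) := by
    simpa using (((hU y hy0).const_mul 2).add ((hL y hy0).const_mul 2)).add
      (tendsto_const_div_atTop_nhds_zero_nat (4 : ℝ))
  have h3 := (tendsto_order.1 ((geo_cesaro ha0).comp ((tendsto_add_atTop_nat 1).comp
    tendsto_natLog_two))).2 (ε / 4) (by positivity)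
  filter_upwards [h3, eventually_ge_atTop 1] with x hx hx1
  have hx0 : (0 : ℝ) < x := by exact_mod_cast hx1
  have hk : (2 : ℝ) ^ Nat.log 2 x ≤ x := by exact_mod_cast Nat.pow_log_le_self 2 (by omega)
  have hk' : x < 2 ^ (Nat.log 2 x + 1) := Nat.lt_pow_succ_log_self (by norm_num) x
  simp only [Function.comp] at hx
  generalize Nat.log 2 x = k at *
  have h5 : ∑ p ∈ (Icc 2 x).filter Nat.Prime, |(c p : ℝ) - t / log 2 * log p|
      ≤ ∑ p ∈ (Icc 2 x).filter Nat.Prime, (|(D p : ℝ) - t * lg p| + 1) := by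
    refine sum_le_sum fun n hn => ?_
    obtain ⟨h5, h6⟩ := hc n (mem_filter.1 hn).2.ne_zero
    have h5' : (D n : ℝ) ≤ c n := by exact_mod_cast h5
    have h6' : (c n : ℝ) ≤ D n + 1 := by exact_mod_cast h6
    have h7 : t / log 2 * log n = t * lg n := by rw [lg_eq]; ring
    rw [h7, abs_le]
    constructor
    · linarith [neg_abs_le ((D n : ℝ) - t * lg n)]
    · linarith [le_abs_self ((D n : ℝ) - t * lg n)]
  have h6 := sum_le_sum_blk (S := (Icc 2 x).filter Nat.Prime) (J := 0) (K := k + 1)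
    (fun q hq => ⟨(mem_filter.1 hq).2, (mem_filter.1 hq).2.one_le,
      (mem_Icc.1 (mem_filter.1 hq).1).2.trans_lt hk'⟩) (fun p => |(D p : ℝ) - t * lg p| + 1)
    fun q _ => by positivity
  have h7 := sum_le_sum (s := Ico 0 (k + 1)) fun j _ => blk_abs_sum_le ht0 ht1 hy0.le j
  rw [sum_add_distrib, ← sum_mul, ← range_eq_Ico, geom_sum_eq (by norm_num)] at h7
  rw [← range_eq_Ico] at h6
  rw [div_lt_iff₀ (by positivity)] at hx
  rw [div_lt_iff₀ hx0]
  rw [pow_succ] at hx h7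
  have h8 := mul_le_mul_of_nonneg_left hk hε.le
  have h9 : (0 : ℝ) ≤ ε * 2 ^ k := by positivity
  subst hy
  norm_num at h7
  linarith

end Pool.Agent.Lib.MP_b09490_nt.No
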