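import Pool.Agent.Lib.MP_b09490_nt.No.PC

/-!
Primes p of a block such that p - 1 avoids a given set of primes.
-/

open Finset Real Filter Topology

namespace Pool.Agent.Lib.MP_b09490_nt.No

open Pool.Agent.Lib.MP_778b46_nt

/-- The constant of the upper Mertens bound. -/
noncomputable def cM : ℝ := Classical.choose mert_le

lemma one_le_cM : 1 ≤ cM := (Classical.choose_spec mert_le).1

lemma mert_le_cM {n : ℕ} (hn : 2 ≤ n) {P : Finset ℕ} (hP : P ⊆ Nat.primesLE n) :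
    mert P ≤ cM * log n := (Classical.choose_spec mert_le).2 n hn P hP

lemma primes_of_subset {n : ℕ} {P : Finset ℕ} (hP : P ⊆ Nat.primesLE n) : ∀ l ∈ P, l.Prime :=
  fun _ hl => Nat.prime_of_mem_primesLE (hP hl)

lemma log_le_mert {P : Finset ℕ} {R : ℕ} (hP : ∀ l ∈ P, l.Prime)
    (hcov : ∀ l, l.Prime → l ≤ R → l ∈ P) (hR : 1 ≤ R) : log (R + 1) ≤ mert P := by
  have h := log_le_gg_mul P ∅ R hP (by simp) fun l h1 h2 => Or.inl (hcov l h1 h2)
  have e : dd ∅ R = {∅} := by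
    rw [dd, powerset_empty, filter_singleton, if_pos (by simpa using hR)]
  simpa [gg, e] using h

lemma mert_union_le {P Q : Finset ℕ} (hP : ∀ l ∈ P, l.Prime) (hQ : ∀ l ∈ Q, l.Prime) :
    mert (P ∪ Q) ≤ mert P * mert Q := by
  have h1 : mert (P ∪ Q) * mert (P ∩ Q) = mert P * mert Q := prod_union_inter
  have h2 := one_le_mert (P := P ∩ Q) fun l hl => hP l (mem_inter.mp hl).1
  have h3 := one_le_mert (P := P ∪ Q) fun l hl => by
    rcases mem_union.mp hl with h | h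
    exacts [hP l h, hQ l h]
  nlinarith

lemma mert_le_gg {R : ℕ} (hR : 2 ≤ R) {P : Finset ℕ} (hP : P ⊆ Nat.primesLE R) :
    mert P ≤ cM * gg P R := by
  have h0 : ∀ l ∈ Nat.primesLE R \ P, l.Prime := primes_of_subset sdiff_subset
  have h1 := log_le_gg_mul (Nat.primesLE R \ P) P R h0 (primes_of_subset hP) fun l h1 h2 => by
    by_cases h : l ∈ P
    · exact Or.inr h
    · exact Or.inl (mem_sdiff.mpr ⟨Nat.mem_primesLE.mpr ⟨h2, h1⟩, h⟩)
  have h2 : mert (Nat.primesLE R \ P) * mert P = mert (Nat.primesLE R) := prod_sdiff hP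
  have h3 := mert_le_cM hR (subset_refl _)
  have hR' : (2 : ℝ) ≤ R := by exact_mod_cast hR
  have h4 : log R ≤ log (R + 1) := log_le_log (by linarith) (by linarith)
  have h5 := one_le_mert h0
  have h6 := one_le_cM
  refine le_of_mul_le_mul_left (a := mert (Nat.primesLE R \ P)) ?_ (by linarith)
  calc _ ≤ cM * log (R + 1) := by rw [h2]; exact h3.trans (by gcongr)
    _ ≤ cM * (gg P R * mert (Nat.primesLE R \ P)) := by gcongr
    _ = _ := by ring

lemma inv_gg_le {R : ℕ} (hR : 2 ≤ R) {P : Finset ℕ} (hP : P ⊆ Nat.primesLE R) :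
    1 / gg P R ≤ cM / mert P := by
  have h1 := one_le_gg (primes_of_subset hP) (show 1 ≤ R by omega)
  have h2 := one_le_mert (primes_of_subset hP)
  rw [div_le_div_iff₀ (by linarith) (by linarith), one_mul]
  exact mert_le_gg hR hP

lemma ratio_le {R : ℕ} (hR : 2 ≤ R) {P : Finset ℕ} (hP : P ⊆ Nat.primesLE R) :
    mert P / gg P R ^ 2 ≤ cM ^ 2 / mert P := by
  have h1 := one_le_gg (primes_of_subset hP) (show 1 ≤ R by omega)
  have h2 := one_le_mert (primes_of_subset hP)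
  have h3 := mert_le_gg hR hP
  rw [div_le_div_iff₀ (by positivity) (by linarith), ← mul_pow, ← sq]
  gcongr

lemma div_le_log {n d : ℕ} (hd : 0 < d) (h : d ≤ n) :
    (n : ℝ) / (3 * d) ≤ log ((2 ^ (n / d) : ℕ) + 1) := by
  have hd' : (0 : ℝ) < d := by exact_mod_cast hd
  have h1 : n ≤ 2 * d * (n / d) := by
    have := Nat.div_add_mod n d
    have := Nat.mod_lt n hd
    have := Nat.div_pos h hd
    nlinarith
  have h2 : (n : ℝ) ≤ 2 * d * (n / d : ℕ) := by exact_mod_cast h1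
  have h3 : log ((2 : ℝ) ^ (n / d)) ≤ log ((2 ^ (n / d) : ℕ) + 1) :=
    log_le_log (by positivity) (by push_cast; linarith)
  rw [log_pow] at h3
  refine le_trans ?_ h3
  rw [div_le_iff₀ (by positivity)]
  have h4 := log_two_gt_d9
  have h5 : (0 : ℝ) ≤ d * (n / d : ℕ) := by positivity
  nlinarith

lemma two_le_pow_div {n d : ℕ} (hd : 0 < d) (h : d ≤ n) : 2 ≤ 2 ^ (n / d) :=
  Nat.le_self_pow (Nat.div_pos h hd).ne' 2

lemma ratio_all_le {n d : ℕ} (hd : 0 < d) (h : d ≤ n) :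
    mert (Nat.primesLE (2 ^ (n / d))) / gg (Nat.primesLE (2 ^ (n / d))) (2 ^ (n / d)) ^ 2 ≤
      3 * d * cM ^ 2 / n := by
  have hR := two_le_pow_div hd h
  have h1 := (div_le_log hd h).trans (log_le_mert (primes_of_subset (subset_refl _))
    (fun l h1 h2 => Nat.mem_primesLE.mpr ⟨h2, h1⟩) (show 1 ≤ 2 ^ (n / d) by omega))
  have hd' : (0 : ℝ) < d := by exact_mod_cast hd
  have hn : (0 : ℝ) < n := by exact_mod_cast hd.trans_le h
  refine (ratio_le hR (subset_refl _)).trans ?_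
  calc _ ≤ cM ^ 2 / (n / (3 * d)) := by gcongr
    _ = _ := by field_simp

lemma nu_prime {P : Finset ℕ} {R Y p : ℕ} (hP : P ⊆ Nat.primesLE Y) (hR : 1 ≤ R) (hp : p.Prime)
    (h : Y < p) : nu P R p = 1 :=
  nu_eq_one (primes_of_subset hP) hR fun l hl hd => by
    have h1 := (Nat.prime_dvd_prime_iff_eq (primes_of_subset hP l hl) hp).mp
      (Int.natCast_dvd_natCast.mp hd)
    have h2 := Nat.le_of_mem_primesLE (hP hl)
    omega

theorem exc_mert {k : ℕ} (hk : 40 ≤ k) {Bs : Finset ℕ} (hB : Bs ⊆ Nat.primesLE (2 ^ (k / 40))) :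
    (#((blk k).filter fun p => ∀ q ∈ Bs, ¬ q ∣ p - 1) : ℝ) ≤
      120 * cM ^ 4 * exp 18 * 2 ^ k / (k * mert Bs) + 2 ^ (k / 5) := by
  set R := 2 ^ (k / 40) with hRdef
  have hR : 2 ≤ R := two_le_pow_div (by norm_num) hk
  have hR1 : 1 ≤ R := by omega
  have hBp := primes_of_subset hB
  have hRk : R < 2 ^ k := Nat.pow_lt_pow_right one_lt_two (by omega)
  have h := pc hBp (primes_of_subset (subset_refl (Nat.primesLE R))) hR1 hR1 one_ne_zero
    ((2 ^ k : ℕ) - 2) (2 ^ k)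
  set S := (blk k).filter fun p => ∀ q ∈ Bs, ¬ q ∣ p - 1 with hS
  have h1 : (#S : ℝ) ≤ ∑ s ∈ Ioc (((2 ^ k : ℕ) : ℤ) - 2) ((2 ^ k : ℕ) - 2 + (2 ^ k : ℕ)),
      nu Bs R s * nu (Nat.primesLE R) R ((1 : ℕ) * s + 1) := by
    have hinj : Set.InjOn (fun p : ℕ => (p : ℤ) - 1) S := fun a _ b _ h => by
      simp only at h; omega
    rw [card_eq_sum_ones, Nat.cast_sum]
    calc _ = ∑ s ∈ S.image (fun p : ℕ => (p : ℤ) - 1),
          nu Bs R s * nu (Nat.primesLE R) R ((1 : ℕ) * s + 1) := by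
          rw [sum_image hinj]
          refine sum_congr rfl fun p hp => ?_
          obtain ⟨hp1, hp2⟩ := mem_filter.mp hp
          obtain ⟨hp3, hp4, _⟩ := mem_blk.1 hp1
          have e : ((1 : ℕ) : ℤ) * ((p : ℤ) - 1) + 1 = p := by push_cast; ring
          have e' : (p : ℤ) - 1 = ((p - 1 : ℕ) : ℤ) := by have := hp3.pos; omega
          rw [e, nu_prime (subset_refl _) hR1 hp3 (by omega), e',
            nu_eq_one hBp hR1 fun l hl hd => hp2 l hl (Int.natCast_dvd_natCast.mp hd)]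
          simp
      _ ≤ _ := by
          refine sum_le_sum_of_subset_of_nonneg (fun s hs => ?_)
            fun s _ _ => mul_nonneg (nu_nonneg _) (nu_nonneg _)
          obtain ⟨p, hp, rfl⟩ := mem_image.mp hs
          obtain ⟨_, hp4, hp5⟩ := mem_blk.1 (mem_filter.mp hp).1
          rw [pow_succ] at hp5
          rw [mem_Ioc]; omega
  have h2 := ratio_le hR hB
  have h3 := ratio_all_le (d := 40) (by norm_num) hk
  have h4 : (R : ℝ) ^ 4 * (R : ℝ) ^ 4 ≤ 2 ^ (k / 5) := by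
    rw [hRdef]; push_cast
    rw [← pow_mul, ← pow_add]
    exact pow_le_pow_right₀ one_le_two (by omega)
  have hm := one_le_mert hBp
  have hm' := one_le_mert (primes_of_subset (subset_refl (Nat.primesLE R)))
  have hk' : (0 : ℝ) < k := by exact_mod_cast (by omega : 0 < k)
  have hg : gw 1 = 1 := by simp [gw]
  rw [hg] at h
  refine h1.trans (h.trans (add_le_add ?_ h4))
  calc _ ≤ ((2 ^ k : ℕ) : ℝ) * (cM ^ 2 / mert Bs) * (3 * (40 : ℕ) * cM ^ 2 / k) * exp 18 * 1 := by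
        gcongr
    _ = _ := by push_cast; field_simp; ring

lemma one_add_sum_le_mert {P : Finset ℕ} (hP : ∀ l ∈ P, l.Prime) :
    1 + ∑ l ∈ P, uu l ≤ mert P := by
  induction P using Finset.induction_on with
  | empty => simp [mert]
  | insert l P hl ih =>
    have h1 := ih fun r hr => hP r (mem_insert_of_mem hr)
    have h2 := uu_pos (hP l (mem_insert_self l P))
    have h3 := one_le_mert fun r hr => hP r (mem_insert_of_mem hr)
    have e : mert (insert l P) = (1 + uu l) * mert P := prod_insert hl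
    rw [sum_insert hl, e]
    nlinarith

/-- The form used for the lower threshold. -/
theorem exc : ∃ C : ℝ, 1 ≤ C ∧ ∀ k : ℕ, 40 ≤ k → ∀ Bs : Finset ℕ,
    (∀ q ∈ Bs, q.Prime ∧ q ≤ 2 ^ (k / 40)) →
    (k : ℝ) / 2 ^ k * #((blk k).filter fun p => ∀ q ∈ Bs, ¬ q ∣ p - 1) ≤
      C / (1 + ∑ q ∈ Bs, (1 : ℝ) / q) + k * 2 ^ (k / 5) / 2 ^ k := by
  have hc := one_le_cM
  refine ⟨120 * cM ^ 4 * exp 18, ?_, fun k hk Bs hB => ?_⟩
  · have h1 : 1 ≤ cM ^ 4 := one_le_pow₀ hc
    have h2 : 1 ≤ exp 18 := one_le_exp (by norm_num)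
    nlinarith
  have h := exc_mert hk (Bs := Bs) fun q hq => Nat.mem_primesLE.mpr ⟨(hB q hq).2, (hB q hq).1⟩
  have hk' : (0 : ℝ) < k := by exact_mod_cast (by omega : 0 < k)
  have h0 : 0 ≤ ∑ q ∈ Bs, (1 : ℝ) / q := sum_nonneg fun _ _ => by positivity
  have h1 : 1 + ∑ q ∈ Bs, (1 : ℝ) / q ≤ mert Bs := by
    refine le_trans ?_ (one_add_sum_le_mert fun l hl => (hB l hl).1)
    refine add_le_add le_rfl (sum_le_sum fun q hq => ?_)
    have : (2 : ℝ) ≤ q := by exact_mod_cast (hB q hq).1.two_le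
    exact one_div_le_one_div_of_le (by linarith) (by linarith)
  calc _ ≤ (k : ℝ) / 2 ^ k * (120 * cM ^ 4 * exp 18 * 2 ^ k / (k * (1 + ∑ q ∈ Bs, (1 : ℝ) / q))
        + 2 ^ (k / 5)) := by
        refine mul_le_mul_of_nonneg_left (h.trans ?_) (by positivity)
        gcongr
    _ = _ := by field_simp

end Pool.Agent.Lib.MP_b09490_nt.No
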