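import Pool.Agent.Lib.MP_b09490_nt.No.TrA

/-!
Combinatorics of the swap: the decomposition of the primes and the number of representations.
-/

open Finset Real Filter Topology

namespace Pool.Agent.Lib.MP_b09490_nt.No

open Pool.Agent.Lib.MP_778b46_nt

/-- No prime of the blocks from `u` to `i - 1` divides `n`. -/
def fre (u i n : ℕ) : Prop := ∀ j ∈ Ico u i, ∀ q ∈ blk j, ¬ q ∣ n

instance (u i : ℕ) : DecidablePred (fre u i) := fun n => by unfold fre; infer_instance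

/-- The cofactors at block `i`. -/
def cof (k u i : ℕ) : Finset ℕ := (Icc 1 (2 ^ (k + 1 - i))).filter (fre u i)

lemma exists_rep {k u p : ℕ} (hk : u ^ 2 ≤ k) (hp : p ∈ blk k) (h : ¬ ∀ q ∈ swp u, ¬ q ∣ p - 1) :
    ∃ i ∈ Ico u (u ^ 2), ∃ m ∈ cof k u i, ∃ l ∈ blk i, l * m + 1 = p := by
  push Not at h
  obtain ⟨hp1, _, hp3⟩ := mem_blk.1 hp
  have hex : ∃ i, u ≤ i ∧ i < u ^ 2 ∧ ∃ l ∈ blk i, l ∣ p - 1 := by
    obtain ⟨q, hq, hd⟩ := h
    obtain ⟨h1, h2⟩ := mem_filter.mp hq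
    obtain ⟨h3, h4⟩ := mem_Ico.mp h1
    exact ⟨Nat.log 2 q, Nat.le_log_of_pow_le one_lt_two h3,
      Nat.log_lt_of_lt_pow h2.ne_zero h4, q, mem_blk_log h2, hd⟩
  classical
  obtain ⟨h1, h2, l, hl, m, hm⟩ := Nat.find_spec hex
  set i := Nat.find hex with hi
  have hp2 := hp1.two_le
  refine ⟨i, mem_Ico.mpr ⟨h1, h2⟩, m, mem_filter.mpr ⟨mem_Icc.mpr ⟨?_, ?_⟩, ?_⟩, l, hl, by omega⟩
  · refine Nat.pos_of_ne_zero fun h0 => ?_
    rw [h0] at hm; omega
  · refine Nat.le_of_mul_le_mul_left (c := 2 ^ i) ?_ (by positivity)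
    rw [← pow_add, show i + (k + 1 - i) = k + 1 by omega]
    calc _ ≤ l * m := Nat.mul_le_mul_right _ (mem_blk.1 hl).2.1
      _ ≤ _ := by omega
  · intro j hj q hq hd
    obtain ⟨h3, h4⟩ := mem_Ico.mp hj
    exact Nat.find_min hex h4 ⟨h3, by omega, q, hq, hm ▸ hd.mul_left l⟩

/-- Decomposition by the least block that meets `p - 1`. -/
lemma decomp {k u : ℕ} (hk : u ^ 2 ≤ k) (f : ℕ → ℝ) (F X : ℕ → ℕ → ℝ) (hF : ∀ i m, 0 ≤ F i m)
    (hf : ∀ i ∈ Ico u (u ^ 2), ∀ l ∈ blk i, ∀ m, l * m + 1 ∈ blk k → f (l * m) ≤ F i m)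
    (hX0 : ∀ i n, 0 ≤ X i n) (hX : ∀ i, ∀ p ∈ blk k, 1 ≤ X i p) :
    ∑ p ∈ (blk k).filter (fun p => ¬ ∀ q ∈ swp u, ¬ q ∣ p - 1), f (p - 1) ≤
      ∑ i ∈ Ico u (u ^ 2), ∑ m ∈ cof k u i, F i m * ∑ l ∈ blk i, X i (l * m + 1) := by
  set S := (blk k).filter (fun p => ¬ ∀ q ∈ swp u, ¬ q ∣ p - 1) with hS
  have p0 : ∀ p i m l : ℕ, 0 ≤ (if l * m + 1 = p then F i m else 0) := fun p i m l => by
    split_ifs
    exacts [hF i m, le_rfl]
  have h1 : ∀ p ∈ S, f (p - 1) ≤ ∑ i ∈ Ico u (u ^ 2), ∑ m ∈ cof k u i, ∑ l ∈ blk i,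
      if l * m + 1 = p then F i m else 0 := by
    intro p hp
    obtain ⟨hp1, hp2⟩ := mem_filter.mp hp
    obtain ⟨i, hi, m, hm, l, hl, e⟩ := exists_rep hk hp1 hp2
    refine le_trans ?_ (single_le_sum (f := fun i => ∑ m ∈ cof k u i, ∑ l ∈ blk i,
      if l * m + 1 = p then F i m else 0)
      (fun i _ => sum_nonneg fun m _ => sum_nonneg fun l _ => p0 p i m l) hi)
    refine le_trans ?_ (single_le_sum (f := fun m => ∑ l ∈ blk i,
      if l * m + 1 = p then F i m else 0) (fun m _ => sum_nonneg fun l _ => p0 p i m l) hm)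
    refine le_trans ?_ (single_le_sum (f := fun l => if l * m + 1 = p then F i m else 0)
      (fun l _ => p0 p i m l) hl)
    simp only [if_pos e]
    have := hf i hi l hl m (e ▸ hp1)
    rwa [show l * m = p - 1 by omega] at this
  refine (sum_le_sum h1).trans ?_
  rw [sum_comm]
  refine sum_le_sum fun i _ => ?_
  rw [sum_comm]
  refine sum_le_sum fun m _ => ?_
  rw [sum_comm, mul_sum]
  refine sum_le_sum fun l _ => ?_
  rw [sum_ite_eq]
  split_ifs with h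
  · exact le_mul_of_one_le_right (hF i m) (hX i _ (mem_filter.mp h).1)
  · exact mul_nonneg (hF i m) (hX0 i _)

lemma rep_blk {k u i : ℕ} (hi : i ≤ k + 1) (φ : ℕ → ℝ) (hφ : ∀ n, 0 ≤ φ n) :
    ∑ m ∈ cof k u i, ∑ l ∈ blk i, φ (l * m) ≤ ∑ n ∈ Icc 1 (2 ^ (k + 2)),
      φ n * if fre u i n then (#((blk i).filter fun q => q ∣ n) : ℝ) else 0 := by
  have h1 : ∀ l ∈ blk i, ∑ m ∈ cof k u i, φ (l * m) ≤ ∑ n ∈ Icc 1 (2 ^ (k + 2)),
      if fre u i n ∧ l ∣ n then φ n else 0 := by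
    intro l hl
    obtain ⟨hl1, _, hl3⟩ := mem_blk.1 hl
    have hinj : Set.InjOn (fun m : ℕ => l * m) (cof k u i) := fun a _ b _ h =>
      Nat.eq_of_mul_eq_mul_left hl1.pos h
    rw [← sum_filter, ← sum_image (f := φ) hinj]
    refine sum_le_sum_of_subset_of_nonneg (fun n hn => ?_) fun n _ _ => hφ n
    obtain ⟨m, hm, rfl⟩ := mem_image.mp hn
    obtain ⟨hm1, hm2⟩ := mem_filter.mp hm
    obtain ⟨hm3, hm4⟩ := mem_Icc.mp hm1
    refine mem_filter.mpr ⟨mem_Icc.mpr ⟨Nat.mul_pos hl1.pos hm3, ?_⟩, ?_, dvd_mul_right _ _⟩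
    · calc l * m ≤ 2 ^ (i + 1) * 2 ^ (k + 1 - i) := Nat.mul_le_mul hl3.le hm4
        _ = _ := by rw [← pow_add]; congr 1; omega
    · intro j hj q hq hd
      rcases (Nat.Prime.dvd_mul (mem_blk.1 hq).1).mp hd with h | h
      · have e : q = l := (Nat.prime_dvd_prime_iff_eq (mem_blk.1 hq).1 hl1).mp h
        have := blk_unique hq (e ▸ hl)
        have := (mem_Ico.mp hj).2
        omega
      · exact hm2 j hj q hq h
  rw [sum_comm]
  refine (sum_le_sum h1).trans (le_of_eq ?_)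
  rw [sum_comm]
  refine sum_congr rfl fun n _ => ?_
  by_cases h : fre u i n
  · simp only [h, true_and, if_true]
    rw [← sum_filter, sum_const, nsmul_eq_mul, mul_comm]
  · simp [h]

lemma rep_count (u v n : ℕ) :
    ∑ i ∈ Ico u v, (if fre u i n then (#((blk i).filter fun q => q ∣ n) : ℝ) else 0) ≤
      1 + ∑ i ∈ Ico u v, ∑ q ∈ (blk i).filter (fun q => q ∣ n),
        ∑ _q' ∈ (blk i).filter (fun q' => q' ∣ n ∧ q' ≠ q), (1 : ℝ) * 1 := by
  have h1 : ∀ i ∈ Ico u v, (if fre u i n then (#((blk i).filter fun q => q ∣ n) : ℝ) else 0) ≤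
      (if fre u i n ∧ ((blk i).filter fun q => q ∣ n).Nonempty then 1 else 0) +
        ∑ q ∈ (blk i).filter (fun q => q ∣ n),
          ∑ _q' ∈ (blk i).filter (fun q' => q' ∣ n ∧ q' ≠ q), (1 : ℝ) * 1 := by
    intro i _
    set S := (blk i).filter fun q => q ∣ n with hS
    have p0 : ∀ q, 0 ≤ ∑ _q' ∈ (blk i).filter (fun q' => q' ∣ n ∧ q' ≠ q), (1 : ℝ) * 1 :=
      fun q => sum_nonneg fun _ _ => by norm_num
    by_cases h : fre u i n
    · rcases S.eq_empty_or_nonempty with h0 | ⟨q0, h0⟩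
      · simp [h0]
      · rw [if_pos h, if_pos ⟨h, q0, h0⟩, ← add_sum_erase _ _ h0, ← card_erase_add_one h0]
        have h2 : (#(S.erase q0) : ℝ) ≤ ∑ q ∈ S.erase q0,
            ∑ _q' ∈ (blk i).filter (fun q' => q' ∣ n ∧ q' ≠ q), (1 : ℝ) * 1 := by
          rw [card_eq_sum_ones, Nat.cast_sum]
          refine sum_le_sum fun q hq => ?_
          have := single_le_sum (f := fun _ : ℕ => (1 : ℝ) * 1) (fun _ _ => by norm_num)
            (show q0 ∈ (blk i).filter (fun q' => q' ∣ n ∧ q' ≠ q) from mem_filter.mpr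
              ⟨(mem_filter.mp h0).1, (mem_filter.mp h0).2, (ne_of_mem_erase hq).symm⟩)
          simpa using this
        push_cast
        linarith [p0 q0]
    · rw [if_neg h, if_neg (fun h' => h h'.1), zero_add]
      exact sum_nonneg fun q _ => p0 q
  refine (sum_le_sum h1).trans ?_
  rw [sum_add_distrib]
  refine add_le_add ?_ le_rfl
  rw [sum_boole]
  have key : ∀ a b, u ≤ a → a < b → ((blk a).filter fun q => q ∣ n).Nonempty → ¬ fre u b n := by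
    rintro a b h1 h2 ⟨q, hq⟩ h3
    exact h3 a (mem_Ico.mpr ⟨h1, h2⟩) q (mem_filter.mp hq).1 (mem_filter.mp hq).2
  exact_mod_cast card_le_one.mpr fun a ha b hb => by
    obtain ⟨ha1, ha2, ha3⟩ := mem_filter.mp ha
    obtain ⟨hb1, hb2, hb3⟩ := mem_filter.mp hb
    rcases lt_trichotomy a b with h | h | h
    · exact absurd hb2 (key a b (mem_Ico.mp ha1).1 h ha3)
    · exact h
    · exact absurd ha2 (key b a (mem_Ico.mp hb1).1 h hb3)

/-- Each integer is counted once, up to pairs of primes in one block. -/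
lemma rep_sum {k u : ℕ} (hu : 1 ≤ u) (hk : u ^ 2 ≤ k) {B : ℝ} (f' : ℕ → ℝ) (h0 : ∀ n, 0 ≤ f' n)
    (hB : ∀ n, f' n ≤ B) :
    ∑ i ∈ Ico u (u ^ 2), ∑ m ∈ cof k u i, ∑ l ∈ blk i, gw (l * m) * f' (l * m) ≤
      ∑ n ∈ Icc 1 (2 ^ (k + 2)), gw n * f' n + 43008 * B * 2 ^ k / u := by
  have hB0 : 0 ≤ B := (h0 0).trans (hB 0)
  have hg : ∀ n, 0 ≤ gw n := fun n => zero_le_one.trans (one_le_gw n)
  have h1 := sum_le_sum fun i (hi : i ∈ Ico u (u ^ 2)) => rep_blk (k := k) (u := u) (i := i)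
    (by have := (mem_Ico.mp hi).2; omega) (fun n => gw n * f' n)
    fun n => mul_nonneg (hg n) (h0 n)
  refine h1.trans ?_
  rw [sum_comm]
  simp only [← mul_sum]
  refine (sum_le_sum fun n _ => mul_le_mul_of_nonneg_left (rep_count u (u ^ 2) n)
    (mul_nonneg (hg n) (h0 n))).trans ?_
  simp only [mul_add, mul_one (gw _ * _), sum_add_distrib]
  refine add_le_add le_rfl ?_
  have h2 : ∀ i ∈ Ico u (u ^ 2), ∑ n ∈ Icc 1 (2 ^ (k + 2)), gw n *
      ∑ q ∈ (blk i).filter (fun q => q ∣ n),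
        ∑ _q' ∈ (blk i).filter (fun q' => q' ∣ n ∧ q' ≠ q), (1 : ℝ) * 1 ≤
      21504 * 2 ^ k * ((i : ℝ) ^ 2)⁻¹ := by
    intro i _
    have hp : ∀ l ∈ blk i, l.Prime := fun l hl => (mem_blk.1 hl).1
    have h3 := sum_gw_pair (2 ^ (k + 2)) (blk i) (blk i) hp hp (fun _ => 1) (fun _ => 1)
      (fun _ _ => zero_le_one) fun _ _ => zero_le_one
    have h4 := sum_inv_blk_le i
    have h5 : 0 ≤ ∑ q ∈ blk i, (1 : ℝ) / q := sum_nonneg fun _ _ => by positivity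
    calc _ ≤ 336 * ((2 ^ (k + 2) : ℕ) : ℝ) * (4 / i * (4 / i)) := h3.trans (by gcongr)
      _ = _ := by push_cast; ring
  have h3 := sum_Ioo_inv_sq_le (α := ℝ) (u - 1) (u ^ 2)
  have e : Ioo (u - 1) (u ^ 2) = Ico u (u ^ 2) := by
    ext i; rw [mem_Ioo, mem_Ico]; omega
  rw [e, Nat.cast_sub hu, Nat.cast_one, sub_add_cancel] at h3
  calc _ ≤ ∑ n ∈ Icc 1 (2 ^ (k + 2)), B * ∑ i ∈ Ico u (u ^ 2), gw n *
        ∑ q ∈ (blk i).filter (fun q => q ∣ n),
          ∑ _q' ∈ (blk i).filter (fun q' => q' ∣ n ∧ q' ≠ q), (1 : ℝ) * 1 := by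
        refine sum_le_sum fun n _ => ?_
        rw [← mul_sum, ← mul_assoc, mul_comm B]
        refine mul_le_mul_of_nonneg_right (mul_le_mul_of_nonneg_left (hB n) (hg n)) ?_
        exact sum_nonneg fun _ _ => sum_nonneg fun _ _ => sum_nonneg fun _ _ => by norm_num
    _ ≤ B * (21504 * 2 ^ k * (2 / u)) := by
        rw [← mul_sum, sum_comm]
        refine mul_le_mul_of_nonneg_left ((sum_le_sum h2).trans ?_) hB0
        rw [← mul_sum]
        gcongr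
    _ = _ := by ring

end Pool.Agent.Lib.MP_b09490_nt.No
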