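import Pool.Agent.Lib.MP_b09490_nt.No.TrB
import Pool.Agent.Lib.MP_b09490_nt.No.TrC
import Pool.Agent.Lib.MP_b09490_nt.No.ChebL

/-!
The transfer bound from shifted primes to integers.
-/

open Finset Real Filter Topology

namespace Pool.Agent.Lib.MP_b09490_nt.No

open Pool.Agent.Lib.MP_778b46_nt

/-- Constant of the main term. -/
noncomputable def cT : ℝ := 3600 * cM * (30 * cM ^ 4 * exp 18 + 10 * cM)

lemma cT_nonneg : 0 ≤ cT := by
  have := one_le_cM
  unfold cT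
  positivity

lemma Big.main_term {k u i : ℕ} (h : Big k u) (hi : u ≤ i) (hc : (2 : ℝ) ^ i / (10 * i) ≤ #(blk i))
    {B : ℝ} (f' : ℕ → ℝ) (h0 : ∀ n, 0 ≤ f' n) (hB : ∀ n, f' n ≤ B) {m : ℕ} (hm : m ≠ 0) :
    (∑ l ∈ blk i, f' (l * m)) / #(blk i) *
        ∑ l ∈ blk i, rough (k / 10) ((l * m + 1 : ℕ) : ℤ) *
          nu (sif k i) (2 ^ (k / 40)) ((l * m + 1 : ℕ) : ℤ) ≤
      B * |dev k i m| + cT / k * ∑ l ∈ blk i, gw (l * m) * f' (l * m) := by
  have h1 := h.u40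
  have h2 := h.u_le
  have hB0 : 0 ≤ B := (h0 0).trans (hB 0)
  have hi' : (0 : ℝ) < i := by exact_mod_cast (by omega : 0 < i)
  have hk : (0 : ℝ) < k := by exact_mod_cast (by omega : 0 < k)
  have hT : (0 : ℝ) < #(blk i) := lt_of_lt_of_le (by positivity) hc
  have hcM := one_le_cM
  have hg := one_le_gw m
  set S := ∑ l ∈ blk i, f' (l * m) with hS
  have hS0 : 0 ≤ S := sum_nonneg fun _ _ => h0 _
  have hSB : S / #(blk i) ≤ B := by
    rw [div_le_iff₀ hT, mul_comm, ← nsmul_eq_mul]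
    exact sum_le_card_nsmul _ _ _ fun _ _ => hB _
  have hSi : S / #(blk i) ≤ S / (2 ^ i / (10 * i)) := by gcongr
  have e : ∑ l ∈ blk i, rough (k / 10) ((l * m + 1 : ℕ) : ℤ) *
        nu (sif k i) (2 ^ (k / 40)) ((l * m + 1 : ℕ) : ℤ) =
      dev k i m + 1 / gg (sif k i) (2 ^ (k / 40)) * ∑ l ∈ blk i, rough (k / 10) (l * m + 1) := by
    rw [dev, mul_sum, ← sum_add_distrib]
    refine sum_congr rfl fun l _ => ?_
    push_cast; ring
  have hM := one_le_mert (primes_of_subset (subset_refl (Nat.primesLE (k / 10))))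
  have h3 := inv_gg_le (two_le_pow_div (n := k) (d := 40) (by norm_num) (by omega))
    (Big.sif_subset (k := k) (i := i))
  have h4 := h.inv_mert_sif hi
  have h5 := h.inner hi hm
  set M := mert (Nat.primesLE (k / 10))
  have h6 : 1 / gg (sif k i) (2 ^ (k / 40)) ≤ cM * (360 * M / k) := by
    refine h3.trans ?_
    rw [← mul_one_div]
    exact mul_le_mul_of_nonneg_left h4 (by linarith)
  have h7 : 0 ≤ ∑ l ∈ blk i, rough (k / 10) (l * m + 1) := sum_nonneg fun _ _ => rough_nonneg _ _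
  have h8 : gw m * S ≤ ∑ l ∈ blk i, gw (l * m) * f' (l * m) := by
    rw [hS, mul_sum]
    refine sum_le_sum fun l hl => mul_le_mul_of_nonneg_right ?_ (h0 _)
    rw [mul_comm l]
    exact gw_le_mul hm (mem_blk.1 hl).1.ne_zero
  have h9 : 0 ≤ 1 / gg (sif k i) (2 ^ (k / 40)) := by
    have := one_le_gg (primes_of_subset (Big.sif_subset (k := k) (i := i)))
      (show 1 ≤ 2 ^ (k / 40) from Nat.one_le_two_pow)
    positivity
  have hcT := cT_nonneg
  rw [e, mul_add]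
  refine add_le_add ?_ ?_
  · exact (mul_le_mul_of_nonneg_left (le_abs_self _) (by positivity)).trans
      (mul_le_mul_of_nonneg_right hSB (abs_nonneg _))
  · calc _ ≤ S / (2 ^ i / (10 * i)) * (cM * (360 * M / k) *
          ((30 * cM ^ 4 * exp 18 + 10 * cM) * (2 ^ i / i) * gw m / M)) :=
          mul_le_mul hSi (mul_le_mul h6 h5 h7 (by positivity)) (mul_nonneg h9 h7) (by positivity)
      _ = cT / k * (gw m * S) := by unfold cT; field_simp; ring
      _ ≤ _ := by gcongr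

theorem transfer : ∃ C : ℝ, 1 ≤ C ∧ ∃ k0 : ℕ, ∀ k u : ℕ, k0 ≤ k → u ^ 10 ≤ k → k < (u + 1) ^ 10 →
    ∀ (B : ℝ) (f f' : ℕ → ℝ), (∀ n, f n ≤ B) → (∀ n, 0 ≤ f' n) → (∀ n, f' n ≤ B) →
    (∀ i l l' m : ℕ, u ≤ i → i < u ^ 2 → l ∈ blk i → l' ∈ blk i → l * m + 1 ∈ blk k →
      f (l * m) ≤ f' (l' * m)) →
    ∑ p ∈ blk k, f (p - 1) ≤ C / k * ∑ n ∈ Icc 1 (2 ^ (k + 2)), gw n * f' n
      + C * B * 2 ^ k / (k * u) := by
  obtain ⟨u0, hu0, hthr⟩ := exists_thr
  obtain ⟨j0, hj0⟩ := card_blk_ge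
  have hcM := one_le_cM
  have hcD := one_le_cD
  have hcT := cT_nonneg
  have hE : 0 ≤ 120 * cM ^ 5 * exp 18 := by positivity
  refine ⟨(120 * cM ^ 5 * exp 18 + 1) + cD + 43008 * cT, by linarith, (u0 + j0 + 1) ^ 10,
    fun k u hk hlo hhi B f f' hf h0 hB hsw => ?_⟩
  have hu : u0 + j0 ≤ u := by
    have := lt_of_pow_lt_pow_left₀ 10 (Nat.zero_le _) (hk.trans_lt hhi)
    omega
  have h : Big k u := ⟨hlo, hhi, by omega, fun i hi => hthr i (by omega)⟩
  have h1 := h.u40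
  have h2 := h.u_le
  have h3 := h.sq_le
  have hB0 : 0 ≤ B := (h0 0).trans (hB 0)
  have hk' : (0 : ℝ) < k := by exact_mod_cast (by omega : 0 < k)
  have hu' : (0 : ℝ) < u := by exact_mod_cast (by omega : 0 < u)
  have hS0 : 0 ≤ ∑ n ∈ Icc 1 (2 ^ (k + 2)), gw n * f' n :=
    sum_nonneg fun n _ => mul_nonneg (zero_le_one.trans (one_le_gw n)) (h0 n)
  have a1 : ∑ p ∈ (blk k).filter (fun p => ∀ q ∈ swp u, ¬ q ∣ p - 1), f (p - 1) ≤
      B * ((120 * cM ^ 5 * exp 18 + 1) * 2 ^ k / (k * u)) := by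
    refine (sum_le_card_nsmul _ _ B fun _ _ => hf _).trans ?_
    rw [nsmul_eq_mul, mul_comm]
    exact mul_le_mul_of_nonneg_left h.exc_swp hB0
  have a2 := decomp (k := k) (u := u) (by omega) f
    (fun i m => (∑ l ∈ blk i, f' (l * m)) / #(blk i))
    (fun i n => rough (k / 10) (n : ℕ) * nu (sif k i) (2 ^ (k / 40)) (n : ℕ))
    (fun i m => div_nonneg (sum_nonneg fun _ _ => h0 _) (Nat.cast_nonneg _))
    (fun i hi l hl m hm => by
      have hT : (0 : ℝ) < #(blk i) := by exact_mod_cast card_pos.mpr ⟨l, hl⟩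
      rw [le_div_iff₀ hT, mul_comm, ← nsmul_eq_mul]
      exact card_nsmul_le_sum _ _ _ fun l' hl' =>
        hsw i l l' m (mem_Ico.mp hi).1 (mem_Ico.mp hi).2 hl hl' hm)
    (fun i n => mul_nonneg (rough_nonneg _ _) (nu_nonneg _))
    (fun i p hp => by
      obtain ⟨hp1, hp2, _⟩ := mem_blk.1 hp
      have h4 : 2 ^ (k / 40) < 2 ^ k := Nat.pow_lt_pow_right one_lt_two (by omega)
      have h5 : k < 2 ^ k := Nat.lt_two_pow_self
      rw [nu_prime Big.sif_subset Nat.one_le_two_pow hp1 (by omega), rough_eq_one, mul_one]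
      intro r hr hle hd
      have := (Nat.prime_dvd_prime_iff_eq hr hp1).mp (Int.natCast_dvd_natCast.mp hd)
      omega)
  have a3 := rep_sum (k := k) (u := u) (by omega) (by omega) f' h0 hB
  have a4 : ∑ i ∈ Ico u (u ^ 2), ∑ m ∈ cof k u i, |dev k i m| ≤ cD * (2 ^ k / (k * u)) := by
    have h4 : ∀ i ∈ Ico u (u ^ 2), ∑ m ∈ cof k u i, |dev k i m| ≤ cD * (2 ^ k / (k * u ^ 3)) :=
      fun i hi => (sum_le_sum_of_subset_of_nonneg (filter_subset _ _)
        fun _ _ _ => abs_nonneg _).trans (h.sum_abs_dev (mem_Ico.mp hi).1 (mem_Ico.mp hi).2)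
    refine (sum_le_card_nsmul _ _ _ h4).trans ?_
    have h5 : (#(Ico u (u ^ 2)) : ℝ) ≤ u ^ 2 := by
      rw [Nat.card_Ico]; exact_mod_cast Nat.sub_le _ _
    rw [nsmul_eq_mul]
    calc _ ≤ (u : ℝ) ^ 2 * (cD * (2 ^ k / (k * u ^ 3))) := by gcongr
      _ = _ := by field_simp
  have a5 := sum_le_sum fun i (hi : i ∈ Ico u (u ^ 2)) => sum_le_sum fun m (hm : m ∈ cof k u i) =>
    h.main_term (mem_Ico.mp hi).1 (hj0 i (by have := (mem_Ico.mp hi).1; omega)) f' h0 hB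
      (m := m) (by have := (mem_Icc.mp (mem_filter.mp hm).1).1; omega)
  simp only [sum_add_distrib, ← mul_sum] at a5
  rw [← sum_filter_add_sum_filter_not (blk k) (fun p => ∀ q ∈ swp u, ¬ q ∣ p - 1)]
  calc _ ≤ B * ((120 * cM ^ 5 * exp 18 + 1) * 2 ^ k / (k * u)) + (B * (cD * (2 ^ k / (k * u))) +
        cT / k * (∑ n ∈ Icc 1 (2 ^ (k + 2)), gw n * f' n + 43008 * B * 2 ^ k / u)) := by
        refine add_le_add a1 (a2.trans (a5.trans ?_))
        gcongr
    _ = cT / k * ∑ n ∈ Icc 1 (2 ^ (k + 2)), gw n * f' n +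
        ((120 * cM ^ 5 * exp 18 + 1) + cD + 43008 * cT) * B * 2 ^ k / (k * u) := by
        field_simp; ring
    _ ≤ _ := by gcongr; linarith

end Pool.Agent.Lib.MP_b09490_nt.No
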