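import Pool.Agent.Lib.MP_b09490_nt.No.KBlock
import Pool.Agent.Lib.MP_b09490_nt.No.Transfer

/-!
The key lemma: small mass on the side blocks gives decay of the moments.
-/

open Finset Real Filter Topology

namespace Pool.Agent.Lib.MP_b09490_nt.No

theorem exists_root (k : ℕ) : ∃ u : ℕ, u ^ 10 ≤ k ∧ k < (u + 1) ^ 10 := by
  induction k with
  | zero => exact ⟨0, by simp⟩
  | succ k ih =>
    obtain ⟨u, h1, h2⟩ := ih
    rcases lt_or_ge (k + 1) ((u + 1) ^ 10) with h | h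
    · exact ⟨u, by omega, h⟩
    · have : (u + 1) ^ 10 < (u + 1 + 1) ^ 10 := Nat.pow_lt_pow_left (by omega) (by norm_num)
      exact ⟨u + 1, h, by omega⟩

theorem exists_base (κ : ℕ) (hκ : 1 ≤ κ) : ∃ s : ℝ, 1 < s ∧ s ≤ 3 / 2 ∧ s ^ (20 * κ) ≤ 2 := by
  have hk : (1 : ℝ) ≤ κ := by exact_mod_cast hκ
  have h0 : (0 : ℝ) < 1 / (40 * κ) := by positivity
  refine ⟨1 + 1 / (40 * κ), by linarith, ?_, ?_⟩
  · have : (1 : ℝ) / (40 * κ) ≤ 1 / 2 := one_div_le_one_div_of_le (by norm_num) (by linarith)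
    linarith
  · have h1 : (1 : ℝ) + 1 / (40 * κ) ≤ exp (1 / (40 * κ)) := by
      linarith [add_one_le_exp (1 / (40 * (κ : ℝ)))]
    refine (pow_le_pow_left₀ (by linarith) h1 _).trans ?_
    rw [← exp_nat_mul, show ((20 * κ : ℕ) : ℝ) * (1 / (40 * κ)) = 1 / 2 by
      push_cast; field_simp; norm_num]
    have h2 := Real.abs_exp_sub_one_le (x := 1 / 2) (by rw [abs_of_nonneg] <;> norm_num)
    rw [abs_of_nonneg (show (0 : ℝ) ≤ 1 / 2 by norm_num)] at h2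
    linarith [le_abs_self (exp (1 / 2) - 1)]

theorem mu_le_four {j : ℕ} {φ : ℕ → ℝ} (h : ∀ p ∈ blk j, φ p ≤ 1) : mu j φ ≤ 4 := by
  refine (mu_mono h).trans ?_
  unfold mu
  rw [sum_const, nsmul_eq_mul, mul_one, div_mul_eq_mul_div, div_le_iff₀ (by positivity)]
  exact mul_card_blk_le j

theorem moment_le {κ : ℕ} {h : ℕ → ℝ} (hh : Adm h) {V : ℝ} (hV : 0 < V) {j : ℕ}
    (ih : mu j (fun p => ff κ h j (p - 1)) ≤ 4 * V ^ κ) :
    ∑ q ∈ blk j, (h q / V) ^ κ / q ≤ 4 / j := by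
  refine (sum_div_blk_le (fun q => (h q / V) ^ κ) fun q hq =>
    pow_nonneg (div_nonneg (hh.nonneg q (mem_blk.1 hq).1) hV.le) _).trans ?_
  refine div_le_div_of_nonneg_right ?_ (by positivity)
  have h1 : mu j (fun q => h q ^ κ) ≤ 4 * V ^ κ :=
    (mu_mono fun p hp => hh.pow_le_ff κ hp).trans ih
  simp only [div_pow, ← sum_div]
  rw [← mul_div_assoc, div_le_iff₀ (by positivity)]
  exact h1

theorem swap_le {h : ℕ → ℝ} (hh : Adm h) (κ : ℕ) {k u i l l' m : ℕ} (hi : i < u ^ 2)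
    (hl : l ∈ blk i) (hl' : l' ∈ blk i) (hm : l * m + 1 ∈ blk k) :
    ff κ h k (l * m) ≤ min 1 ((HH h (l' * m) + (u ^ 2 + 1)) / k) ^ κ := by
  have hp := (mem_blk.1 hl).1
  have hp' := (mem_blk.1 hl').1
  have hm0 : m ≠ 0 := by
    rintro rfl
    exact Nat.not_prime_one (by simpa using (mem_blk.1 hm).1)
  have h0 := HH_nonneg hh.nonneg (l * m)
  refine pow_le_pow_left₀ (le_min zero_le_one (by positivity))
    (min_le_min_left 1 (div_le_div_of_nonneg_right ?_ (by positivity))) _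
  rw [HH_mul _ hp.ne_zero hm0, HH_mul _ hp'.ne_zero hm0, HH_prime _ hp]
  have h1 := HH_nonneg hh.nonneg l'
  have h2 : h l * lg l ≤ lg l := mul_le_of_le_one_left (lg_nonneg l) (hh.le_one l hp)
  have h3 := lg_le_blk hl
  have h4 : (i : ℝ) + 1 ≤ u ^ 2 := by exact_mod_cast hi
  linarith

theorem err_le {A κ C σ : ℝ} (hA : 1 ≤ A) (hκ : 0 ≤ κ) (hC : 0 ≤ C) (hσ : 0 < σ) {k u : ℕ}
    (h1 : u ^ 10 ≤ k) (h2 : k < (u + 1) ^ 10) (h3 : σ ^ 20 ≤ k)
    (hu : 2 * (A * (κ * (168 + C) + 1)) ^ 2 ≤ u) :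
    A * (κ / k * (84 * (u ^ 2 + 1) + C)) + A / u ≤ 1 / σ := by
  have hD : 1 ≤ A * (κ * (168 + C) + 1) :=
    one_le_mul_of_one_le_of_one_le hA (le_add_of_nonneg_left (by positivity))
  have hu1 : (1 : ℝ) ≤ u := by nlinarith
  have hk : (u : ℝ) ^ 3 ≤ k :=
    (pow_le_pow_right₀ hu1 (by norm_num)).trans (by exact_mod_cast h1 : (u : ℝ) ^ 10 ≤ k)
  have hu2 : (1 : ℝ) ≤ u ^ 2 := one_le_pow₀ hu1
  have hk0 : (0 : ℝ) < k := lt_of_lt_of_le (by positivity) hk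
  have a1 : (84 * ((u : ℝ) ^ 2 + 1) + C) / k ≤ (168 + C) / u := by
    rw [div_le_div_iff₀ hk0 (by positivity)]
    have b1 := mul_le_mul_of_nonneg_left hk (show 0 ≤ 168 + C by positivity)
    have b2 : 84 * ((u : ℝ) ^ 2 + 1) + C ≤ (168 + C) * u ^ 2 := by nlinarith
    have b3 := mul_le_mul_of_nonneg_right b2 (show (0 : ℝ) ≤ u by positivity)
    nlinarith
  have a2 : σ ^ 2 ≤ u + 1 := by
    refine le_of_lt (lt_of_pow_lt_pow_left₀ 10 (by positivity) ?_)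
    rw [← pow_mul]
    exact h3.trans_lt (by exact_mod_cast h2)
  have a3 : A * (κ * (168 + C) + 1) * σ ≤ u := by
    refine le_of_pow_le_pow_left₀ two_ne_zero (by positivity) ?_
    generalize A * (κ * (168 + C) + 1) = E at *
    have b1 := mul_le_mul_of_nonneg_left (show σ ^ 2 ≤ 2 * u by linarith) (sq_nonneg E)
    have b2 := mul_le_mul_of_nonneg_right hu (show (0 : ℝ) ≤ u by positivity)
    rw [mul_pow]
    nlinarith
  have a4 := mul_le_mul_of_nonneg_left a1 (show 0 ≤ A * κ by positivity)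
  have a5 : A * (κ * (168 + C) + 1) / u ≤ 1 / σ := by
    rw [div_le_div_iff₀ (by positivity) hσ]; linarith
  refine le_trans ?_ a5
  have a6 : A * (κ * (168 + C) + 1) / u = A * κ * ((168 + C) / u) + A / u := by ring
  have a7 : A * (κ / k * (84 * (u ^ 2 + 1) + C)) = A * κ * ((84 * ((u : ℝ) ^ 2 + 1) + C) / k) := by
    ring
  linarith

theorem kl_adm : ∃ (κ L0 r : ℕ) (θ s : ℝ), 1 ≤ κ ∧ 0 < θ ∧ 1 < s ∧
    ∀ (h : ℕ → ℝ) (L i : ℕ), Adm h → L0 ≤ L → (∀ m, L ≤ m → m ≤ i → Good h θ m 0) →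
      ∀ k : ℕ, k + 3 ≤ 2 ^ (i + 2) →
      mu k (fun p => ff κ h k (p - 1)) ≤ 4 * VV s (L + r) k ^ κ := by
  obtain ⟨A, hA, k0, htr⟩ := transfer
  obtain ⟨C, hC, hmean⟩ := kmean
  obtain ⟨K, hK⟩ := exists_nat_ge (10752 * A)
  have hK1 : 1 ≤ K := by exact_mod_cast (show (1 : ℝ) ≤ K by linarith)
  obtain ⟨s, hs, hs2, hs3⟩ := exists_base (K + 1) (by omega)
  obtain ⟨c, hc⟩ : ∃ c : ℝ, c = 2 ^ (2 * K + 5) := ⟨_, rfl⟩
  have hc1 : 1 ≤ c := hc ▸ one_le_pow₀ (by norm_num)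
  obtain ⟨ε, hε, hε2⟩ : ∃ ε : ℝ, 0 < ε ∧ 1680 * A * c * (1 + c * 16) * ε = 1 :=
    ⟨1 / (1680 * A * c * (1 + c * 16)), by positivity, by field_simp⟩
  have hε3 : c * (10 * ε) ≤ 1 := by
    have : 1 ≤ 168 * A * (1 + c * 16) := by nlinarith
    have := mul_le_mul_of_nonneg_right this (show 0 ≤ c * (10 * ε) by positivity)
    linarith
  have hε1 : ε ≤ 1 := by nlinarith
  obtain ⟨r, hr⟩ := pow_unbounded_of_one_lt (1 / ε) hs
  have hr' : 1 ≤ ε * s ^ r := by rw [div_lt_iff₀' hε] at hr; exact hr.le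
  obtain ⟨u0, hu0⟩ := exists_nat_ge (2 * (A * (((K : ℝ) + 1) * (168 + C) + 1)) ^ 2)
  refine ⟨K + 1, k0 + K + (u0 + 1) ^ 10, r, ε ^ (K + 2), s, by omega, by positivity, hs,
    fun h L i hh hL hg k => ?_⟩
  induction k using Nat.strong_induction_on with
  | _ k ih =>
  intro hki
  have hV := VV_pos hs.le (L + r) k
  rcases le_or_gt (Nat.log 2 k) (L + r) with hlow | hlow
  · have h1 : 1 ≤ VV s (L + r) k := by
      unfold VV
      rw [le_div_iff₀ (by positivity), one_mul]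
      exact pow_le_pow_right₀ hs.le hlow
    have h2 := one_le_pow₀ (n := K + 1) h1
    exact (mu_le_four fun p _ => ff_le_one _ hh.nonneg _ _).trans (by linarith)
  have hkL : L < k := lt_of_lt_of_le (by omega) (Nat.log_le_self 2 k)
  have hk1 : 1 ≤ k := by omega
  have hk0 : (0 : ℝ) < k := by exact_mod_cast hk1
  obtain ⟨u, hu1, hu2⟩ := exists_root k
  have huu : u0 ≤ u := by
    have : (u0 + 1) ^ 10 < (u + 1) ^ 10 := by omega
    have := lt_of_pow_lt_pow_left₀ 10 (Nat.zero_le _) this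
    omega
  have ih' : ∀ j ∈ Ico 1 k, ∑ q ∈ blk j, (h q / VV s (L + r) j) ^ (K + 1) / q ≤ 4 / j :=
    fun j hj => moment_le hh (VV_pos hs.le _ j)
      (ih j (mem_Ico.1 hj).2 (by have := (mem_Ico.1 hj).2; omega))
  have hs4 : s ^ (K + 1) ≤ 2 := (pow_le_pow_right₀ hs.le (by omega)).trans hs3
  have a1 := single_le hK1 hh hs.le hs4 (L + r) hk1 ih'
  have a2 := side_le hK1 hh hs.le hs2 hk1 hε hε1 hr' hg ih'
  have a3 := big_le hK1 hh hs.le hs2 (L + r) hk1 (2 ^ (i + 1)) ih'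
  rw [← hc] at a2 a3
  have hb : ∀ J, ∀ q ∈ UU J, 0 ≤ 4 * bb (K) (xx h k (VV s (L + r) k)) q / q := fun J q hq => by
    have := xx_nonneg hh k hV (mem_UU.1 hq).1
    unfold bb; positivity
  have a4 := prod_sub_one_le (hb _) a2 hε3
  have a5 := mul_le_mul a4 (add_le_add (le_refl (1 : ℝ)) a3)
    (add_nonneg zero_le_one (sum_nonneg (hb _))) (by positivity)
  have a6 := hmean hK1 hh hk1 (M := 2 ^ (i + 1)) (by rw [← pow_succ']; exact hki) hV
    (show (0 : ℝ) ≤ u ^ 2 + 1 by positivity)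
  have a7 := htr k u (by omega) hu1 hu2 1 (ff (K + 1) h k)
    (fun n => min 1 ((HH h n + (u ^ 2 + 1)) / k) ^ (K + 1)) (ff_le_one _ hh.nonneg _)
    (fun n => by
      have := HH_nonneg hh.nonneg n
      exact pow_nonneg (le_min zero_le_one (by positivity)) _)
    (fun n => by
      have := HH_nonneg hh.nonneg n
      exact pow_le_one₀ (le_min zero_le_one (by positivity)) (min_le_left _ _))
    fun i l l' m _ b c d e => swap_le hh _ b c d e
  have a8 := err_le (κ := K + 1) (σ := (s ^ Nat.log 2 k) ^ (K + 1)) hA (by positivity) hC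
    (by positivity) hu1 hu2 (by
      rw [← pow_mul, ← pow_mul, show Nat.log 2 k * ((K + 1) * 20) = 20 * (K + 1) * Nat.log 2 k by
        ring, pow_mul]
      refine (pow_le_pow_left₀ (by positivity) hs3 _).trans ?_
      exact_mod_cast Nat.pow_log_le_self 2 (show k ≠ 0 by omega))
    (hu0.trans (by exact_mod_cast huu))
  have a9 : 1 / (s ^ Nat.log 2 k) ^ (K + 1) ≤ VV s (L + r) k ^ (K + 1) := by
    unfold VV
    rw [div_pow]
    exact div_le_div_of_nonneg_right (one_le_pow₀ (one_le_pow₀ hs.le)) (by positivity)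
  have hKk : (K : ℝ) ≤ k := by exact_mod_cast (show K ≤ k by omega)
  have hK0 : (0 : ℝ) < K := by linarith
  have b1 : A * (336 * (32 * (1 / K + 1 / k))) ≤ 2 := by
    have e1 : (1 : ℝ) / k ≤ 1 / K := one_div_le_one_div_of_le hK0 hKk
    have e2 : 10752 * A * (1 / K) ≤ 1 := by
      rw [mul_one_div, div_le_one hK0]; exact hK
    have e3 := mul_le_mul_of_nonneg_left e1 (show 0 ≤ 10752 * A by positivity)
    linarith
  generalize (∑ q ∈ UU (Ico 1 k), xx h k (VV s (L + r) k) q ^ (K + 1) / q) = S1 at *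
  generalize ((∏ q ∈ UU (J1 k (2 ^ (i + 1))),
    (1 + 4 * bb K (xx h k (VV s (L + r) k)) q / q) - 1) *
      (1 + ∑ q ∈ UU (J2 k (2 ^ (i + 1))), 4 * bb K (xx h k (VV s (L + r) k)) q / q)) = S2 at *
  have hW : 0 ≤ VV s (L + r) k ^ (K + 1) := by positivity
  generalize VV s (L + r) k ^ (K + 1) = W at *
  have b2 : A * (336 * S1 + 84 * S2) ≤ 3 := by
    have e1 := mul_le_mul_of_nonneg_left a1 (show 0 ≤ A * 336 by positivity)
    have e2 := mul_le_mul_of_nonneg_left a5 (show 0 ≤ A * 84 by positivity)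
    linarith
  have b3 := mul_le_mul_of_nonneg_left b2 hW
  have b4 := mul_le_mul_of_nonneg_left (a7.trans (add_le_add
    (mul_le_mul_of_nonneg_left a6 (by positivity)) le_rfl))
    (show (0 : ℝ) ≤ k / 2 ^ k by positivity)
  refine b4.trans ?_
  have b5 : (k : ℝ) / 2 ^ k * (A / k * (2 ^ k * (W * (336 * S1 + 84 * S2) +
      (K + 1) / k * (84 * (u ^ 2 + 1) + C))) + A * 1 * 2 ^ k / (k * u)) =
      W * (A * (336 * S1 + 84 * S2)) + (A * ((K + 1) / k * (84 * (u ^ 2 + 1) + C)) + A / u) := by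
    field_simp
    ring
  rw [b5]
  linarith

theorem kl : ∃ (κ L0 : ℕ) (θ s C : ℝ), 1 ≤ κ ∧ 0 < θ ∧ 1 < s ∧ 1 ≤ C ∧
    ∀ (G : ℕ → ℝ) (a : ℝ) (L i : ℕ), Adm G → 0 ≤ a → L0 ≤ L →
      (∀ m, L ≤ m → m ≤ i → Good G θ m a) → ∀ j : ℕ, j + 3 ≤ 2 ^ (i + 2) →
      mu j (fun p => ff κ (cut G a) j (p - 1)) ≤ C * (s ^ L / s ^ Nat.log 2 j) ^ κ := by
  obtain ⟨κ, L0, r, θ, s, h1, h2, h3, h⟩ := kl_adm
  have h4 : 1 ≤ (s ^ r) ^ κ := one_le_pow₀ (one_le_pow₀ h3.le)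
  refine ⟨κ, L0, θ, s, 4 * (s ^ r) ^ κ, h1, h2, h3, by linarith,
    fun G a L i hG ha hL hg j hj => ?_⟩
  refine (h (cut G a) L i (hG.cut ha) hL (fun m b c => good_cut.2 (hg m b c)) j hj).trans
    (le_of_eq ?_)
  unfold VV
  rw [mul_assoc, ← mul_pow, pow_add]
  congr 2
  ring

end Pool.Agent.Lib.MP_b09490_nt.No
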