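import Pool.Agent.Lib.MP_b09490_nt.No.QFin
import Pool.Agent.Lib.MP_b09490_nt.No.KL
import Pool.Agent.Lib.MP_b09490_nt.No.Exc

/-! Concentration of `D q / lg q` on the primes. -/

open Finset Real Filter Topology

namespace Pool.Agent.Lib.MP_b09490_nt.No

theorem exc_ev : ∃ Cx : ℝ, ∀ ε : ℝ, 0 < ε → ∀ᶠ k : ℕ in atTop, ∀ Bs : Finset ℕ,
    (∀ q ∈ Bs, q.Prime ∧ q ≤ 2 ^ (k / 40)) →
    (k : ℝ) / 2 ^ k * #((blk k).filter fun p => ∀ q ∈ Bs, ¬ q ∣ p - 1)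
      ≤ Cx / (1 + ∑ q ∈ Bs, (1 : ℝ) / q) + ε := by
  obtain ⟨C, -, H⟩ := exc
  refine ⟨C, fun ε hε => ?_⟩
  have t := tendsto_pow_const_div_const_pow_of_one_lt 2 (show (1 : ℝ) < 2 by norm_num)
  obtain ⟨h0, hh⟩ := eventually_atTop.1 (t.eventually (ge_mem_nhds hε))
  filter_upwards [eventually_ge_atTop 40, eventually_ge_atTop (2 * h0)] with k h1 h2 Bs hB
  refine (H k h1 Bs hB).trans (add_le_add le_rfl (le_trans ?_ (hh (k / 2) (by omega))))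
  have h3 : k ≤ (k / 2) ^ 2 := by
    have : 20 ≤ k / 2 := by omega
    have : k ≤ 3 * (k / 2) := by omega
    nlinarith
  have h4 : (k : ℝ) ≤ ((k / 2 : ℕ) : ℝ) ^ 2 := by exact_mod_cast h3
  have h5 : (2 : ℝ) ^ (k / 5) * 2 ^ (k / 2) ≤ 2 ^ k := by
    rw [← pow_add]; exact pow_le_pow_right₀ (by norm_num) (by omega)
  rw [div_le_div_iff₀ (by positivity) (by positivity), mul_assoc]
  exact mul_le_mul h4 h5 (by positivity) (by positivity)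

theorem conc : ∃ t : ℝ, 0 ≤ t ∧ t ≤ 1 ∧ (∀ y, 0 < y → Tendsto (shU (t + y)) atTop (𝓝 0)) ∧
    ∀ y, 0 < y → Tendsto (shL (t - y)) atTop (𝓝 0) := by
  obtain ⟨ka, L0, th, s, C, h1, h2, h3, h4, H⟩ := kl
  obtain ⟨Cx, hx⟩ := exc_ev
  exact conc_of h1 h2 h3 h4 (fun G hG a L i ha hL hg j hj => H G a L i hG ha hL hg j hj) hx

end Pool.Agent.Lib.MP_b09490_nt.No
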