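import Pool.Agent.Lib.MP_b09490_nt.Add
import Pool.Agent.Lib.MP_778b46_nt.Sieve

/-!
Normal order of the class: definitions and basic facts.
-/

open Finset Real Filter Topology

namespace Pool.Agent.Lib.MP_b09490_nt.No

open Pool.Agent.Lib.MP_778b46_nt

/-- The primes in `[2 ^ j, 2 ^ (j + 1))`. -/
def blk (j : ℕ) : Finset ℕ := (Ico (2 ^ j) (2 ^ (j + 1))).filter Nat.Prime

/-- The sieve weight: product of `1 + 3 / (l - 1)` over the primes `l` dividing `n`. -/
noncomputable def gw (n : ℕ) : ℝ := ∏ l ∈ n.primeFactors, (1 + 3 * uu l)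

/-- Binary logarithm. -/
noncomputable def lg (n : ℕ) : ℝ := Real.logb 2 n

/-- Indicator that no prime up to `w` divides `n`. -/
noncomputable def rough (w : ℕ) (n : ℤ) : ℝ :=
  ∏ r ∈ Nat.primesLE w, if (r : ℤ) ∣ n then (0 : ℝ) else 1

/-- Normalised number of primes of block `j` above level `t`. -/
noncomputable def shU (t : ℝ) (j : ℕ) : ℝ :=
  (j : ℝ) / 2 ^ j * #((blk j).filter fun q => t * lg q < D q)

/-- Normalised number of primes of block `j` below level `t`. -/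
noncomputable def shL (t : ℝ) (j : ℕ) : ℝ :=
  (j : ℝ) / 2 ^ j * #((blk j).filter fun q => (D q : ℝ) < t * lg q)

/-- The levels above which the share of primes tends to zero. -/
def TT : Set ℝ := {t | 0 ≤ t ∧ Tendsto (shU t) atTop (𝓝 0)}

/-- The threshold. -/
noncomputable def ts : ℝ := sInf TT

/-- Reciprocal mass of the primes of the blocks `J ≤ j < K` below level `t`. -/
noncomputable def bad (t : ℝ) (J K : ℕ) : ℝ :=
  ∑ j ∈ Ico J K, ∑ q ∈ (blk j).filter fun q => (D q : ℝ) < t * lg q, (1 : ℝ) / q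

theorem mem_blk {j q : ℕ} : q ∈ blk j ↔ q.Prime ∧ 2 ^ j ≤ q ∧ q < 2 ^ (j + 1) := by
  simp only [blk, mem_filter, mem_Ico]; tauto

theorem mem_blk_iff_log {j q : ℕ} : q ∈ blk j ↔ q.Prime ∧ Nat.log 2 q = j := by
  rw [mem_blk]
  refine and_congr_right fun hq => ?_
  rw [Nat.log_eq_iff (Or.inr ⟨by norm_num, hq.ne_zero⟩)]

theorem mem_blk_log {q : ℕ} (hq : q.Prime) : q ∈ blk (Nat.log 2 q) :=
  mem_blk_iff_log.2 ⟨hq, rfl⟩

theorem blk_unique {i j q : ℕ} (hi : q ∈ blk i) (hj : q ∈ blk j) : i = j :=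
  (mem_blk_iff_log.1 hi).2.symm.trans (mem_blk_iff_log.1 hj).2

theorem blk_zero : blk 0 = ∅ := by decide

theorem one_le_of_mem_blk {j q : ℕ} (h : q ∈ blk j) : 1 ≤ j := by
  rcases j with _ | j
  · simp [blk_zero] at h
  · omega

theorem lg_nonneg (n : ℕ) : 0 ≤ lg n := by
  rcases Nat.eq_zero_or_pos n with rfl | hn
  · simp [lg]
  · exact Real.logb_nonneg (by norm_num) (by exact_mod_cast hn)

theorem lg_one : lg 1 = 0 := by simp [lg]

theorem lg_mul {a b : ℕ} (ha : a ≠ 0) (hb : b ≠ 0) : lg (a * b) = lg a + lg b := by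
  unfold lg
  rw [Nat.cast_mul, Real.logb_mul (by exact_mod_cast ha) (by exact_mod_cast hb)]

theorem lg_two_pow (k : ℕ) : lg (2 ^ k) = k := by
  unfold lg
  rw [Nat.cast_pow, Real.logb_pow]; simp

theorem lg_mono {a b : ℕ} (ha : a ≠ 0) (h : a ≤ b) : lg a ≤ lg b :=
  Real.logb_le_logb_of_le (by norm_num) (by exact_mod_cast Nat.pos_of_ne_zero ha)
    (by exact_mod_cast h)

theorem le_lg {k n : ℕ} (h : 2 ^ k ≤ n) : (k : ℝ) ≤ lg n := by
  rw [← lg_two_pow]; exact lg_mono (by positivity) h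

theorem lg_le {k n : ℕ} (h : n ≤ 2 ^ k) : lg n ≤ k := by
  rcases Nat.eq_zero_or_pos n with rfl | hn
  · simp [lg]
  · rw [← lg_two_pow]; exact lg_mono hn.ne' h

theorem lg_eq (n : ℕ) : lg n = log n / log 2 := rfl

theorem D_le_lg (n : ℕ) : (D n : ℝ) ≤ lg n := by
  rcases Nat.eq_zero_or_pos n with rfl | hn
  · simp [lg, D]
  · exact le_lg (two_pow_D_le n hn.ne')

theorem le_lg_blk {j q : ℕ} (h : q ∈ blk j) : (j : ℝ) ≤ lg q := le_lg (mem_blk.1 h).2.1

theorem lg_le_blk {j q : ℕ} (h : q ∈ blk j) : lg q ≤ j + 1 := by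
  have := lg_le (mem_blk.1 h).2.2.le
  push_cast at this; exact this

theorem lg_le_two_mul_blk {j q : ℕ} (h : q ∈ blk j) : lg q ≤ 2 * j := by
  have h1 : (1 : ℝ) ≤ j := by exact_mod_cast one_le_of_mem_blk h
  have := lg_le_blk h
  linarith

theorem shU_nonneg (t : ℝ) (j : ℕ) : 0 ≤ shU t j := by unfold shU; positivity

theorem shL_nonneg (t : ℝ) (j : ℕ) : 0 ≤ shL t j := by unfold shL; positivity

theorem shU_anti {t t' : ℝ} (h : t ≤ t') (j : ℕ) : shU t' j ≤ shU t j := by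
  unfold shU
  refine mul_le_mul_of_nonneg_left ?_ (by positivity)
  refine Nat.cast_le.2 (card_le_card fun q hq => ?_)
  rw [mem_filter] at hq ⊢
  exact ⟨hq.1, (mul_le_mul_of_nonneg_right h (lg_nonneg q)).trans_lt hq.2⟩

theorem one_mem_TT : (1 : ℝ) ∈ TT := by
  refine ⟨zero_le_one, ?_⟩
  have : shU 1 = fun _ => 0 := by
    funext j
    unfold shU
    rw [filter_false_of_mem fun q _ => by rw [one_mul]; exact not_lt.2 (D_le_lg q)]
    simp
  rw [this]; exact tendsto_const_nhds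

theorem TT_bdd : BddBelow TT := ⟨0, fun _ h => h.1⟩

theorem ts_le {t : ℝ} (h : t ∈ TT) : ts ≤ t := csInf_le TT_bdd h

theorem ts_nonneg : 0 ≤ ts := le_csInf ⟨1, one_mem_TT⟩ fun _ h => h.1

theorem ts_le_one : ts ≤ 1 := ts_le one_mem_TT

/-- Above the threshold the share of primes tends to zero. -/
theorem upper {δ : ℝ} (hδ : 0 < δ) : Tendsto (shU (ts + δ)) atTop (𝓝 0) := by
  obtain ⟨t, ht, h⟩ := exists_lt_of_csInf_lt ⟨1, one_mem_TT⟩ (show sInf TT < ts + δ by
    unfold ts; linarith)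
  exact squeeze_zero (shU_nonneg _) (shU_anti h.le) ht.2

end Pool.Agent.Lib.MP_b09490_nt.No
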