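import Pool.Agent.Lib.MP_b09490_nt.No.Defs

/-!
The weight gw.
-/

open Finset Real Filter Topology

namespace Pool.Agent.Lib.MP_b09490_nt.No

open Pool.Agent.Lib.MP_778b46_nt

theorem gw1_ge {l : ℕ} (hl : l.Prime) : 1 ≤ 1 + 3 * uu l := by
  have := uu_pos hl
  linarith

theorem gw1_mono {S T : Finset ℕ} (h : S ⊆ T) (hT : ∀ l ∈ T, l.Prime) :
    ∏ l ∈ S, (1 + 3 * uu l) ≤ ∏ l ∈ T, (1 + 3 * uu l) :=
  prod_le_prod_of_subset_of_one_le h (fun l hl => zero_le_one.trans (gw1_ge (hT l (h hl))))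
    fun l hl _ => gw1_ge (hT l hl)

theorem one_le_gw (n : ℕ) : 1 ≤ gw n :=
  (prod_empty (f := fun l => 1 + 3 * uu l)).ge.trans
    (gw1_mono (empty_subset _) fun _ hl => Nat.prime_of_mem_primeFactors hl)

theorem gw_mul_le (a b : ℕ) : gw (a * b) ≤ gw a * gw b := by
  by_cases h : a * b = 0
  · rw [h, gw, Nat.primeFactors_zero, prod_empty]
    exact one_le_mul_of_one_le_of_one_le (one_le_gw a) (one_le_gw b)
  unfold gw
  rw [Nat.primeFactors_mul (left_ne_zero_of_mul h) (right_ne_zero_of_mul h), ← prod_union_inter]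
  refine le_mul_of_one_le_right (prod_nonneg fun l hl => zero_le_one.trans (gw1_ge ?_)) ?_
  · exact (mem_union.1 hl).elim Nat.prime_of_mem_primeFactors Nat.prime_of_mem_primeFactors
  · exact (prod_empty (f := fun l => 1 + 3 * uu l)).ge.trans
      (gw1_mono (empty_subset _) fun _ hl => Nat.prime_of_mem_primeFactors (mem_inter.1 hl).1)

theorem gw_le_mul {a b : ℕ} (ha : a ≠ 0) (hb : b ≠ 0) : gw a ≤ gw (a * b) :=
  gw1_mono (Nat.primeFactors_mono (dvd_mul_right a b) (mul_ne_zero ha hb))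
    fun _ hl => Nat.prime_of_mem_primeFactors hl

theorem gw_prime_pow_le {q : ℕ} (hq : q.Prime) (e : ℕ) : gw (q ^ e) ≤ 4 := by
  rcases eq_or_ne e 0 with rfl | he
  · simp [gw]
  · have := uu_le_one hq
    rw [gw, Nat.primeFactors_prime_pow he hq, prod_singleton]
    linarith

theorem gw_prime_le {q : ℕ} (hq : q.Prime) : gw q ≤ 4 := by
  simpa only [pow_one] using gw_prime_pow_le hq 1

theorem gw1_tel (n : ℕ) : ∑ l ∈ Icc 2 (n + 1), uu l / l ≤ 1 - 1 / ((n : ℝ) + 1) := by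
  induction n with
  | zero => simp
  | succ n ih =>
    rw [sum_Icc_succ_top (by omega)]
    have : uu (n + 1 + 1) / (n + 1 + 1 : ℕ) = 1 / ((n : ℝ) + 1) - 1 / ((n + 1 : ℕ) + 1) := by
      unfold uu
      push_cast
      rw [add_sub_cancel_right]
      field_simp
      ring
    linarith

theorem gw1_prod (Y : ℕ) : ∏ l ∈ (Icc 1 Y).filter Nat.Prime, (1 + 3 * uu l / l) ≤ 21 := by
  have h0 : ∀ l : ℕ, l.Prime → 0 ≤ 3 * uu l / l := fun l hl => by
    have := uu_pos hl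
    positivity
  have h1 : ∑ l ∈ (Icc 1 Y).filter Nat.Prime, uu l / l ≤ 1 := by
    refine (sum_le_sum_of_subset_of_nonneg (t := Icc 2 (Y + 1)) (fun l hl => ?_)
      fun l hl _ => ?_).trans ((gw1_tel Y).trans (sub_le_self _ (by positivity)))
    · have := (mem_filter.1 hl).2.two_le
      have := (mem_Icc.1 (mem_filter.1 hl).1).2
      exact mem_Icc.2 ⟨by omega, by omega⟩
    · have : (2 : ℝ) ≤ l := by exact_mod_cast (mem_Icc.1 hl).1
      exact div_nonneg (div_nonneg zero_le_one (by linarith)) (by linarith)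
  calc _ ≤ ∏ l ∈ (Icc 1 Y).filter Nat.Prime, exp (3 * uu l / l) :=
        prod_le_prod (fun l hl => add_nonneg zero_le_one (h0 l (mem_filter.1 hl).2))
          fun l _ => by rw [add_comm]; exact add_one_le_exp _
    _ = exp (3 * ∑ l ∈ (Icc 1 Y).filter Nat.Prime, uu l / l) := by
        rw [mul_sum, exp_sum]
        simp only [mul_div_assoc]
    _ ≤ exp 1 ^ 3 := by
        rw [← exp_nat_mul]
        exact exp_le_exp.2 (by push_cast; linarith)
    _ ≤ 2.7182818286 ^ 3 := pow_le_pow_left₀ (exp_pos 1).le exp_one_lt_d9.le 3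
    _ ≤ 21 := by norm_num

/-- Sketch: `gw m = ∑ U ⊆ primeFactors m, ∏ l ∈ U, 3 uu l` (`prod_one_add`); swap; the number of
`m ≤ Y` divisible by `∏ U` is at most `Y / ∏ U`; so the sum is at most
`Y ∏ l ≤ Y prime, (1 + 3 uu l / l) ≤ Y exp (3 ∑ 1 / (l (l-1))) ≤ Y exp 3`. -/
theorem sum_gw_le (Y : ℕ) : ∑ m ∈ Icc 1 Y, gw m ≤ 21 * Y := by
  set P := (Icc 1 Y).filter Nat.Prime
  have hP : ∀ U ∈ P.powerset, ∀ l ∈ U, l.Prime := fun U hU l hl =>
    (mem_filter.1 (mem_powerset.1 hU hl)).2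
  have h0 : ∀ U ∈ P.powerset, 0 ≤ ∏ l ∈ U, 3 * uu l := fun U hU =>
    prod_nonneg fun l hl => mul_nonneg zero_le_three (uu_pos (hP U hU l hl)).le
  calc _ ≤ ∑ m ∈ Icc 1 Y, ∑ U ∈ P.powerset with ∏ l ∈ U, l ∣ m, ∏ l ∈ U, 3 * uu l := by
        refine sum_le_sum fun m hm => ?_
        rw [gw, prod_one_add]
        refine sum_le_sum_of_subset_of_nonneg (fun U hU => ?_)
          fun U hU _ => h0 U (mem_filter.1 hU).1
        rw [mem_powerset] at hU
        refine mem_filter.2 ⟨mem_powerset.2 fun l hl => ?_,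
          (prod_dvd_prod_of_subset _ _ _ hU).trans (Nat.prod_primeFactors_dvd m)⟩
        have h1 := Nat.prime_of_mem_primeFactors (hU hl)
        exact mem_filter.2 ⟨mem_Icc.2 ⟨h1.pos,
          (Nat.le_of_mem_primeFactors (hU hl)).trans (mem_Icc.1 hm).2⟩, h1⟩
    _ = ∑ U ∈ P.powerset, (#{m ∈ Icc 1 Y | ∏ l ∈ U, l ∣ m} : ℝ) * ∏ l ∈ U, 3 * uu l := by
        simp only [sum_filter]
        rw [sum_comm]
        exact sum_congr rfl fun U _ => by rw [← sum_filter, sum_const, nsmul_eq_mul]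
    _ ≤ ∑ U ∈ P.powerset, (Y : ℝ) * ∏ l ∈ U, 3 * uu l / l := by
        refine sum_le_sum fun U hU => ?_
        rw [show Icc 1 Y = Ioc 0 Y from rfl, Nat.Ioc_filter_dvd_card_eq_div, prod_div_distrib,
          ← mul_div_assoc, ← div_mul_eq_mul_div, ← Nat.cast_prod]
        exact mul_le_mul_of_nonneg_right Nat.cast_div_le (h0 U hU)
    _ ≤ 21 * Y := by
        rw [← mul_sum, ← prod_one_add, mul_comm]
        exact mul_le_mul_of_nonneg_right (gw1_prod Y) (Nat.cast_nonneg Y)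

theorem sum_gw_dvd_le (X : ℕ) {e : ℕ} (he : e ≠ 0) :
    ∑ n ∈ (Icc 1 X).filter (fun n => e ∣ n), gw n ≤ 21 * gw e * X / e := by
  have he' : (0 : ℝ) < e := by exact_mod_cast Nat.pos_of_ne_zero he
  have g0 : 0 ≤ gw e := le_trans zero_le_one (one_le_gw e)
  have h1 : (Icc 1 X).filter (fun n => e ∣ n) ⊆ (Icc 1 (X / e)).image (fun m => e * m) := by
    intro n hn
    obtain ⟨h2, m, rfl⟩ := mem_filter.1 hn
    obtain ⟨h3, h4⟩ := mem_Icc.1 h2
    refine mem_image.2 ⟨m, mem_Icc.2 ⟨Nat.pos_of_ne_zero (by rintro rfl; simp at h3), ?_⟩, rfl⟩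
    rw [Nat.le_div_iff_mul_le (Nat.pos_of_ne_zero he), mul_comm]
    exact h4
  have h2 := sum_le_sum_of_subset_of_nonneg (f := gw) h1
    fun n _ _ => le_trans zero_le_one (one_le_gw n)
  rw [sum_image fun a _ b _ h => Nat.eq_of_mul_eq_mul_left (Nat.pos_of_ne_zero he) h] at h2
  have h3 : ∑ m ∈ Icc 1 (X / e), gw (e * m) ≤ gw e * ∑ m ∈ Icc 1 (X / e), gw m := by
    rw [mul_sum]
    exact sum_le_sum fun m _ => gw_mul_le e m
  have h4 := mul_le_mul_of_nonneg_left (sum_gw_le (X / e)) g0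
  have h5 : ((X / e : ℕ) : ℝ) ≤ X / e := Nat.cast_div_le
  have h6 := mul_le_mul_of_nonneg_left h5 g0
  have h7 : 21 * gw e * X / e = 21 * (gw e * (X / e)) := by ring
  linarith

/-- Mean of an additive sum over prime divisors taken from a set `S` of primes. -/
theorem sum_gw_single (X : ℕ) (S : Finset ℕ) (hS : ∀ q ∈ S, q.Prime) (φ : ℕ → ℝ)
    (hφ : ∀ q ∈ S, 0 ≤ φ q) :
    ∑ n ∈ Icc 1 X, gw n * ∑ q ∈ S.filter (fun q => q ∣ n), φ q
      ≤ 84 * X * ∑ q ∈ S, φ q / q := by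
  have e1 : ∑ n ∈ Icc 1 X, gw n * ∑ q ∈ S.filter (fun q => q ∣ n), φ q =
      ∑ q ∈ S, φ q * ∑ n ∈ (Icc 1 X).filter (fun n => q ∣ n), gw n := by
    simp only [sum_filter, mul_sum]
    rw [sum_comm]
    refine sum_congr rfl fun q _ => sum_congr rfl fun n _ => ?_
    split_ifs <;> ring
  rw [e1, mul_sum]
  refine sum_le_sum fun q hq => ?_
  have hq' : (0 : ℝ) < q := by exact_mod_cast (hS q hq).pos
  have h1 := sum_gw_dvd_le X (hS q hq).ne_zero
  have h2 : 21 * gw q * X / q ≤ 21 * 4 * X / q := by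
    have := gw_prime_le (hS q hq)
    gcongr
  have h3 := mul_le_mul_of_nonneg_left (h1.trans h2) (hφ q hq)
  have h4 : φ q * (21 * 4 * X / q) = 84 * X * (φ q / q) := by ring
  linarith

/-- Mean of a sum over pairs of distinct prime divisors. -/
theorem sum_gw_pair (X : ℕ) (S T : Finset ℕ) (hS : ∀ q ∈ S, q.Prime) (hT : ∀ q ∈ T, q.Prime)
    (φ ψ : ℕ → ℝ) (hφ : ∀ q ∈ S, 0 ≤ φ q) (hψ : ∀ q ∈ T, 0 ≤ ψ q) :
    ∑ n ∈ Icc 1 X, gw n * ∑ q ∈ S.filter (fun q => q ∣ n),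
        ∑ q' ∈ T.filter (fun q' => q' ∣ n ∧ q' ≠ q), φ q * ψ q'
      ≤ 336 * X * ((∑ q ∈ S, φ q / q) * ∑ q ∈ T, ψ q / q) := by
  have e1 : ∑ n ∈ Icc 1 X, gw n * ∑ q ∈ S.filter (fun q => q ∣ n),
        ∑ q' ∈ T.filter (fun q' => q' ∣ n ∧ q' ≠ q), φ q * ψ q' =
      ∑ q ∈ S, ∑ q' ∈ T, φ q * ψ q' *
        ∑ n ∈ (Icc 1 X).filter (fun n => q ∣ n ∧ q' ∣ n ∧ q' ≠ q), gw n := by
    simp only [sum_filter, mul_sum]
    rw [sum_comm]
    refine sum_congr rfl fun q _ => ?_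
    rw [sum_comm]
    refine sum_congr rfl fun n _ => ?_
    by_cases h : q ∣ n
    · simp only [h, if_true, true_and, mul_sum]
      refine sum_congr rfl fun q' _ => ?_
      split_ifs <;> ring
    · simp [h]
  rw [e1, sum_mul_sum, mul_sum]
  refine sum_le_sum fun q hq => ?_
  rw [mul_sum]
  refine sum_le_sum fun q' hq' => ?_
  have p1 : (0 : ℝ) < q := by exact_mod_cast (hS q hq).pos
  have p2 : (0 : ℝ) < q' := by exact_mod_cast (hT q' hq').pos
  have p3 := mul_nonneg (hφ q hq) (hψ q' hq')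
  have h0 : ∑ n ∈ (Icc 1 X).filter (fun n => q ∣ n ∧ q' ∣ n ∧ q' ≠ q), gw n ≤
      336 * X / (q * q') := by
    by_cases e : q' = q
    · simp only [e, ne_eq, not_true_eq_false, and_false, filter_false, sum_empty]
      positivity
    · have h1 := sum_gw_dvd_le X (mul_ne_zero (hS q hq).ne_zero (hT q' hq').ne_zero)
      have h2 : (Icc 1 X).filter (fun n => q ∣ n ∧ q' ∣ n ∧ q' ≠ q) ⊆
          (Icc 1 X).filter (fun n => q * q' ∣ n) := by
        intro n hn
        obtain ⟨a1, a2, a3, -⟩ := mem_filter.1 hn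
        exact mem_filter.2 ⟨a1, Nat.Coprime.mul_dvd_of_dvd_of_dvd
          ((Nat.coprime_primes (hS q hq) (hT q' hq')).2 (Ne.symm e)) a2 a3⟩
      have h3 := sum_le_sum_of_subset_of_nonneg (f := gw) h2
        fun n _ _ => le_trans zero_le_one (one_le_gw n)
      have h4 : gw (q * q') ≤ 16 := by
        have a1 := gw_prime_le (hS q hq)
        have a2 := gw_prime_le (hT q' hq')
        have a3 := one_le_gw q
        have a4 := one_le_gw q'
        have a5 := gw_mul_le q q'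
        nlinarith
      have h5 : 21 * gw (q * q') * X / ((q * q' : ℕ) : ℝ) ≤ 21 * 16 * X / ((q * q' : ℕ) : ℝ) := by
        gcongr
      push_cast at h1 h5
      have h6 : (21 * 16 * X : ℝ) / (q * q') = 336 * X / (q * q') := by ring
      linarith
  have h7 := mul_le_mul_of_nonneg_left h0 p3
  have h8 : φ q * ψ q' * (336 * X / (q * q')) = 336 * X * (φ q / q * (ψ q' / q')) := by
    field_simp
  linarith

end Pool.Agent.Lib.MP_b09490_nt.No
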