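import Pool.Agent.Lib.MP_b09490_nt.No.Gw
import Pool.Agent.Lib.MP_b09490_nt.No.Cheb

/-!
Means of the small terms: higher prime powers and very large primes.
-/

open Finset Real Filter Topology

namespace Pool.Agent.Lib.MP_b09490_nt.No

open Pool.Agent.Lib.MP_778b46_nt

theorem gw_prod_le (E : Finset ℕ) (hE : ∀ q ∈ E, q.Prime) : gw (∏ q ∈ E, q) ≤ 4 ^ #E := by
  induction E using Finset.induction_on with
  | empty => simp [gw]
  | insert a E ha ih =>
    rw [prod_insert ha, card_insert_of_notMem ha, pow_succ']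
    exact (gw_mul_le _ _).trans (mul_le_mul (gw_prime_le (hE a (mem_insert_self _ _)))
      (ih fun q hq => hE q (mem_insert_of_mem hq)) (zero_le_one.trans (one_le_gw _)) (by norm_num))

/-- All primes of `E` divide `n` iff their product does; `sum_gw_dvd_le`, `gw_prod_le`. -/
theorem sum_gw_subset (X : ℕ) (E : Finset ℕ) (hE : ∀ q ∈ E, q.Prime) :
    ∑ n ∈ (Icc 1 X).filter (fun n => ∀ q ∈ E, q ∣ n), gw n
      ≤ 21 * X * ∏ q ∈ E, (4 / (q : ℝ)) := by
  have h0 : ∏ q ∈ E, q ≠ 0 := prod_ne_zero_iff.2 fun q hq => (hE q hq).ne_zero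
  rw [filter_congr (q := fun n => ∏ q ∈ E, q ∣ n) fun n _ =>
    ⟨fun h => Finset.prod_primes_dvd n (fun q hq => (hE q hq).prime) h,
      fun h q hq => (dvd_prod_of_mem _ hq).trans h⟩]
  refine (sum_gw_dvd_le X h0).trans ?_
  rw [prod_div_distrib, prod_const, Nat.cast_prod, mul_right_comm, mul_div_assoc]
  gcongr
  exact gw_prod_le E hE

/-- `∑ over primes q of log q / (q (q - 1))` converges: `log q ≤ 2 sqrt q`-type bound and
`summable` of `n ^ (-3/2)`; any constant will do. -/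
theorem sum_lg_div_le : ∃ C : ℝ, 0 ≤ C ∧ ∀ S : Finset ℕ, (∀ q ∈ S, q.Prime) →
    ∑ q ∈ S, lg q / ((q : ℝ) * (q - 1)) ≤ C := by
  have hs : Summable fun n : ℕ => 8 * (n : ℝ) ^ (-3 / 2 : ℝ) :=
    (Real.summable_nat_rpow.2 (by norm_num)).mul_left 8
  refine ⟨_, tsum_nonneg fun n => by positivity, fun S hS =>
    (sum_le_sum fun q hq => ?_).trans (hs.sum_le_tsum S fun n _ => by positivity)⟩
  have h2 : (2 : ℝ) ≤ q := by exact_mod_cast (hS q hq).two_le
  have h3 := Real.log_le_rpow_div (by positivity : (0 : ℝ) ≤ q) (by norm_num : (0 : ℝ) < 1 / 2)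
  have h4 : (q : ℝ) ^ (1 / 2 : ℝ) = q ^ (-3 / 2 : ℝ) * q ^ 2 := by
    rw [← Real.rpow_natCast, ← Real.rpow_add (by positivity)]
    norm_num
  have h5 : 0 ≤ (q : ℝ) ^ (-3 / 2 : ℝ) := by positivity
  have h6 : lg q ≤ 2 * log q := by
    rw [lg_eq, div_le_iff₀ (Real.log_pos one_lt_two)]
    nlinarith [Real.log_two_gt_d9, Real.log_nonneg (by linarith : (1 : ℝ) ≤ q)]
  rw [div_le_iff₀ (by nlinarith)]
  rw [h4] at h3
  nlinarith [mul_le_mul_of_nonneg_left (by nlinarith : (q : ℝ) ^ 2 ≤ 2 * (q * (q - 1))) h5]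

theorem gwp2_cnt {n X q : ℕ} {a b : ℝ} (hn : n ≤ X) (hq : q ∈ n.primeFactors) (hb : 0 ≤ b)
    (h : a = ((n.factorization q : ℝ) - 1) * b) :
    a ≤ ∑ e ∈ Ico 2 (X + 1), if q ^ e ∣ n then b else 0 := by
  obtain ⟨h1, h2, h3⟩ := Nat.mem_primeFactors.1 hq
  have h4 := h1.factorization_pos_of_dvd h3 h2
  have h5 := Nat.factorization_lt q h3
  rw [← sum_filter, sum_const, nsmul_eq_mul, h, ← Nat.cast_pred h4]
  refine mul_le_mul_of_nonneg_right (Nat.cast_le.2 (le_trans (by simp) (card_le_card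
    (s := Ico 2 (n.factorization q + 1)) fun e he => ?_))) hb
  obtain ⟨e1, e2⟩ := mem_Ico.1 he
  exact mem_filter.2 ⟨mem_Ico.2 ⟨e1, by omega⟩, (h1.pow_dvd_iff_le_factorization h3).2 (by omega)⟩

/-- `factorization n q - 1` counts the `e ≥ 2` with `q ^ e ∣ n`; `sum_gw_dvd_le` with
`gw (q ^ e) ≤ 4`, geometric series `∑ e ≥ 2, q ^ (-e) ≤ 1 / (q (q - 1))`. -/
theorem sum_gw_pp : ∃ C : ℝ, 0 ≤ C ∧ ∀ X : ℕ,
    ∑ n ∈ Icc 1 X, gw n * ∑ q ∈ n.primeFactors, ((n.factorization q : ℝ) - 1) * lg q ≤ C * X := by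
  obtain ⟨C, h0, hC⟩ := sum_lg_div_le
  refine ⟨84 * C, by positivity, fun X => ?_⟩
  have hP : ∀ q ∈ (Icc 1 X).filter Nat.Prime, q.Prime := fun q hq => (mem_filter.1 hq).2
  calc _ ≤ ∑ n ∈ Icc 1 X, ∑ q ∈ (Icc 1 X).filter Nat.Prime, ∑ e ∈ Ico 2 (X + 1),
        if q ^ e ∣ n then lg q * gw n else 0 := by
        refine sum_le_sum fun n hn => ?_
        obtain ⟨n1, n2⟩ := mem_Icc.1 hn
        have g0 : 0 ≤ gw n := zero_le_one.trans (one_le_gw n)
        rw [mul_sum]
        refine (sum_le_sum fun q hq => gwp2_cnt n2 hq (mul_nonneg (lg_nonneg q) g0) ?_).trans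
          (sum_le_sum_of_subset_of_nonneg (fun q hq => mem_filter.2 ⟨mem_Icc.2
            ⟨(Nat.prime_of_mem_primeFactors hq).pos, (Nat.le_of_mem_primeFactors hq).trans n2⟩,
            Nat.prime_of_mem_primeFactors hq⟩) fun q _ _ => sum_nonneg fun e _ => ?_)
        · ring
        · have := lg_nonneg q
          positivity
    _ ≤ ∑ q ∈ (Icc 1 X).filter Nat.Prime, 84 * X * (lg q / ((q : ℝ) * (q - 1))) := by
        rw [sum_comm]
        refine sum_le_sum fun q hq => ?_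
        have hq' := hP q hq
        have h2 : (2 : ℝ) ≤ q := by exact_mod_cast hq'.two_le
        have hl := lg_nonneg q
        rw [sum_comm]
        calc _ ≤ ∑ e ∈ Ico 2 (X + 1), 84 * X * lg q * (1 / (q : ℝ)) ^ e := by
              refine sum_le_sum fun e _ => ?_
              rw [← sum_filter, ← mul_sum]
              refine (mul_le_mul_of_nonneg_left ((sum_gw_dvd_le X (pow_ne_zero e hq'.ne_zero)).trans
                (show _ ≤ 21 * 4 * X / ((q ^ e : ℕ) : ℝ) by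
                  gcongr; exact gw_prime_pow_le hq' e)) hl).trans_eq ?_
              rw [Nat.cast_pow, one_div, inv_pow]
              ring
          _ ≤ 84 * X * lg q * ((1 / (q : ℝ)) ^ 2 / (1 - 1 / q)) := by
              rw [← mul_sum]
              exact mul_le_mul_of_nonneg_left (geom_sum_Ico_le_of_lt_one (by positivity)
                ((div_lt_one (by linarith)).2 (by linarith))) (by positivity)
          _ = _ := by
              have : (q : ℝ) - 1 ≠ 0 := by linarith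
              field_simp
    _ ≤ _ := by
        rw [← mul_sum, mul_right_comm]
        exact mul_le_mul_of_nonneg_right (mul_le_mul_of_nonneg_left (hC _ hP) (by norm_num))
          (Nat.cast_nonneg X)

/-- Primes `q ≥ 2 ^ k` dividing `n ≤ 2 ^ (k+2)` lie in the blocks `k, k+1, k+2`; `sum_gw_single`,
`sum_le_sum_blk`, `lg q ≤ 2 j`, `sum_inv_blk_le`: `84 * 4 * 3 * 8 = 8064`. -/
theorem sum_gw_big (k : ℕ) :
    ∑ n ∈ Icc 1 (2 ^ (k + 2)), gw n * ∑ q ∈ n.primeFactors.filter (fun q => 2 ^ k ≤ q), lg q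
      ≤ 8064 * 2 ^ k := by
  obtain ⟨S, hS⟩ : ∃ S : Finset ℕ, ∀ q, q ∈ S ↔ q.Prime ∧ 2 ^ k ≤ q ∧ q < 2 ^ (k + 3) :=
    ⟨(Ico (2 ^ k) (2 ^ (k + 3))).filter Nat.Prime, fun q => by rw [mem_filter, mem_Ico, and_comm]⟩
  have h1 : ∀ j, ∑ q ∈ blk j, lg q / q ≤ 8 := fun j => by
    rcases Nat.eq_zero_or_pos j with rfl | hj
    · simp [blk_zero]
    · have h2 : (0 : ℝ) < j := by exact_mod_cast hj
      calc ∑ q ∈ blk j, lg q / q ≤ ∑ q ∈ blk j, 2 * j * ((1 : ℝ) / q) :=
            sum_le_sum fun q hq => by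
              rw [mul_one_div]
              exact div_le_div_of_nonneg_right (lg_le_two_mul_blk hq) (by positivity)
        _ ≤ 2 * j * (4 / j) := by
            rw [← mul_sum]
            exact mul_le_mul_of_nonneg_left (sum_inv_blk_le j) (by positivity)
        _ = 8 := by field_simp; norm_num
  have h2 : ∑ q ∈ S, lg q / q ≤ 24 := by
    refine (sum_le_sum_blk (fun q hq => (hS q).1 hq) (fun q => lg q / q) fun q _ =>
      div_nonneg (lg_nonneg q) (by positivity)).trans ((sum_le_card_nsmul _ _ 8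
        fun j _ => h1 j).trans ?_)
    norm_num
  have h3 := sum_gw_single (2 ^ (k + 2)) S (fun q hq => ((hS q).1 hq).1) lg fun q _ => lg_nonneg q
  refine (sum_congr rfl fun n hn => ?_).trans_le (h3.trans ?_)
  · obtain ⟨a, b⟩ := mem_Icc.1 hn
    refine congrArg (fun T => gw n * ∑ q ∈ T, lg q) (Finset.ext fun q => ?_)
    rw [mem_filter, mem_filter, hS, Nat.mem_primeFactors]
    exact ⟨fun h => ⟨⟨h.1.1, h.2, ((Nat.le_of_dvd a h.1.2.1).trans b).trans_lt
      (Nat.pow_lt_pow_right one_lt_two (by omega))⟩, h.1.2.1⟩,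
      fun h => ⟨⟨h.1.1, h.2, by omega⟩, h.1.2.1⟩⟩
  · push_cast
    rw [pow_add]
    nlinarith [mul_le_mul_of_nonneg_left h2 (show (0 : ℝ) ≤ 2 ^ k by positivity)]

end Pool.Agent.Lib.MP_b09490_nt.No
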