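import Pool.Agent.Lib.MP_b09490_nt.No.KPoint

/-!
Bounds for the sums over primes in the mean value estimate.
-/

open Finset Real Filter Topology

namespace Pool.Agent.Lib.MP_b09490_nt.No

/-- The comparison sequence. -/
noncomputable def VV (s : ℝ) (T j : ℕ) : ℝ := s ^ T / s ^ Nat.log 2 j

theorem VV_pos {s : ℝ} (hs : 1 ≤ s) (T j : ℕ) : 0 < VV s T j := by unfold VV; positivity

theorem succ_mul_two_pow_le {j k : ℕ} (hk : 1 ≤ k) (hjk : j ≤ k) :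
    ((j : ℝ) + 1) * 2 ^ (Nat.log 2 k - Nat.log 2 j) ≤ 2 * k := by
  have h1 : j + 1 ≤ 2 ^ (Nat.log 2 j + 1) := Nat.lt_pow_succ_log_self (by norm_num) j
  have h2 : 2 ^ Nat.log 2 k ≤ k := Nat.pow_log_le_self 2 (by omega)
  have h3 : Nat.log 2 j ≤ Nat.log 2 k := Nat.log_mono_right hjk
  have h4 : 2 ^ (Nat.log 2 j + 1) * 2 ^ (Nat.log 2 k - Nat.log 2 j) = 2 * 2 ^ Nat.log 2 k := by
    rw [← pow_add, ← pow_succ']; congr 1; omega
  have h5 : (j + 1) * 2 ^ (Nat.log 2 k - Nat.log 2 j) ≤ 2 * k :=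
    (Nat.mul_le_mul_right _ h1).trans (by omega)
  exact_mod_cast h5

theorem xx_le {h : ℕ → ℝ} (hh : Adm h) {s : ℝ} (hs : 1 ≤ s) (T : ℕ) {j k q : ℕ} (hk : 1 ≤ k)
    (hjk : j ≤ k) (hq : q ∈ blk j) :
    xx h k (VV s T k) q ≤ (j + 1) / k * s ^ (Nat.log 2 k - Nat.log 2 j) * (h q / VV s T j) := by
  have h3 : Nat.log 2 j ≤ Nat.log 2 k := Nat.log_mono_right hjk
  have hk0 : (0 : ℝ) < k := by exact_mod_cast hk
  have h4 : s ^ Nat.log 2 k = s ^ Nat.log 2 j * s ^ (Nat.log 2 k - Nat.log 2 j) := by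
    rw [← pow_add]; congr 1; omega
  have h5 := mul_le_mul_of_nonneg_left (lg_le_blk hq) (hh.nonneg q (mem_blk.1 hq).1)
  have h6 := VV_pos hs T k
  unfold xx
  refine (div_le_div_of_nonneg_right h5 (by positivity)).trans (le_of_eq ?_)
  unfold VV
  rw [h4]
  field_simp

theorem sum_shift_le {k K : ℕ} (hk : 1 ≤ k) (hK : 1 ≤ K) :
    ∑ j ∈ Ico 1 k, (((j : ℝ) + 1) / k) ^ K / (j + 1) ≤ 1 / K + 1 / k := by
  have hk0 : (0 : ℝ) < k := by exact_mod_cast hk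
  have h1 := sum_Ico_add' (fun j : ℕ => ((j : ℝ) / k) ^ K / j) 1 k 1
  push_cast at h1
  rw [h1]
  refine (sum_le_sum_of_subset_of_nonneg (t := Ico 1 (k + 1)) (Ico_subset_Ico_left (by omega))
    fun _ _ _ => by positivity).trans ?_
  rw [sum_Ico_succ_top hk, div_self hk0.ne', one_pow]
  exact add_le_add (sum_pow_div_le k K hK) le_rfl

theorem single_le {K : ℕ} (hK : 1 ≤ K) {h : ℕ → ℝ} (hh : Adm h) {s : ℝ} (hs : 1 ≤ s)
    (hs2 : s ^ (K + 1) ≤ 2) (T : ℕ) {k : ℕ} (hk : 1 ≤ k)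
    (ih : ∀ j ∈ Ico 1 k, ∑ q ∈ blk j, (h q / VV s T j) ^ (K + 1) / q ≤ 4 / j) :
    ∑ q ∈ UU (Ico 1 k), xx h k (VV s T k) q ^ (K + 1) / q ≤ 32 * (1 / K + 1 / k) := by
  have hk0 : (0 : ℝ) < k := by exact_mod_cast hk
  rw [sum_UU]
  refine le_trans ?_ (mul_le_mul_of_nonneg_left (sum_shift_le hk hK) (by norm_num))
  rw [mul_sum]
  refine sum_le_sum fun j hj => ?_
  obtain ⟨hj1, hj2⟩ := mem_Ico.1 hj
  have hj0 : (1 : ℝ) ≤ j := by exact_mod_cast hj1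
  have h1 := succ_mul_two_pow_le hk hj2.le
  set d := Nat.log 2 k - Nat.log 2 j
  have h2 : (s ^ d) ^ (K + 1) ≤ 2 ^ d := by
    rw [← pow_mul, mul_comm, pow_mul]
    exact pow_le_pow_left₀ (by positivity) hs2 _
  have h3 : ∑ q ∈ blk j, xx h k (VV s T k) q ^ (K + 1) / q ≤
      (((j : ℝ) + 1) / k) ^ (K + 1) * 2 ^ d * ∑ q ∈ blk j, (h q / VV s T j) ^ (K + 1) / q := by
    rw [mul_sum]
    refine sum_le_sum fun q hq => ?_
    rw [← mul_div_assoc]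
    refine div_le_div_of_nonneg_right ?_ (by positivity)
    have hp := (mem_blk.1 hq).1
    refine (pow_le_pow_left₀ (xx_nonneg hh k (VV_pos hs T k) hp) (xx_le hh hs T hk hj2.le hq)
      _).trans ?_
    rw [mul_pow, mul_pow]
    have := hh.nonneg q hp
    have := VV_pos hs T j
    exact mul_le_mul_of_nonneg_right (mul_le_mul_of_nonneg_left h2 (by positivity))
      (by positivity)
  refine h3.trans ((mul_le_mul_of_nonneg_left (ih j hj) (by positivity)).trans ?_)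
  have h4 : ((j : ℝ) + 1) / k * 2 ^ d ≤ 2 := by
    rw [div_mul_eq_mul_div, div_le_iff₀ hk0]; exact h1
  have h5 : (4 : ℝ) / j ≤ 16 / (j + 1) := by
    rw [div_le_div_iff₀ (by linarith) (by linarith)]; linarith
  have h6 := mul_le_mul h4 h5 (by positivity) (by norm_num)
  have h7 := mul_le_mul_of_nonneg_left h6 (show 0 ≤ (((j : ℝ) + 1) / k) ^ K by positivity)
  refine le_trans (le_of_eq ?_) (h7.trans (le_of_eq ?_))
  · ring
  · ring

theorem bb_le {K : ℕ} (hK : 1 ≤ K) {x : ℕ → ℝ} {q : ℕ} {t η : ℝ} (hx : 0 ≤ x q) (ht : 0 ≤ t)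
    (ht1 : t ≤ 1) (hη : 0 ≤ η) (h : x q ≤ 2 * t * η) :
    bb K x q ≤ 2 ^ (2 * K + 1) * (t * (η + η ^ K)) := by
  have h1 : x q ^ K ≤ 2 ^ K * (t * η ^ K) := by
    refine (pow_le_pow_left₀ hx h K).trans ?_
    rw [mul_pow, mul_pow, mul_assoc]
    refine mul_le_mul_of_nonneg_left (mul_le_mul_of_nonneg_right ?_ (by positivity))
      (by positivity)
    exact pow_le_of_le_one ht ht1 (by omega)
  have h2 : (2 : ℝ) ≤ 2 ^ K := le_self_pow₀ (by norm_num) (by omega)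
  have h3 := mul_le_mul_of_nonneg_right h2 (mul_nonneg ht hη)
  have h4 : x q + x q ^ K ≤ 2 ^ K * (t * (η + η ^ K)) := by nlinarith
  unfold bb
  refine (mul_le_mul_of_nonneg_left h4 (by positivity)).trans (le_of_eq ?_)
  ring

theorem eta_split {K : ℕ} (hK : 1 ≤ K) {η ε : ℝ} (hη : 0 ≤ η) (hε : 0 < ε) (hε1 : ε ≤ 1) :
    η + η ^ K ≤ 2 * (ε * η ^ (K + 1) + if 0 < η then (1 / ε) ^ (K + 1) else 0) := by
  have h0 : 1 ≤ 1 / ε := by rw [le_div_iff₀ hε]; linarith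
  have hA : 0 ≤ ε * η ^ (K + 1) := by positivity
  split_ifs with h
  · have hB : 0 ≤ (1 / ε) ^ (K + 1) := by positivity
    rcases le_total (1 / ε) η with h1 | h1
    · have a1 : η ≤ η ^ K := le_self_pow₀ (h0.trans h1) (by omega)
      have a2 : 1 ≤ ε * η := by rwa [div_le_iff₀' hε] at h1
      have a3 := mul_le_mul_of_nonneg_right a2 (pow_nonneg hη K)
      have a4 : ε * η ^ (K + 1) = ε * η * η ^ K := by ring
      linarith
    · have a1 : 1 / ε ≤ (1 / ε) ^ (K + 1) := le_self_pow₀ h0 (by omega)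
      have a2 : η ^ K ≤ (1 / ε) ^ (K + 1) :=
        (pow_le_pow_left₀ hη h1 K).trans (pow_le_pow_right₀ h0 (by omega))
      linarith
  · have : η = 0 := le_antisymm (not_lt.1 h) hη
    subst this
    simp [zero_pow (show K ≠ 0 by omega)]

theorem geo_sum {J : Finset ℕ} {k : ℕ} (hJ : ∀ j ∈ J, j ≤ k) {w : ℕ → ℝ} {β : ℝ} (hβ : 0 ≤ β)
    (h : ∀ m, ∑ j ∈ J.filter (fun j => Nat.log 2 j = m), w j ≤ β) :
    ∑ j ∈ J, (3 / 4 : ℝ) ^ (Nat.log 2 k - Nat.log 2 j) * w j ≤ 4 * β := by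
  rw [← sum_fiberwise_of_maps_to (t := range (Nat.log 2 k + 1)) (g := fun j => Nat.log 2 j)
    fun j hj => mem_range.2 (Nat.lt_succ_of_le (Nat.log_mono_right (hJ j hj)))]
  have h1 : ∀ m ∈ range (Nat.log 2 k + 1), ∑ j ∈ J.filter (fun j => Nat.log 2 j = m),
      (3 / 4 : ℝ) ^ (Nat.log 2 k - Nat.log 2 j) * w j ≤
        (3 / 4 : ℝ) ^ (Nat.log 2 k + 1 - 1 - m) * β := by
    intro m _
    refine le_trans (le_of_eq ?_) (mul_le_mul_of_nonneg_left (h m) (by positivity))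
    rw [mul_sum]
    exact sum_congr rfl fun j hj => by rw [(mem_filter.1 hj).2, Nat.add_sub_cancel]
  refine (sum_le_sum h1).trans ?_
  rw [← sum_mul, sum_range_reflect (fun m => (3 / 4 : ℝ) ^ m)]
  refine mul_le_mul_of_nonneg_right ?_ hβ
  rw [geom_sum_eq (by norm_num), div_le_iff_of_neg (by norm_num)]
  have : (0 : ℝ) ≤ (3 / 4) ^ (Nat.log 2 k + 1) := by positivity
  linarith

theorem fiber_subset {J : Finset ℕ} (hJ : ∀ j ∈ J, 1 ≤ j) (m : ℕ) :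
    J.filter (fun j => Nat.log 2 j = m) ⊆ Ico (2 ^ m) (2 ^ (m + 1)) := by
  intro j hj
  obtain ⟨h1, rfl⟩ := mem_filter.1 hj
  have := hJ j h1
  exact mem_Ico.2 ⟨Nat.pow_log_le_self 2 (by omega), Nat.lt_pow_succ_log_self (by norm_num) j⟩

theorem sum_inv_dyadic (m : ℕ) : ∑ j ∈ Ico (2 ^ m) (2 ^ (m + 1)), (1 : ℝ) / (j : ℕ) ≤ 1 := by
  refine (sum_le_card_nsmul _ _ ((1 : ℝ) / 2 ^ m) fun j hj => ?_).trans (le_of_eq ?_)
  · exact one_div_le_one_div_of_le (by positivity) (by exact_mod_cast (mem_Ico.1 hj).1)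
  · rw [Nat.card_Ico, pow_succ, Nat.mul_two, Nat.add_sub_cancel, nsmul_eq_mul]
    push_cast
    field_simp

theorem sum_div_fiber {J : Finset ℕ} (hJ : ∀ j ∈ J, 1 ≤ j) (m : ℕ) {c : ℝ} (hc : 0 ≤ c) :
    ∑ j ∈ J.filter (fun j => Nat.log 2 j = m), c / (j : ℕ) ≤ c := by
  have h := mul_le_mul_of_nonneg_left ((sum_le_sum_of_subset_of_nonneg (fiber_subset hJ m)
    fun _ _ _ => by positivity).trans (sum_inv_dyadic m)) hc
  rw [mul_sum, mul_one] at h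
  simpa only [mul_one_div] using h

/-- The mass of the block `j` in the cross terms. -/
noncomputable def wq (K : ℕ) (h : ℕ → ℝ) (s : ℝ) (T j : ℕ) : ℝ :=
  ∑ q ∈ blk j, (h q / VV s T j + (h q / VV s T j) ^ K) / q

theorem sum_bb_le {K : ℕ} (hK : 1 ≤ K) {h : ℕ → ℝ} (hh : Adm h) {s : ℝ} (hs : 1 ≤ s)
    (hs2 : s ≤ 3 / 2) (T : ℕ) {k : ℕ} (hk : 1 ≤ k) {J : Finset ℕ} (hJ : ∀ j ∈ J, j ≤ k) {β : ℝ}
    (hβ : 0 ≤ β) (hw : ∀ m, ∑ j ∈ J.filter (fun j => Nat.log 2 j = m), wq K h s T j ≤ β) :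
    ∑ q ∈ UU J, 4 * bb K (xx h k (VV s T k)) q / q ≤ 2 ^ (2 * K + 5) * β := by
  have hk0 : (0 : ℝ) < k := by exact_mod_cast hk
  have h1 := mul_le_mul_of_nonneg_left (geo_sum hJ hβ hw)
    (show (0 : ℝ) ≤ 2 ^ (2 * K + 3) by positivity)
  refine le_trans ?_ (h1.trans (le_of_eq (by ring)))
  rw [sum_UU, mul_sum]
  refine sum_le_sum fun j hj => ?_
  unfold wq
  rw [mul_sum, mul_sum]
  refine sum_le_sum fun q hq => ?_
  have hp := (mem_blk.1 hq).1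
  have hη : 0 ≤ h q / VV s T j := div_nonneg (hh.nonneg q hp) (VV_pos hs T j).le
  have h2 := succ_mul_two_pow_le hk (hJ j hj)
  have h3 := xx_le hh hs T hk (hJ j hj) hq
  set d := Nat.log 2 k - Nat.log 2 j
  have h4 : ((j : ℝ) + 1) / k * s ^ d ≤ 2 * (3 / 4) ^ d := by
    have a1 : s ^ d ≤ 2 ^ d * (3 / 4) ^ d := by
      rw [← mul_pow]; exact pow_le_pow_left₀ (by linarith) (by linarith) _
    have a2 : ((j : ℝ) + 1) / k * 2 ^ d ≤ 2 := by
      rw [div_mul_eq_mul_div, div_le_iff₀ hk0]; exact h2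
    refine (mul_le_mul_of_nonneg_left a1 (by positivity)).trans ?_
    rw [← mul_assoc]
    exact mul_le_mul_of_nonneg_right a2 (by positivity)
  have h5 := bb_le hK (xx_nonneg hh k (VV_pos hs T k) hp) (by positivity)
    (pow_le_one₀ (by norm_num) (by norm_num)) hη (h3.trans (mul_le_mul_of_nonneg_right h4 hη))
  rw [← mul_div_assoc, ← mul_div_assoc]
  refine div_le_div_of_nonneg_right ?_ (by positivity)
  refine (mul_le_mul_of_nonneg_left h5 (by norm_num)).trans (le_of_eq ?_)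
  ring

theorem wq_le {K : ℕ} (hK : 1 ≤ K) {h : ℕ → ℝ} (hh : Adm h) {s : ℝ} (hs : 1 ≤ s) (T j : ℕ)
    {ε : ℝ} (hε : 0 < ε) (hε1 : ε ≤ 1)
    (ih : ∑ q ∈ blk j, (h q / VV s T j) ^ (K + 1) / q ≤ 4 / j) :
    wq K h s T j ≤ 8 * ε / j +
      2 * (1 / ε) ^ (K + 1) * ∑ q ∈ (blk j).filter (fun q => 0 < h q), (1 : ℝ) / q := by
  have h1 := mul_le_mul_of_nonneg_left ih (show 0 ≤ 2 * ε by positivity)
  have h2 : wq K h s T j ≤ 2 * ε * ∑ q ∈ blk j, (h q / VV s T j) ^ (K + 1) / q +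
      2 * (1 / ε) ^ (K + 1) * ∑ q ∈ (blk j).filter (fun q => 0 < h q), (1 : ℝ) / q := by
    unfold wq
    rw [sum_filter, mul_sum, mul_sum, ← sum_add_distrib]
    refine sum_le_sum fun q hq => ?_
    have hV := VV_pos hs T j
    have h3 := eta_split hK (div_nonneg (hh.nonneg q (mem_blk.1 hq).1) hV.le) hε hε1
    refine (div_le_div_of_nonneg_right h3 (by positivity)).trans (le_of_eq ?_)
    simp only [div_pos_iff_of_pos_right hV]
    split_ifs <;> ring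
  refine h2.trans (add_le_add (h1.trans (le_of_eq (by ring))) le_rfl)

theorem wq_le_low {K : ℕ} (hK : 1 ≤ K) {h : ℕ → ℝ} (hh : Adm h) {s : ℝ} (hs : 1 ≤ s) (T j : ℕ)
    {ε : ℝ} (hε : 0 < ε) (hε1 : ε ≤ 1) (hV : 1 ≤ ε * VV s T j) : wq K h s T j ≤ 8 * ε / j := by
  have h1 := mul_le_mul_of_nonneg_left (sum_inv_blk_le j) (show 0 ≤ 2 * ε by positivity)
  refine le_trans ?_ (h1.trans (le_of_eq (by ring)))
  unfold wq
  rw [mul_sum]
  refine sum_le_sum fun q hq => ?_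
  have hp := (mem_blk.1 hq).1
  have hV0 := VV_pos hs T j
  have a0 : 0 ≤ h q / VV s T j := div_nonneg (hh.nonneg q hp) hV0.le
  have a1 : h q / VV s T j ≤ ε := by
    rw [div_le_iff₀ hV0]; exact (hh.le_one q hp).trans hV
  have a2 : (h q / VV s T j) ^ K ≤ h q / VV s T j :=
    pow_le_of_le_one a0 (a1.trans hε1) (by omega)
  rw [mul_one_div]
  exact div_le_div_of_nonneg_right (by linarith) (by positivity)

theorem big_le {K : ℕ} (hK : 1 ≤ K) {h : ℕ → ℝ} (hh : Adm h) {s : ℝ} (hs : 1 ≤ s)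
    (hs2 : s ≤ 3 / 2) (T : ℕ) {k : ℕ} (hk : 1 ≤ k) (M : ℕ)
    (ih : ∀ j ∈ Ico 1 k, ∑ q ∈ blk j, (h q / VV s T j) ^ (K + 1) / q ≤ 4 / j) :
    ∑ q ∈ UU (J2 k M), 4 * bb K (xx h k (VV s T k)) q / q ≤ 2 ^ (2 * K + 5) * 16 := by
  refine sum_bb_le hK hh hs hs2 T hk (fun j hj => (mem_Ico.1 (mem_filter.1 hj).1).2.le)
    (by norm_num) fun m => ?_
  refine le_trans (sum_le_sum fun j hj => ?_)
    (sum_div_fiber (fun j hj => (mem_Ico.1 (mem_filter.1 hj).1).1) m (by norm_num))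
  have h1 := wq_le hK hh hs T j one_pos le_rfl (ih j (mem_filter.1 (mem_filter.1 hj).1).1)
  have h2 : ∑ q ∈ (blk j).filter (fun q => 0 < h q), (1 : ℝ) / q ≤ 4 / j :=
    (sum_le_sum_of_subset_of_nonneg (filter_subset _ _) fun _ _ _ => by positivity).trans
      (sum_inv_blk_le j)
  simp only [div_one, one_pow, mul_one] at h1
  have h3 : (16 : ℝ) / j = 8 / j + 2 * (4 / j) := by ring
  linarith

theorem side_le {K : ℕ} (hK : 1 ≤ K) {h : ℕ → ℝ} (hh : Adm h) {s : ℝ} (hs : 1 ≤ s)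
    (hs2 : s ≤ 3 / 2) {L r i k : ℕ} (hk : 1 ≤ k) {ε : ℝ} (hε : 0 < ε) (hε1 : ε ≤ 1)
    (hr : 1 ≤ ε * s ^ r) (hg : ∀ m, L ≤ m → m ≤ i → Good h (ε ^ (K + 2)) m 0)
    (ih : ∀ j ∈ Ico 1 k, ∑ q ∈ blk j, (h q / VV s (L + r) j) ^ (K + 1) / q ≤ 4 / j) :
    ∑ q ∈ UU (J1 k (2 ^ (i + 1))), 4 * bb K (xx h k (VV s (L + r) k)) q / q
      ≤ 2 ^ (2 * K + 5) * (10 * ε) := by
  refine sum_bb_le hK hh hs hs2 _ hk (fun j hj => (mem_Ico.1 (mem_filter.1 hj).1).2.le)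
    (by positivity) fun m => ?_
  have hJ : ∀ j ∈ J1 k (2 ^ (i + 1)), 1 ≤ j := fun j hj => (mem_Ico.1 (mem_filter.1 hj).1).1
  have h8 := sum_div_fiber hJ m (c := 8 * ε) (by positivity)
  rcases lt_or_ge m L with hm | hm
  · refine (sum_le_sum fun j hj => wq_le_low hK hh hs _ j hε hε1 (hr.trans ?_)).trans
      (h8.trans (by linarith))
    refine mul_le_mul_of_nonneg_left ?_ hε.le
    unfold VV
    rw [(mem_filter.1 hj).2, le_div_iff₀ (by positivity), ← pow_add]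
    exact pow_le_pow_right₀ hs (by omega)
  rcases lt_or_ge i m with hi | hi
  · rw [filter_false_of_mem, sum_empty]
    · positivity
    · intro j hj e
      have h1 := hJ j hj
      have h2 := (Nat.log_lt_iff_lt_pow (b := 2) (by norm_num) (show j ≠ 0 by omega)).2
        (mem_filter.1 hj).2
      omega
  refine (sum_le_sum fun j hj => wq_le hK hh hs _ j hε hε1
    (ih j (mem_filter.1 (mem_filter.1 hj).1).1)).trans ?_
  rw [sum_add_distrib, ← mul_sum]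
  have h1 : ∑ j ∈ (J1 k (2 ^ (i + 1))).filter (fun j => Nat.log 2 j = m),
      ∑ q ∈ (blk j).filter (fun q => 0 < h q), (1 : ℝ) / q ≤ ε ^ (K + 2) :=
    (sum_le_sum_of_subset_of_nonneg (fiber_subset hJ m) fun _ _ _ => by positivity).trans
      (hg m hm hi)
  have h2 := mul_le_mul_of_nonneg_left h1 (show 0 ≤ 2 * (1 / ε) ^ (K + 1) by positivity)
  have h3 : 2 * (1 / ε) ^ (K + 1) * ε ^ (K + 2) = 2 * ε := by
    rw [div_pow, one_pow]; field_simp; ring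
  exact (add_le_add h8 (h2.trans h3.le)).trans (by linarith)

end Pool.Agent.Lib.MP_b09490_nt.No
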