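import Pool.Agent.Lib.MP_b09490_nt.No.Defs

/-!
Admissible functions on primes, their additive extensions, block means.
-/

open Finset Real Filter Topology

namespace Pool.Agent.Lib.MP_b09490_nt.No

/-- Normalised mean over the block `j`. -/
noncomputable def mu (j : ℕ) (φ : ℕ → ℝ) : ℝ := (j : ℝ) / 2 ^ j * ∑ p ∈ blk j, φ p

/-- The completely additive function with value `h q * lg q` at the prime `q`. -/
noncomputable def HH (h : ℕ → ℝ) (n : ℕ) : ℝ :=
  ∑ q ∈ n.primeFactors, (n.factorization q : ℝ) * (h q * lg q)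

/-- Admissible functions. -/
structure Adm (G : ℕ → ℝ) : Prop where
  nonneg : ∀ q : ℕ, q.Prime → 0 ≤ G q
  le_one : ∀ q : ℕ, q.Prime → G q ≤ 1
  step : ∀ p : ℕ, p.Prime → G p * lg p ≤ HH G (p - 1) + 1

/-- The part of `G` above the level `a`. -/
noncomputable def cut (G : ℕ → ℝ) (a : ℝ) (q : ℕ) : ℝ := max (G q - a) 0

/-- The primes of the blocks `2 ^ m ≤ j < 2 ^ (m + 1)` above level `a` have small mass. -/
def Good (G : ℕ → ℝ) (θ : ℝ) (m : ℕ) (a : ℝ) : Prop :=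
  ∑ j ∈ Ico (2 ^ m) (2 ^ (m + 1)), ∑ q ∈ (blk j).filter (fun q => a < G q), (1 : ℝ) / q ≤ θ

/-- The test function. -/
noncomputable def ff (κ : ℕ) (h : ℕ → ℝ) (j n : ℕ) : ℝ := min 1 ((HH h n + 1) / j) ^ κ

/-- The ratio `D q / lg q`. -/
noncomputable def FD (q : ℕ) : ℝ := D q / lg q

theorem one_le_lg {q : ℕ} (hq : q.Prime) : 1 ≤ lg q := by
  have := le_lg (k := 1) (n := q) (by simpa using hq.two_le)
  simpa using this

theorem HH_eq (h : ℕ → ℝ) (n : ℕ) :
    HH h n = n.factorization.sum fun q e => (e : ℝ) * (h q * lg q) := rfl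

theorem HH_one (h : ℕ → ℝ) : HH h 1 = 0 := by simp [HH]

theorem HH_mul (h : ℕ → ℝ) {a b : ℕ} (ha : a ≠ 0) (hb : b ≠ 0) :
    HH h (a * b) = HH h a + HH h b := by
  rw [HH_eq, HH_eq, HH_eq, Nat.factorization_mul ha hb, Finsupp.sum_add_index']
  · simp
  · intro a b c; push_cast; rw [add_mul]

theorem HH_prime (h : ℕ → ℝ) {q : ℕ} (hq : q.Prime) : HH h q = h q * lg q := by
  simp [HH, hq.primeFactors, hq.factorization_self]

theorem HH_mono {h h' : ℕ → ℝ} (hh : ∀ q : ℕ, q.Prime → h q ≤ h' q) (n : ℕ) :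
    HH h n ≤ HH h' n :=
  sum_le_sum fun q hq => mul_le_mul_of_nonneg_left
    (mul_le_mul_of_nonneg_right (hh q (Nat.prime_of_mem_primeFactors hq)) (lg_nonneg q))
    (Nat.cast_nonneg _)

theorem HH_nonneg {h : ℕ → ℝ} (hh : ∀ q : ℕ, q.Prime → 0 ≤ h q) (n : ℕ) : 0 ≤ HH h n :=
  sum_nonneg fun q hq => mul_nonneg (Nat.cast_nonneg _)
    (mul_nonneg (hh q (Nat.prime_of_mem_primeFactors hq)) (lg_nonneg q))

theorem HH_sub (h h' : ℕ → ℝ) (n : ℕ) : HH (fun q => h q - h' q) n = HH h n - HH h' n := by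
  unfold HH
  rw [← sum_sub_distrib]
  exact sum_congr rfl fun q _ => by ring

theorem HH_const (c : ℝ) (n : ℕ) : HH (fun _ => c) n = c * lg n := by
  induction n using induction_on_primes with
  | zero => simp [HH, lg]
  | one => simp [HH_one, lg_one]
  | prime_mul p m hp ih =>
    rcases eq_or_ne m 0 with rfl | hm
    · simp [HH, lg]
    · rw [HH_mul _ hp.ne_zero hm, lg_mul hp.ne_zero hm, ih, HH_prime _ hp]; ring

theorem HH_FD (n : ℕ) : HH FD n = D n := by
  induction n using induction_on_primes with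
  | zero => simp [HH, D]
  | one => simp [HH_one, D_one]
  | prime_mul p m hp ih =>
    rcases eq_or_ne m 0 with rfl | hm
    · simp [HH, D]
    · have := one_le_lg hp
      rw [HH_mul _ hp.ne_zero hm, D_mul hp.ne_zero hm, ih, HH_prime _ hp, FD,
        div_mul_cancel₀ _ (by linarith)]
      push_cast; ring

theorem FD_mul_lg {q : ℕ} (hq : q.Prime) : FD q * lg q = D q := by
  have := one_le_lg hq
  rw [FD, div_mul_cancel₀ _ (by linarith)]

theorem FD_nonneg (q : ℕ) : 0 ≤ FD q := div_nonneg (Nat.cast_nonneg _) (lg_nonneg q)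

theorem FD_le_one (q : ℕ) : FD q ≤ 1 := div_le_one_of_le₀ (D_le_lg q) (lg_nonneg q)

/-- For odd primes the relation is an equality. -/
theorem FD_step {p : ℕ} (hp : p.Prime) (h2 : p ≠ 2) : FD p * lg p = HH FD (p - 1) := by
  rw [FD_mul_lg hp, HH_FD, D_pred hp h2]

theorem lg_pred_le (p : ℕ) (hp : p.Prime) : lg (p - 1) ≤ lg p :=
  lg_mono (by have := hp.two_le; omega) (Nat.sub_le _ _)

theorem lg_le_pred (p : ℕ) (hp : p.Prime) : lg p ≤ lg (p - 1) + 1 := by
  have h := hp.two_le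
  have h1 : lg p ≤ lg (2 * (p - 1)) := lg_mono hp.ne_zero (by omega)
  have h2 : lg 2 = 1 := by simpa using lg_two_pow 1
  rw [lg_mul two_ne_zero (by omega), h2] at h1
  linarith

theorem adm_FD : Adm FD := by
  refine ⟨fun q _ => FD_nonneg q, fun q _ => FD_le_one q, fun p hp => ?_⟩
  rcases eq_or_ne p 2 with rfl | h2
  · rw [FD_mul_lg hp, D_two]; simp [HH_one]
  · rw [FD_step hp h2]; linarith

theorem adm_one_sub_FD : Adm fun q => 1 - FD q := by
  refine ⟨fun q _ => by linarith [FD_le_one q], fun q _ => by linarith [FD_nonneg q],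
    fun p hp => ?_⟩
  rw [HH_sub (fun _ => 1) FD, HH_const, one_mul, sub_mul, one_mul]
  have := lg_le_pred p hp
  rcases eq_or_ne p 2 with rfl | h2
  · rw [FD_mul_lg hp, D_two] at *; simp [HH_one] at *; linarith
  · rw [FD_step hp h2]; linarith

theorem cut_nonneg (G : ℕ → ℝ) (a : ℝ) (q : ℕ) : 0 ≤ cut G a q := le_max_right _ _

theorem sub_le_cut (G : ℕ → ℝ) (a : ℝ) (q : ℕ) : G q - a ≤ cut G a q := le_max_left _ _

theorem cut_pos_iff {G : ℕ → ℝ} {a : ℝ} {q : ℕ} : 0 < cut G a q ↔ a < G q := by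
  simp [cut]

theorem Adm.cut {G : ℕ → ℝ} (hG : Adm G) {a : ℝ} (ha : 0 ≤ a) : Adm (cut G a) := by
  refine ⟨fun q _ => cut_nonneg G a q, fun q hq => max_le (by linarith [hG.le_one q hq])
    zero_le_one, fun p hp => ?_⟩
  have h0 := HH_nonneg (h := No.cut G a) (fun q _ => cut_nonneg G a q) (p - 1)
  have h1 := HH_mono (h := fun q => G q - a) (h' := No.cut G a) (fun q _ => sub_le_cut G a q)
    (p - 1)
  rw [HH_sub G (fun _ => a), HH_const] at h1
  have h2 := hG.step p hp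
  have h3 := mul_le_mul_of_nonneg_left (lg_pred_le p hp) ha
  unfold No.cut at *
  rcases le_total (G p - a) 0 with h | h
  · rw [max_eq_right h]; linarith
  · rw [max_eq_left h]; linarith

theorem Good.mono {G : ℕ → ℝ} {θ a b : ℝ} {m : ℕ} (h : Good G θ m a) (hab : a ≤ b) :
    Good G θ m b := by
  refine le_trans (sum_le_sum fun j _ => sum_le_sum_of_subset_of_nonneg (fun q hq => ?_)
    fun q _ _ => by positivity) h
  rw [mem_filter] at hq ⊢
  exact ⟨hq.1, hab.trans_lt hq.2⟩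

theorem good_cut {G : ℕ → ℝ} {θ a : ℝ} {m : ℕ} : Good (cut G a) θ m 0 ↔ Good G θ m a := by
  simp only [Good, cut_pos_iff]

theorem ff_nonneg (κ : ℕ) {h : ℕ → ℝ} (hh : ∀ q : ℕ, q.Prime → 0 ≤ h q) (j n : ℕ) :
    0 ≤ ff κ h j n := by
  have := HH_nonneg hh n
  exact pow_nonneg (le_min zero_le_one (by positivity)) _

theorem ff_le_one (κ : ℕ) {h : ℕ → ℝ} (hh : ∀ q : ℕ, q.Prime → 0 ≤ h q) (j n : ℕ) :
    ff κ h j n ≤ 1 := by
  have := HH_nonneg hh n
  exact pow_le_one₀ (le_min zero_le_one (by positivity)) (min_le_left _ _)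

/-- On the block `j` the power of `h` is bounded by the test function. -/
theorem Adm.pow_le_ff {h : ℕ → ℝ} (hh : Adm h) (κ : ℕ) {j p : ℕ} (hp : p ∈ blk j) :
    h p ^ κ ≤ ff κ h j (p - 1) := by
  have hpp := (mem_blk.1 hp).1
  have hj : (0 : ℝ) < j := by exact_mod_cast one_le_of_mem_blk hp
  refine pow_le_pow_left₀ (hh.nonneg p hpp) (le_min (hh.le_one p hpp) ?_) _
  rw [le_div_iff₀ hj]
  exact (mul_le_mul_of_nonneg_left (le_lg_blk hp) (hh.nonneg p hpp)).trans (hh.step p hpp)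

theorem mu_mono {j : ℕ} {φ ψ : ℕ → ℝ} (h : ∀ p ∈ blk j, φ p ≤ ψ p) : mu j φ ≤ mu j ψ :=
  mul_le_mul_of_nonneg_left (sum_le_sum h) (by positivity)

theorem mu_nonneg {j : ℕ} {φ : ℕ → ℝ} (h : ∀ p ∈ blk j, 0 ≤ φ p) : 0 ≤ mu j φ :=
  mul_nonneg (by positivity) (sum_nonneg h)

end Pool.Agent.Lib.MP_b09490_nt.No
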