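import Mathlib

/-! A pointwise bound for a power of a sum: diagonal terms plus cross terms. -/

set_option autoImplicit false

namespace Pool.Agent.Lib.MP_b09490_nt.No

open Finset

theorem pow_le_psi {y : ℝ} (hy : 0 ≤ y) {r K : ℕ} (h1 : 1 ≤ r) (h2 : r ≤ K) :
    y ^ r ≤ y + y ^ K := by
  rcases le_total y 1 with h | h
  · have : y ^ r ≤ y ^ 1 := pow_le_pow_of_le_one hy h h1
    have := pow_nonneg hy K
    simp only [pow_one] at *
    linarith
  · have : y ^ r ≤ y ^ K := pow_le_pow_right₀ h h2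
    linarith

theorem add_pow_le_cross {y S p T : ℝ} (hS : 0 ≤ S) (hp : 0 ≤ p) (hT : 0 ≤ T)
    {l : ℕ} (hl : 1 ≤ l) (h1 : ∀ r, 1 ≤ r → r < l → y ^ r ≤ p)
    (h2 : ∀ r, 1 ≤ r → r < l → S ^ r ≤ T) :
    (y + S) ^ l ≤ y ^ l + S ^ l + 2 ^ l * (p * T) := by
  rw [add_pow]
  have key : ∀ m ∈ range (l + 1), y ^ m * S ^ (l - m) * (l.choose m : ℝ) ≤
      (if m = l then y ^ l else 0) + (if m = 0 then S ^ l else 0) + (l.choose m : ℝ) * (p * T) := by
    intro m hm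
    have hm' : m ≤ l := by have := mem_range.1 hm; omega
    have hc : (0 : ℝ) ≤ (l.choose m : ℝ) * (p * T) := by positivity
    by_cases ha : m = l
    · subst ha
      rw [if_pos rfl, if_neg (by omega)]
      simp only [Nat.sub_self, pow_zero, Nat.choose_self, Nat.cast_one, mul_one, one_mul] at hc ⊢
      linarith
    by_cases hb : m = 0
    · subst hb
      rw [if_neg ha, if_pos rfl]
      simp only [Nat.sub_zero, pow_zero, Nat.choose_zero_right, Nat.cast_one, mul_one,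
        one_mul] at hc ⊢
      linarith
    rw [if_neg ha, if_neg hb, zero_add, zero_add, mul_comm]
    refine mul_le_mul_of_nonneg_left ?_ (by positivity)
    exact mul_le_mul (h1 m (by omega) (by omega)) (h2 _ (by omega) (by omega)) (by positivity) hp
  refine (sum_le_sum key).trans (le_of_eq ?_)
  rw [sum_add_distrib, sum_add_distrib, sum_ite_eq', sum_ite_eq', if_pos (by simp),
    if_pos (by simp), ← sum_mul, ← Nat.cast_sum, Nat.sum_range_choose]
  push_cast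
  ring

theorem one_le_prod_one_add {s : Finset ℕ} {b : ℕ → ℝ} (hb : ∀ q ∈ s, 0 ≤ b q) :
    1 ≤ ∏ q ∈ s, (1 + b q) :=
  le_trans (by simp) (prod_le_prod (f := fun _ => (1 : ℝ)) (fun _ _ => zero_le_one)
    fun q hq => by linarith [hb q hq])

/-- Both bounds together, by induction on the set. -/
theorem pw_aux (K : ℕ) (hK : 1 ≤ K) (x : ℕ → ℝ) (s : Finset ℕ) (hx : ∀ q ∈ s, 0 ≤ x q) :
    (∀ l, 1 ≤ l → l ≤ K → (∑ q ∈ s, x q) ^ l ≤
      ∏ q ∈ s, (1 + 2 ^ (K + 1) * (x q + x q ^ K)) - 1) ∧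
    (∑ q ∈ s, x q) ^ (K + 1) ≤ ∑ q ∈ s, x q ^ (K + 1) +
      (∏ q ∈ s, (1 + 2 ^ (K + 1) * (x q + x q ^ K)) - 1 -
        ∑ q ∈ s, 2 ^ (K + 1) * (x q + x q ^ K)) := by
  induction s using Finset.induction_on with
  | empty =>
    refine ⟨fun l h1 _ => ?_, by simp⟩
    simp [zero_pow (show l ≠ 0 by omega)]
  | insert a s ha ih =>
    have hy : 0 ≤ x a := hx a (mem_insert_self _ _)
    have hs : ∀ q ∈ s, 0 ≤ x q := fun q hq => hx q (mem_insert_of_mem hq)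
    obtain ⟨ih1, ih2⟩ := ih hs
    have hS : 0 ≤ ∑ q ∈ s, x q := sum_nonneg hs
    have hP : 1 ≤ ∏ q ∈ s, (1 + 2 ^ (K + 1) * (x q + x q ^ K)) :=
      one_le_prod_one_add fun q hq => by have := hs q hq; positivity
    simp only [sum_insert ha, prod_insert ha]
    set P := ∏ q ∈ s, (1 + 2 ^ (K + 1) * (x q + x q ^ K))
    set S := ∑ q ∈ s, x q
    have hp : 0 ≤ x a + x a ^ K := by positivity
    have hT : 0 ≤ P - 1 := by linarith
    have main : ∀ l, 1 ≤ l → l ≤ K + 1 → (x a + S) ^ l ≤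
        x a ^ l + S ^ l + 2 ^ (K + 1) * ((x a + x a ^ K) * (P - 1)) := by
      intro l h1 h2
      refine (add_pow_le_cross hS hp hT h1 (fun r a b => pow_le_psi hy a (by omega))
        (fun r a b => ih1 r a (by omega))).trans ?_
      have : (2 : ℝ) ^ l ≤ 2 ^ (K + 1) := pow_le_pow_right₀ (by norm_num) h2
      have := mul_le_mul_of_nonneg_right this (mul_nonneg hp hT)
      linarith
    have h2 : (1 : ℝ) ≤ 2 ^ (K + 1) := one_le_pow₀ (by norm_num)
    refine ⟨fun l h1 h3 => ?_, ?_⟩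
    · have a1 := main l h1 (by omega)
      have a2 := ih1 l h1 h3
      have a3 := pow_le_psi hy h1 h3
      have a4 := mul_le_mul_of_nonneg_right h2 hp
      nlinarith
    · have a1 := main (K + 1) (by omega) le_rfl
      nlinarith

/-- The cross terms when at most one element lies outside `s₁`. -/
theorem cross_le {s₁ s₂ : Finset ℕ} (hd : Disjoint s₁ s₂) (h2 : s₂.card ≤ 1) {b : ℕ → ℝ}
    (hb : ∀ q ∈ s₁ ∪ s₂, 0 ≤ b q) :
    ∏ q ∈ s₁ ∪ s₂, (1 + b q) - 1 - ∑ q ∈ s₁ ∪ s₂, b q ≤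
      (∏ q ∈ s₁, (1 + b q) - 1) * (1 + ∑ q ∈ s₂, b q) := by
  rw [prod_union hd, sum_union hd]
  have h1 : 0 ≤ ∑ q ∈ s₁, b q := sum_nonneg fun q hq => hb q (mem_union_left _ hq)
  have h3 : ∏ q ∈ s₂, (1 + b q) = 1 + ∑ q ∈ s₂, b q := by
    obtain ⟨a, ha⟩ := card_le_one_iff_subset_singleton.1 h2
    rcases subset_singleton_iff.1 ha with h | h <;> simp [h]
  rw [h3]
  nlinarith

theorem pw (K : ℕ) (hK : 1 ≤ K) (x : ℕ → ℝ) {s₁ s₂ : Finset ℕ} (hd : Disjoint s₁ s₂)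
    (h2 : s₂.card ≤ 1) (hx : ∀ q ∈ s₁ ∪ s₂, 0 ≤ x q) :
    (∑ q ∈ s₁ ∪ s₂, x q) ^ (K + 1) ≤ ∑ q ∈ s₁ ∪ s₂, x q ^ (K + 1) +
      (∏ q ∈ s₁, (1 + 2 ^ (K + 1) * (x q + x q ^ K)) - 1) *
        (1 + ∑ q ∈ s₂, 2 ^ (K + 1) * (x q + x q ^ K)) := by
  have h := (pw_aux K hK x _ hx).2
  have h' := cross_le hd h2 (b := fun q => 2 ^ (K + 1) * (x q + x q ^ K))
    fun q hq => by have := hx q hq; positivity
  linarith

end Pool.Agent.Lib.MP_b09490_nt.No
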