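import Pool.Agent.Lib.MP_b09490_nt.No.GwP
import Pool.Agent.Lib.MP_b09490_nt.No.PW

/-!
The weighted mean of the cross terms.
-/

open Finset Real Filter Topology

namespace Pool.Agent.Lib.MP_b09490_nt.No

theorem km_basic (X : ℕ) (E : Finset ℕ) (hE : ∀ q ∈ E, q.Prime) (b : ℕ → ℝ)
    (hb : ∀ q ∈ E, 0 ≤ b q) :
    ∑ n ∈ Icc 1 X, gw n * ∏ q ∈ E, (if q ∣ n then b q else 0)
      ≤ 21 * X * ∏ q ∈ E, (4 * b q / q) := by
  have h1 : ∀ n : ℕ, gw n * ∏ q ∈ E, (if q ∣ n then b q else 0) =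
      (if ∀ q ∈ E, q ∣ n then gw n else 0) * ∏ q ∈ E, b q := by
    intro n
    rw [prod_ite_zero]
    split_ifs <;> simp
  simp only [h1]
  rw [← sum_mul, ← sum_filter]
  have h2 : ∏ q ∈ E, (4 * b q / q) = (∏ q ∈ E, (4 / (q : ℝ))) * ∏ q ∈ E, b q := by
    rw [← prod_mul_distrib]
    exact prod_congr rfl fun q _ => by ring
  rw [h2, ← mul_assoc]
  exact mul_le_mul_of_nonneg_right (sum_gw_subset X E hE) (prod_nonneg hb)

theorem km_expand (A B : Finset ℕ) (hd : Disjoint A B) (c : ℕ → ℝ) :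
    (∏ q ∈ A, (1 + c q) - 1) * (1 + ∑ q ∈ B, c q) =
      ∑ E ∈ A.powerset.erase ∅, (∏ q ∈ E, c q + ∑ r ∈ B, ∏ q ∈ insert r E, c q) := by
  rw [prod_one_add, ← add_sum_erase _ _ (empty_mem_powerset A), prod_empty, add_sub_cancel_left,
    sum_mul]
  refine sum_congr rfl fun E hE => ?_
  have hE' : E ⊆ A := mem_powerset.1 (mem_of_mem_erase hE)
  rw [mul_add, mul_one, mul_sum]
  congr 1
  refine sum_congr rfl fun r hr => ?_
  rw [prod_insert fun h => disjoint_left.1 hd (hE' h) hr, mul_comm]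

theorem mean_cross (X : ℕ) {A B : Finset ℕ} (hA : ∀ q ∈ A, q.Prime) (hB : ∀ q ∈ B, q.Prime)
    (hd : Disjoint A B) (b : ℕ → ℝ) (hbA : ∀ q ∈ A, 0 ≤ b q) (hbB : ∀ q ∈ B, 0 ≤ b q) :
    ∑ n ∈ Icc 1 X, gw n * ((∏ q ∈ A.filter (fun q => q ∣ n), (1 + b q) - 1) *
        (1 + ∑ q ∈ B.filter (fun q => q ∣ n), b q))
      ≤ 21 * X * ((∏ q ∈ A, (1 + 4 * b q / q) - 1) * (1 + ∑ q ∈ B, 4 * b q / q)) := by
  have h1 : ∀ n : ℕ, (∏ q ∈ A.filter (fun q => q ∣ n), (1 + b q) - 1) *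
      (1 + ∑ q ∈ B.filter (fun q => q ∣ n), b q) =
      ∑ E ∈ A.powerset.erase ∅, (∏ q ∈ E, (if q ∣ n then b q else 0) +
        ∑ r ∈ B, ∏ q ∈ insert r E, (if q ∣ n then b q else 0)) := by
    intro n
    rw [← km_expand A B hd, prod_filter, sum_filter]
    congr 2
    exact prod_congr rfl fun q _ => by split_ifs <;> simp
  simp only [h1]
  rw [km_expand A B hd]
  simp only [mul_sum, mul_add]
  rw [sum_comm]
  refine sum_le_sum fun E hE => ?_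
  have hE' : E ⊆ A := mem_powerset.1 (mem_of_mem_erase hE)
  rw [sum_add_distrib, sum_comm]
  refine add_le_add (km_basic X E (fun q hq => hA q (hE' hq)) b fun q hq => hbA q (hE' hq))
    (sum_le_sum fun r hr => km_basic X _ (fun q hq => ?_) b fun q hq => ?_)
  · rcases mem_insert.1 hq with rfl | h
    exacts [hB _ hr, hA q (hE' h)]
  · rcases mem_insert.1 hq with rfl | h
    exacts [hbB _ hr, hbA q (hE' h)]

theorem prod_sub_one_le {A : Finset ℕ} {c : ℕ → ℝ} (hc : ∀ q ∈ A, 0 ≤ c q) {y : ℝ}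
    (h : ∑ q ∈ A, c q ≤ y) (hy : y ≤ 1) : ∏ q ∈ A, (1 + c q) - 1 ≤ 2 * y := by
  have h0 : 0 ≤ ∑ q ∈ A, c q := sum_nonneg hc
  have h1 : ∏ q ∈ A, (1 + c q) ≤ exp (∑ q ∈ A, c q) := by
    rw [exp_sum]
    exact prod_le_prod (fun q hq => by linarith [hc q hq])
      fun q _ => by linarith [add_one_le_exp (c q)]
  have h2 := Real.abs_exp_sub_one_le (x := ∑ q ∈ A, c q) (by rw [abs_of_nonneg h0]; linarith)
  rw [abs_of_nonneg h0] at h2
  have := le_abs_self (exp (∑ q ∈ A, c q) - 1)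
  linarith

end Pool.Agent.Lib.MP_b09490_nt.No
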