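import Pool.Agent.Lib.MP_b09490_nt.No.KMean
import Pool.Agent.Lib.MP_b09490_nt.No.KDefs

/-!
Pointwise bound for the majorant and its weighted mean.
-/

open Finset Real Filter Topology

namespace Pool.Agent.Lib.MP_b09490_nt.No

/-- The primes of the blocks with index in `J`. -/
def UU (J : Finset ℕ) : Finset ℕ := J.biUnion blk

theorem mem_UU {J : Finset ℕ} {q : ℕ} : q ∈ UU J ↔ q.Prime ∧ Nat.log 2 q ∈ J := by
  simp only [UU, mem_biUnion, mem_blk_iff_log]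
  constructor
  · rintro ⟨j, hj, hq, rfl⟩; exact ⟨hq, hj⟩
  · rintro ⟨hq, hj⟩; exact ⟨_, hj, hq, rfl⟩

theorem sum_UU (J : Finset ℕ) (φ : ℕ → ℝ) :
    ∑ q ∈ UU J, φ q = ∑ j ∈ J, ∑ q ∈ blk j, φ q :=
  sum_biUnion fun _ _ _ _ hij => disjoint_left.2 fun _ h1 h2 => hij (blk_unique h1 h2)

/-- Side blocks. -/
def J1 (k M : ℕ) : Finset ℕ := (Ico 1 k).filter fun j => j < M

/-- Big blocks. -/
def J2 (k M : ℕ) : Finset ℕ := (Ico 1 k).filter fun j => M ≤ j

theorem disj_UU (k M : ℕ) : Disjoint (UU (J1 k M)) (UU (J2 k M)) :=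
  disjoint_left.2 fun q h1 h2 => by
    have a := (mem_filter.1 (mem_UU.1 h1).2).2
    have b := (mem_filter.1 (mem_UU.1 h2).2).2
    omega

theorem union_UU (k M : ℕ) : UU (J1 k M) ∪ UU (J2 k M) = UU (Ico 1 k) := by
  ext q
  simp only [mem_union, mem_UU, J1, J2, mem_filter]
  constructor
  · rintro (h | h) <;> exact ⟨h.1, h.2.1⟩
  · rintro ⟨h1, h2⟩
    rcases lt_or_ge (Nat.log 2 q) M with h | h
    exacts [Or.inl ⟨h1, h2, h⟩, Or.inr ⟨h1, h2, h⟩]

theorem card_big_le {k M n : ℕ} (hM : k + 3 ≤ 2 * M) (hn : n ∈ Icc 1 (2 ^ (k + 2))) :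
    #((UU (J2 k M)).filter fun q => q ∣ n) ≤ 1 := by
  rw [card_le_one]
  intro a ha b hb
  by_contra hab
  obtain ⟨ha1, ha2⟩ := mem_filter.1 ha
  obtain ⟨hb1, hb2⟩ := mem_filter.1 hb
  obtain ⟨pa, ha3⟩ := mem_UU.1 ha1
  obtain ⟨pb, hb3⟩ := mem_UU.1 hb1
  have la : 2 ^ M ≤ a := (Nat.pow_le_pow_right (by norm_num) (mem_filter.1 ha3).2).trans
    (Nat.pow_log_le_self 2 pa.ne_zero)
  have lb : 2 ^ M ≤ b := (Nat.pow_le_pow_right (by norm_num) (mem_filter.1 hb3).2).trans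
    (Nat.pow_log_le_self 2 pb.ne_zero)
  obtain ⟨h1, h2⟩ := mem_Icc.1 hn
  have h3 : a * b ≤ n := Nat.le_of_dvd h1
    (((Nat.coprime_primes pa pb).2 hab).mul_dvd_of_dvd_of_dvd ha2 hb2)
  have h4 : 2 ^ (k + 3) ≤ 2 ^ M * 2 ^ M := by
    rw [← pow_add]; exact Nat.pow_le_pow_right (by norm_num) (by omega)
  have h5 := Nat.mul_le_mul la lb
  have h6 : 2 ^ (k + 2) < 2 ^ (k + 3) := Nat.pow_lt_pow_right (by norm_num) (by omega)
  omega

theorem min_add_pow_le {S ρ : ℝ} (hS : 0 ≤ S) (hρ : 0 ≤ ρ) (κ : ℕ) :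
    min 1 (S + ρ) ^ κ ≤ S ^ κ + κ * ρ := by
  rcases le_total 1 S with h | h
  · rw [min_eq_left (by linarith), one_pow]
    have := one_le_pow₀ (n := κ) h
    have : (0 : ℝ) ≤ κ * ρ := by positivity
    linarith
  · have h0 : 0 ≤ min 1 (S + ρ) := le_min zero_le_one (by linarith)
    have h1 : min 1 (S + ρ) ≤ 1 := min_le_left _ _
    have h2 : min 1 (S + ρ) ≤ S + ρ := min_le_right _ _
    generalize min 1 (S + ρ) = t at *
    induction κ with
    | zero => simp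
    | succ κ ih =>
      have a1 : S ^ κ ≤ 1 := pow_le_one₀ hS h
      have a2 : 0 ≤ S ^ κ := pow_nonneg hS _
      have a3 : (0 : ℝ) ≤ κ * ρ := by positivity
      have a4 := mul_le_mul_of_nonneg_right ih h0
      have a5 := mul_le_mul_of_nonneg_left h2 a2
      have a6 := mul_le_mul_of_nonneg_left h1 a3
      have a7 := mul_le_mul_of_nonneg_right a1 hρ
      rw [pow_succ, pow_succ]
      push_cast
      nlinarith

theorem HH_split {h : ℕ → ℝ} (hh : Adm h) (k : ℕ) {n : ℕ} (hn : n ≠ 0) :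
    HH h n ≤ ∑ q ∈ (UU (Ico 1 k)).filter (fun q => q ∣ n), h q * lg q +
      (∑ q ∈ n.primeFactors, ((n.factorization q : ℝ) - 1) * lg q +
        ∑ q ∈ n.primeFactors.filter (fun q => 2 ^ k ≤ q), lg q) := by
  have e1 : (UU (Ico 1 k)).filter (fun q => q ∣ n) =
      n.primeFactors.filter (fun q => ¬ 2 ^ k ≤ q) := by
    ext q
    simp only [mem_filter, mem_UU, mem_Ico, Nat.mem_primeFactors, not_le]
    constructor
    · rintro ⟨⟨h1, _, h3⟩, h4⟩
      exact ⟨⟨h1, h4, hn⟩, (Nat.log_lt_iff_lt_pow (by norm_num) h1.ne_zero).1 h3⟩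
    · rintro ⟨⟨h1, h4, _⟩, h3⟩
      exact ⟨⟨h1, one_le_of_mem_blk (mem_blk_log h1),
        (Nat.log_lt_iff_lt_pow (by norm_num) h1.ne_zero).2 h3⟩, h4⟩
  rw [e1, sum_filter, sum_filter, ← sum_add_distrib, ← sum_add_distrib]
  refine sum_le_sum fun q hq => ?_
  have hp := Nat.prime_of_mem_primeFactors hq
  have h1 : (1 : ℝ) ≤ n.factorization q := by
    exact_mod_cast hp.factorization_pos_of_dvd hn (Nat.dvd_of_mem_primeFactors hq)
  have h2 : h q * lg q ≤ lg q := mul_le_of_le_one_left (lg_nonneg q) (hh.le_one q hp)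
  have h3 := mul_le_mul_of_nonneg_left h2 (sub_nonneg.2 h1)
  split_ifs <;> linarith

/-- The normalised contribution of the prime `q`. -/
noncomputable def xx (h : ℕ → ℝ) (k : ℕ) (V : ℝ) (q : ℕ) : ℝ := h q * lg q / (k * V)

/-- The weight of the prime `q` in the cross terms. -/
noncomputable def bb (K : ℕ) (x : ℕ → ℝ) (q : ℕ) : ℝ := 2 ^ (K + 1) * (x q + x q ^ K)

theorem xx_nonneg {h : ℕ → ℝ} (hh : Adm h) (k : ℕ) {V : ℝ} (hV : 0 < V) {q : ℕ} (hq : q.Prime) :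
    0 ≤ xx h k V q :=
  div_nonneg (mul_nonneg (hh.nonneg q hq) (lg_nonneg q)) (by positivity)

theorem point {K : ℕ} (hK : 1 ≤ K) {h : ℕ → ℝ} (hh : Adm h) {k M : ℕ} (hk : 1 ≤ k)
    (hM : k + 3 ≤ 2 * M) {V c : ℝ} (hV : 0 < V) (hc : 0 ≤ c) {n : ℕ}
    (hn : n ∈ Icc 1 (2 ^ (k + 2))) :
    min 1 ((HH h n + c) / k) ^ (K + 1) ≤
      V ^ (K + 1) * (∑ q ∈ (UU (Ico 1 k)).filter (fun q => q ∣ n), xx h k V q ^ (K + 1) +
        (∏ q ∈ (UU (J1 k M)).filter (fun q => q ∣ n), (1 + bb K (xx h k V) q) - 1) *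
          (1 + ∑ q ∈ (UU (J2 k M)).filter (fun q => q ∣ n), bb K (xx h k V) q)) +
      (K + 1) / k * (c + ∑ q ∈ n.primeFactors, ((n.factorization q : ℝ) - 1) * lg q +
        ∑ q ∈ n.primeFactors.filter (fun q => 2 ^ k ≤ q), lg q) := by
  have hn0 : n ≠ 0 := by have := (mem_Icc.1 hn).1; omega
  have hk0 : (0 : ℝ) < k := by exact_mod_cast hk
  have hx : ∀ q ∈ (UU (Ico 1 k)).filter (fun q => q ∣ n), 0 ≤ xx h k V q :=
    fun q hq => xx_nonneg hh k hV (mem_UU.1 (mem_filter.1 hq).1).1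
  have h1 := HH_split hh k hn0
  have hP : 0 ≤ ∑ q ∈ n.primeFactors, ((n.factorization q : ℝ) - 1) * lg q :=
    sum_nonneg fun q hq => mul_nonneg (sub_nonneg.2 (by
      exact_mod_cast (Nat.prime_of_mem_primeFactors hq).factorization_pos_of_dvd hn0
        (Nat.dvd_of_mem_primeFactors hq))) (lg_nonneg q)
  have hQ : 0 ≤ ∑ q ∈ n.primeFactors.filter (fun q => 2 ^ k ≤ q), lg q :=
    sum_nonneg fun q _ => lg_nonneg q
  have h2 : ∑ q ∈ (UU (Ico 1 k)).filter (fun q => q ∣ n), h q * lg q =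
      k * (V * ∑ q ∈ (UU (Ico 1 k)).filter (fun q => q ∣ n), xx h k V q) := by
    rw [mul_sum, mul_sum]
    refine sum_congr rfl fun q _ => ?_
    unfold xx
    field_simp
  have h3 := pw K hK (xx h k V) (disjoint_filter_filter (disj_UU k M)) (card_big_le hM hn)
    (by rw [← filter_union, union_UU]; exact hx)
  rw [← filter_union, union_UU] at h3
  have hS := sum_nonneg hx
  rw [h2] at h1
  simp only [bb]
  generalize (∑ q ∈ (UU (Ico 1 k)).filter (fun q => q ∣ n), xx h k V q) = S at *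
  generalize (∑ q ∈ n.primeFactors, ((n.factorization q : ℝ) - 1) * lg q) = P at *
  generalize (∑ q ∈ n.primeFactors.filter (fun q => 2 ^ k ≤ q), lg q) = Q at *
  have h4 : (HH h n + c) / k ≤ V * S + (c + P + Q) / k := by
    rw [div_le_iff₀ hk0, add_mul, div_mul_cancel₀ _ hk0.ne']
    linarith
  have h0 := HH_nonneg hh.nonneg n
  refine (pow_le_pow_left₀ (le_min zero_le_one (by positivity)) (min_le_min_left 1 h4) _).trans ?_
  refine (min_add_pow_le (by positivity) (by positivity) _).trans ?_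
  rw [mul_pow]
  refine add_le_add (mul_le_mul_of_nonneg_left h3 (by positivity)) (le_of_eq ?_)
  push_cast
  ring

theorem kmean : ∃ C : ℝ, 0 ≤ C ∧ ∀ {K : ℕ}, 1 ≤ K → ∀ {h : ℕ → ℝ}, Adm h → ∀ {k M : ℕ}, 1 ≤ k →
    k + 3 ≤ 2 * M → ∀ {V c : ℝ}, 0 < V → 0 ≤ c →
    ∑ n ∈ Icc 1 (2 ^ (k + 2)), gw n * min 1 ((HH h n + c) / k) ^ (K + 1) ≤
      2 ^ k * (V ^ (K + 1) * (336 * ∑ q ∈ UU (Ico 1 k), xx h k V q ^ (K + 1) / q +
        84 * ((∏ q ∈ UU (J1 k M), (1 + 4 * bb K (xx h k V) q / q) - 1) *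
          (1 + ∑ q ∈ UU (J2 k M), 4 * bb K (xx h k V) q / q))) +
      (K + 1) / k * (84 * c + C)) := by
  obtain ⟨C, hC, hpp⟩ := sum_gw_pp
  refine ⟨4 * C + 8064, by positivity, fun {K} hK {h} hh {k M} hk hM {V c} hV hc => ?_⟩
  have hb : ∀ J, ∀ q ∈ UU J, 0 ≤ bb K (xx h k V) q := fun J q hq => by
    have := xx_nonneg hh k hV (mem_UU.1 hq).1
    unfold bb; positivity
  have a1 := sum_gw_single (2 ^ (k + 2)) (UU (Ico 1 k)) (fun q hq => (mem_UU.1 hq).1)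
    (fun q => xx h k V q ^ (K + 1))
    fun q hq => pow_nonneg (xx_nonneg hh k hV (mem_UU.1 hq).1) _
  have a2 := mean_cross (2 ^ (k + 2)) (fun q hq => (mem_UU.1 hq).1) (fun q hq => (mem_UU.1 hq).1)
    (disj_UU k M) (bb K (xx h k V)) (hb _) (hb _)
  have a3 := sum_gw_le (2 ^ (k + 2))
  have a4 := hpp (2 ^ (k + 2))
  have a5 := sum_gw_big k
  refine (sum_le_sum fun n hn => mul_le_mul_of_nonneg_left (point hK hh hk hM hV hc hn)
    (zero_le_one.trans (one_le_gw n))).trans ?_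
  have e : ∀ g a b p q : ℝ, g * (V ^ (K + 1) * (a + b) + (K + 1) / k * (c + p + q)) =
      V ^ (K + 1) * (g * a) + V ^ (K + 1) * (g * b) + (K + 1) / k * c * g +
        (K + 1) / k * (g * p) + (K + 1) / k * (g * q) := fun g a b p q => by ring
  simp only [e, sum_add_distrib, ← mul_sum]
  have hW : 0 ≤ V ^ (K + 1) := by positivity
  have hY : (0 : ℝ) ≤ (K + 1) / k := by positivity
  have b1 := mul_le_mul_of_nonneg_left a1 hW
  have b2 := mul_le_mul_of_nonneg_left a2 hW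
  have b3 := mul_le_mul_of_nonneg_left a3 (mul_nonneg hY hc)
  have b4 := mul_le_mul_of_nonneg_left a4 hY
  have b5 := mul_le_mul_of_nonneg_left a5 hY
  refine (add_le_add (add_le_add (add_le_add (add_le_add b1 b2) b3) b4) b5).trans (le_of_eq ?_)
  push_cast
  ring

end Pool.Agent.Lib.MP_b09490_nt.No
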