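import Pool.Agent.Lib.MP_b09490_nt.No.GwP

/-!
From primes to integers.
-/

open Finset Real Filter Topology

namespace Pool.Agent.Lib.MP_b09490_nt.No

open Pool.Agent.Lib.MP_778b46_nt

/-- `D n - t lg n` is completely additive. -/
theorem abs_sub_le_sum (t : ℝ) {n : ℕ} (hn : n ≠ 0) :
    |(D n : ℝ) - t * lg n|
      ≤ ∑ q ∈ n.primeFactors, (n.factorization q : ℝ) * |(D q : ℝ) - t * lg q| := by
  have _ := hn
  have e : (D n : ℝ) - t * lg n
      = ∑ q ∈ n.primeFactors, (n.factorization q : ℝ) * ((D q : ℝ) - t * lg q) := by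
    rw [D, lg, Real.logb_nat_eq_sum_factorization, Finsupp.sum, Finsupp.sum, Nat.cast_sum, mul_sum,
      ← sum_sub_distrib]
    refine sum_congr rfl fun q hq => ?_
    rw [D_prime (Nat.prime_of_mem_primeFactors hq), lg]
    push_cast
    ring
  rw [e]
  exact (abs_sum_le_sum_abs _ _).trans_eq (sum_congr rfl fun q _ => by
    rw [abs_mul, Nat.abs_cast])

theorem mean1_abs {t : ℝ} (ht0 : 0 ≤ t) (ht1 : t ≤ 1) (q : ℕ) : |(D q : ℝ) - t * lg q| ≤ lg q := by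
  have h1 := D_le_lg q
  have h2 := mul_nonneg ht0 (lg_nonneg q)
  have h3 := mul_le_of_le_one_left (lg_nonneg q) ht1
  have h4 : (0 : ℝ) ≤ D q := Nat.cast_nonneg _
  exact abs_le.2 ⟨by linarith, by linarith⟩

theorem mean1_single (X : ℕ) (φ : ℕ → ℝ) (hφ : ∀ q, 0 ≤ φ q) :
    ∑ n ∈ Icc 1 X, ∑ q ∈ n.primeFactors, φ q ≤ X * ∑ q ∈ Nat.primesLE X, φ q / q := by
  rw [sum_comm' (t' := Nat.primesLE X) (s' := fun q => (Ioc 0 X).filter (q ∣ ·)) fun n q => by
    simp only [mem_Icc, Nat.mem_primeFactors, mem_filter, mem_Ioc, Nat.mem_primesLE]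
    exact ⟨fun h => ⟨⟨h.1, h.2.2.1⟩, (Nat.le_of_dvd h.1.1 h.2.2.1).trans h.1.2, h.2.1⟩,
      fun h => ⟨h.1.1, h.2.2, h.1.2, h.1.1.1.ne'⟩⟩, mul_sum]
  refine sum_le_sum fun q _ => ?_
  rw [sum_const, Nat.Ioc_filter_dvd_card_eq_div, nsmul_eq_mul, ← mul_div_assoc, mul_div_right_comm]
  exact mul_le_mul_of_nonneg_right Nat.cast_div_le (hφ q)

theorem sum_abs_le : ∃ C : ℝ, 0 ≤ C ∧ ∀ t : ℝ, 0 ≤ t → t ≤ 1 → ∀ X : ℕ,
    ∑ n ∈ Icc 1 X, |(D n : ℝ) - t * lg n|
      ≤ X * ∑ q ∈ Nat.primesLE X, |(D q : ℝ) - t * lg q| / q + C * X := by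
  obtain ⟨C, h0, hC⟩ := sum_gw_pp
  refine ⟨C, h0, fun t ht0 ht1 X => le_trans ?_
    (add_le_add (mean1_single X _ fun q => abs_nonneg _) (hC X))⟩
  rw [← sum_add_distrib]
  refine sum_le_sum fun n hn => ?_
  have n0 : n ≠ 0 := Nat.one_le_iff_ne_zero.1 (mem_Icc.1 hn).1
  have h1 : ∀ q ∈ n.primeFactors, (0 : ℝ) ≤ (n.factorization q : ℝ) - 1 := fun q hq =>
    sub_nonneg.2 (Nat.one_le_cast.2 ((Nat.prime_of_mem_primeFactors hq).factorization_pos_of_dvd n0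
      (Nat.dvd_of_mem_primeFactors hq)))
  refine (abs_sub_le_sum t n0).trans (le_trans ?_ (add_le_add le_rfl (le_mul_of_one_le_left
    (sum_nonneg fun q hq => mul_nonneg (h1 q hq) (lg_nonneg q)) (one_le_gw n))))
  rw [← sum_add_distrib]
  refine sum_le_sum fun q hq => ?_
  have := mul_le_mul_of_nonneg_left (mean1_abs ht0 ht1 q) (h1 q hq)
  linarith

theorem blk_abs_le {t y : ℝ} (ht0 : 0 ≤ t) (ht1 : t ≤ 1) (hy : 0 ≤ y) (j : ℕ) :
    ∑ q ∈ blk j, |(D q : ℝ) - t * lg q| / q ≤ 8 * y + 2 * shU (t + y) j + 2 * shL (t - y) j := by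
  refine (sum_div_blk_le _ fun q _ => abs_nonneg _).trans ?_
  have h1 : ∑ q ∈ blk j, |(D q : ℝ) - t * lg q| ≤ ∑ q ∈ blk j, 2 * (j : ℝ) * (y +
      (if (t + y) * lg q < D q then 1 else 0) + if (D q : ℝ) < (t - y) * lg q then 1 else 0) :=
    sum_le_sum fun q hq => by
      have a1 := lg_le_two_mul_blk hq
      have a2 := mean1_abs ht0 ht1 q
      have a3 := mul_le_mul_of_nonneg_right a1 hy
      have a4 := mul_nonneg (lg_nonneg q) hy
      have a5 := lg_nonneg q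
      split_ifs with b1 b2 b2
      · linarith
      · linarith
      · linarith
      · exact abs_le.2 ⟨by linarith, by linarith⟩
  rw [← mul_sum, sum_add_distrib, sum_add_distrib, sum_boole, sum_boole, sum_const,
    nsmul_eq_mul] at h1
  have h2 := mul_le_mul_of_nonneg_right (mul_card_blk_le j) hy
  have h3 : (0 : ℝ) < 2 ^ j := by positivity
  refine div_le_of_le_mul₀ (Nat.cast_nonneg j)
    (by have := shU_nonneg (t + y) j; have := shL_nonneg (t - y) j; positivity)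
    ((mul_le_mul_of_nonneg_left h1 (by positivity)).trans ?_)
  rw [shU, shL, ← sub_nonneg]
  have h4 := mul_nonneg (div_nonneg (Nat.cast_nonneg (α := ℝ) j) h3.le) (sub_nonneg.2 h2)
  refine (mul_nonneg zero_le_two h4).trans_eq ?_
  field_simp
  ring

end Pool.Agent.Lib.MP_b09490_nt.No
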