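import Pool.Agent.Lib.MP_778b46_nt.Sieve

/-!
Correlation of two expanded Selberg majorants against a periodic weight.
-/

open Finset Real

namespace Pool.Agent.Lib.MP_b09490_nt.No

open Pool.Agent.Lib.MP_778b46_nt

/-- Local bound attached to a prime and a pair of index sets. -/
noncomputable def loc (A B C : ℕ → ℝ) (U U' : Finset ℕ) (l : ℕ) : ℝ :=
  if l ∈ U then (if l ∈ U' then C l else A l) else (if l ∈ U' then B l else 1)

lemma two_term (V W : Finset ℕ) (hV : ∀ l ∈ V, l.Prime) (hW : ∀ l ∈ W, l.Prime)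
    (hd : Disjoint W V) (j f f' : ℕ → ℤ → ℝ)
    (hj : ∀ l s s', s ≡ s' [ZMOD (l : ℕ)] → j l s = j l s')
    (hf : ∀ l s s', s ≡ s' [ZMOD (l : ℕ)] → f l s = f l s')
    (hf' : ∀ l s s', s ≡ s' [ZMOD (l : ℕ)] → f' l s = f' l s')
    (bj : ∀ l ∈ W, ∀ s, |j l s| ≤ 1) (bf : ∀ l ∈ V, ∀ s, |f l s| ≤ 1)
    (bf' : ∀ l ∈ V, ∀ s, |f' l s| ≤ 1) (A B C : ℕ → ℝ)
    (hA : ∀ l ∈ V, |∑ z ∈ range l, f l z| ≤ l * A l)
    (hB : ∀ l ∈ V, |∑ z ∈ range l, f' l z| ≤ l * B l)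
    (hC : ∀ l ∈ V, |∑ z ∈ range l, f l z * f' l z| ≤ l * C l)
    {U U' : Finset ℕ} (hU : U ⊆ V) (hU' : U' ⊆ V) (y : ℤ) (N : ℕ) :
    |∑ s ∈ Ioc y (y + N), (∏ l ∈ W, j l s) * ((∏ l ∈ U, f l s) * ∏ l ∈ U', f' l s)| ≤
      N * ∏ l ∈ V, loc A B C U U' l +
        ((∏ l ∈ W, l : ℕ) : ℝ) * (((∏ l ∈ U, l : ℕ) : ℝ) * ((∏ l ∈ U', l : ℕ) : ℝ)) := by
  have hsub : U ∪ U' ⊆ V := union_subset hU hU'
  have hd' : Disjoint W (U ∪ U') := hd.mono_right hsub
  set F : ℕ → ℤ → ℝ := fun l s =>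
    if l ∈ W then j l s else (if l ∈ U then f l s else 1) * (if l ∈ U' then f' l s else 1) with hF
  have hX : ∀ l ∈ W ∪ (U ∪ U'), l.Prime := fun l hl => by
    rcases mem_union.mp hl with h | h
    exacts [hW l h, hV l (hsub h)]
  have h := sum_prod_periodic F (fun l s s' hs => by
    simp only [hF, hj l s s' hs, hf l s s' hs, hf' l s s' hs]) y N (W ∪ (U ∪ U')) hX
  have nW : ∀ l ∈ U ∪ U', l ∉ W := fun l hl hw => disjoint_left.mp hd' hw hl
  have e1 : ∀ s : ℤ, ∏ l ∈ W ∪ (U ∪ U'), F l s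
      = (∏ l ∈ W, j l s) * ((∏ l ∈ U, f l s) * ∏ l ∈ U', f' l s) := by
    intro s
    rw [prod_union hd', prod_eq_prod_ite (P := U ∪ U') subset_union_left,
      prod_eq_prod_ite (P := U ∪ U') subset_union_right, ← prod_mul_distrib]
    congr 1
    · exact prod_congr rfl fun l hl => by simp only [hF, if_pos hl]
    · exact prod_congr rfl fun l hl => by simp only [hF, if_neg (nW l hl)]
  have bF : ∀ l ∈ W ∪ (U ∪ U'), ∀ s, |F l s| ≤ 1 := by
    intro l hl s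
    simp only [hF]
    by_cases hw : l ∈ W
    · rw [if_pos hw]; exact bj l hw s
    · have hv : l ∈ V := hsub ((mem_union.mp hl).resolve_left hw)
      rw [if_neg hw, abs_mul]
      have h1 := bf l hv s
      have h2 := bf' l hv s
      refine mul_le_one₀ ?_ (abs_nonneg _) ?_ <;> split_ifs <;> simp [h1, h2]
  have bS : ∀ l ∈ W ∪ (U ∪ U'), ∑ z ∈ range l, |F l z| ≤ l := fun l hl => by
    calc _ ≤ ∑ z ∈ range l, (1 : ℝ) := sum_le_sum fun z _ => bF l hl z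
      _ = l := by simp
  have e2 : |∏ l ∈ W ∪ (U ∪ U'), ((∑ z ∈ range l, F l z) / l)| ≤ ∏ l ∈ V, loc A B C U U' l := by
    rw [abs_prod, prod_union hd']
    have h1 : ∏ l ∈ W, |(∑ z ∈ range l, F l z) / l| ≤ 1 := by
      refine prod_le_one (fun l _ => abs_nonneg _) fun l hl => ?_
      have hl0 : (0 : ℝ) < l := by exact_mod_cast (hW l hl).pos
      rw [abs_div, abs_of_pos hl0, div_le_one hl0]
      exact (abs_sum_le_sum_abs _ _).trans (bS l (mem_union_left _ hl))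
    have h2 : ∏ l ∈ U ∪ U', |(∑ z ∈ range l, F l z) / l| ≤ ∏ l ∈ U ∪ U', loc A B C U U' l := by
      refine prod_le_prod (fun l _ => abs_nonneg _) fun l hl => ?_
      have hv := hsub hl
      have hl0 : (0 : ℝ) < l := by exact_mod_cast (hV l hv).pos
      rw [abs_div, abs_of_pos hl0, div_le_iff₀' hl0]
      simp only [hF, if_neg (nW l hl), loc]
      by_cases h3 : l ∈ U <;> by_cases h4 : l ∈ U'
      · simp only [if_pos h3, if_pos h4]; exact hC l hv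
      · simp only [if_pos h3, if_neg h4, mul_one]; exact hA l hv
      · simp only [if_neg h3, if_pos h4, one_mul]; exact hB l hv
      · exact absurd (mem_union.mp hl) (by tauto)
    have h3 : ∏ l ∈ U ∪ U', loc A B C U U' l = ∏ l ∈ V, loc A B C U U' l := by
      refine prod_subset hsub fun l _ hl => ?_
      rw [mem_union, not_or] at hl
      simp only [loc, if_neg hl.1, if_neg hl.2]
    rw [← h3]
    calc _ ≤ 1 * ∏ l ∈ U ∪ U', |(∑ z ∈ range l, F l z) / l| :=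
          mul_le_mul_of_nonneg_right h1 (prod_nonneg fun l _ => abs_nonneg _)
      _ ≤ _ := by rw [one_mul]; exact h2
  have e3 : ∏ l ∈ W ∪ (U ∪ U'), ∑ z ∈ range l, |F l z| ≤
      ((∏ l ∈ W, l : ℕ) : ℝ) * (((∏ l ∈ U, l : ℕ) : ℝ) * ((∏ l ∈ U', l : ℕ) : ℝ)) := by
    calc _ ≤ ∏ l ∈ W ∪ (U ∪ U'), (l : ℝ) :=
          prod_le_prod (fun l _ => sum_nonneg fun z _ => abs_nonneg _) bS
      _ ≤ _ := by
          rw [prod_union hd', ← Nat.cast_prod, ← Nat.cast_prod]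
          gcongr
          exact_mod_cast prod_union_le hV hU
  simp only [e1] at h
  have h5 := abs_sub_abs_le_abs_sub
    (∑ s ∈ Ioc y (y + N), (∏ l ∈ W, j l s) * ((∏ l ∈ U, f l s) * ∏ l ∈ U', f' l s))
    (N * ∏ l ∈ W ∪ (U ∪ U'), ((∑ z ∈ range l, F l z) / l))
  rw [abs_mul, Nat.abs_cast] at h5
  have h6 := mul_le_mul_of_nonneg_left e2 (Nat.cast_nonneg (α := ℝ) N)
  linarith

lemma sum_loc (V : Finset ℕ) (A B C : ℕ → ℝ) :
    ∑ U ∈ V.powerset, ∑ U' ∈ V.powerset, 3 ^ U.card * 3 ^ U'.card * ∏ l ∈ V, loc A B C U U' l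
      = ∏ l ∈ V, (1 + 3 * A l + 3 * B l + 9 * C l) := by
  have h1 : ∀ U ∈ V.powerset, ∀ U' ∈ V.powerset,
      (3 : ℝ) ^ U.card * 3 ^ U'.card * ∏ l ∈ V, loc A B C U U' l = ∏ l ∈ V,
        (if l ∈ U' then (if l ∈ U then 9 * C l else 3 * B l)
          else (if l ∈ U then 3 * A l else 1)) := by
    intro U hU U' hU'
    rw [← prod_const, ← prod_const, prod_eq_prod_ite (mem_powerset.mp hU),
      prod_eq_prod_ite (mem_powerset.mp hU'), ← prod_mul_distrib, ← prod_mul_distrib]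
    refine prod_congr rfl fun l _ => ?_
    unfold loc
    split_ifs <;> ring
  rw [sum_congr rfl fun U hU => sum_congr rfl fun U' hU' => h1 U hU U' hU']
  have h2 : ∀ U : Finset ℕ, ∑ U' ∈ V.powerset, ∏ l ∈ V,
      (if l ∈ U' then (if l ∈ U then 9 * C l else 3 * B l)
          else (if l ∈ U then 3 * A l else 1)) =
      ∏ l ∈ V, (if l ∈ U then 9 * C l + 3 * A l else 3 * B l + 1) := by
    intro U
    rw [sum_powerset_prod_ite]
    refine prod_congr rfl fun l _ => ?_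
    split_ifs <;> rfl
  simp only [h2]
  rw [sum_powerset_prod_ite]
  exact prod_congr rfl fun l _ => by ring

/-- The correlation bound; `d` is subtracted when the empty set is left out. -/
theorem two (P P' W : Finset ℕ) (hP : ∀ l ∈ P, l.Prime) (hP' : ∀ l ∈ P', l.Prime)
    (hW : ∀ l ∈ W, l.Prime) (hd : Disjoint W (P ∪ P')) (R R' : ℕ) (j f f' : ℕ → ℤ → ℝ)
    (hj : ∀ l s s', s ≡ s' [ZMOD (l : ℕ)] → j l s = j l s')
    (hf : ∀ l s s', s ≡ s' [ZMOD (l : ℕ)] → f l s = f l s')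
    (hf' : ∀ l s s', s ≡ s' [ZMOD (l : ℕ)] → f' l s = f' l s')
    (bj : ∀ l ∈ W, ∀ s, |j l s| ≤ 1) (bf : ∀ l ∈ P ∪ P', ∀ s, |f l s| ≤ 1)
    (bf' : ∀ l ∈ P ∪ P', ∀ s, |f' l s| ≤ 1) (A B C : ℕ → ℝ)
    (hA : ∀ l ∈ P ∪ P', |∑ z ∈ range l, f l z| ≤ l * A l)
    (hB : ∀ l ∈ P ∪ P', |∑ z ∈ range l, f' l z| ≤ l * B l)
    (hC : ∀ l ∈ P ∪ P', |∑ z ∈ range l, f l z * f' l z| ≤ l * C l)
    (E E' : Finset (Finset ℕ)) (hE : E ⊆ P.powerset) (hE' : E' ⊆ P'.powerset) (d : ℝ)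
    (hd1 : d ≤ 0 ∨ (d ≤ 1 ∧ ∅ ∉ E)) (y : ℤ) (N : ℕ) :
    ∑ s ∈ Ioc y (y + N), (∏ l ∈ W, j l s) *
      ((∑ U ∈ E, beta P R U * ∏ l ∈ U, f l s) * ∑ U ∈ E', beta P' R' U * ∏ l ∈ U, f' l s) ≤
      N * (mert P * mert P') * (∏ l ∈ P ∪ P', (1 + 3 * A l + 3 * B l + 9 * C l) - d) +
        ((∏ l ∈ W, l : ℕ) : ℝ) * ((R : ℝ) ^ 4 * (R' : ℝ) ^ 4) := by
  set V := P ∪ P' with hVdef
  have hV : ∀ l ∈ V, l.Prime := fun l hl => by
    rcases mem_union.mp hl with h | h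
    exacts [hP l h, hP' l h]
  have pos : ∀ (X : ℕ → ℝ) (l : ℕ), l ∈ V → ∀ x : ℝ, |x| ≤ l * X l → 0 ≤ X l := by
    intro X l hl x hx
    have hl0 : (0 : ℝ) < l := by exact_mod_cast (hV l hl).pos
    exact nonneg_of_mul_nonneg_right ((abs_nonneg x).trans hx) hl0 |> fun h => h
  have hloc : ∀ U U' : Finset ℕ, 0 ≤ ∏ l ∈ V, loc A B C U U' l := fun U U' =>
    prod_nonneg fun l hl => by
      unfold loc
      split_ifs
      exacts [pos C l hl _ (hC l hl), pos A l hl _ (hA l hl), pos B l hl _ (hB l hl), zero_le_one]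
  have hm := one_le_mert hP
  have hm' := one_le_mert hP'
  have e0 : ∑ s ∈ Ioc y (y + N), (∏ l ∈ W, j l s) *
      ((∑ U ∈ E, beta P R U * ∏ l ∈ U, f l s) * ∑ U ∈ E', beta P' R' U * ∏ l ∈ U, f' l s) =
      ∑ U ∈ E, ∑ U' ∈ E', beta P R U * beta P' R' U' *
        ∑ s ∈ Ioc y (y + N), (∏ l ∈ W, j l s) * ((∏ l ∈ U, f l s) * ∏ l ∈ U', f' l s) := by
    have e : ∀ s : ℤ, (∏ l ∈ W, j l s) *
        ((∑ U ∈ E, beta P R U * ∏ l ∈ U, f l s) * ∑ U ∈ E', beta P' R' U * ∏ l ∈ U, f' l s) =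
        ∑ U ∈ E, ∑ U' ∈ E', beta P R U * beta P' R' U' *
          ((∏ l ∈ W, j l s) * ((∏ l ∈ U, f l s) * ∏ l ∈ U', f' l s)) := by
      intro s
      rw [sum_mul_sum, mul_sum]
      refine sum_congr rfl fun U _ => ?_
      rw [mul_sum]
      exact sum_congr rfl fun U' _ => by ring
    rw [sum_congr rfl fun s _ => e s, sum_comm]
    refine sum_congr rfl fun U _ => ?_
    rw [sum_comm]
    exact sum_congr rfl fun U' _ => by rw [mul_sum]
  have h3 : ∀ U ∈ E, ∀ U' ∈ E', beta P R U * beta P' R' U' *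
        ∑ s ∈ Ioc y (y + N), (∏ l ∈ W, j l s) * ((∏ l ∈ U, f l s) * ∏ l ∈ U', f' l s) ≤
      N * (mert P * mert P') * (3 ^ U.card * 3 ^ U'.card * ∏ l ∈ V, loc A B C U U' l) +
        ((∏ l ∈ W, l : ℕ) : ℝ) * ((R : ℝ) ^ 2 * (R' : ℝ) ^ 2) *
          (|beta P R U| * |beta P' R' U'|) := by
    intro U hU U' hU'
    have hUP := mem_powerset.mp (hE hU)
    have hUP' := mem_powerset.mp (hE' hU')
    have h4 := two_term V W hV hW hd j f f' hj hf hf' bj bf bf' A B C hA hB hC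
      (hUP.trans subset_union_left) (hUP'.trans subset_union_right) y N
    have hl := hloc U U'
    by_cases hU0 : beta P R U = 0
    · rw [hU0]; simp only [zero_mul, abs_zero, mul_zero, add_zero]; positivity
    by_cases hW0 : beta P' R' U' = 0
    · rw [hW0]; simp only [zero_mul, abs_zero, mul_zero, add_zero]; positivity
    have h5 : ((∏ l ∈ U, l : ℕ) : ℝ) ≤ (R : ℝ) ^ 2 := by
      exact_mod_cast prod_le_of_beta_ne hP hU0
    have h6 : ((∏ l ∈ U', l : ℕ) : ℝ) ≤ (R' : ℝ) ^ 2 := by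
      exact_mod_cast prod_le_of_beta_ne hP' hW0
    have h7 := abs_beta_le (R := R) hP hUP
    have h8 := abs_beta_le (R := R') hP' hUP'
    refine (le_abs_self _).trans ?_
    rw [abs_mul, abs_mul]
    refine (mul_le_mul_of_nonneg_left h4 (by positivity)).trans ?_
    rw [mul_add]
    refine add_le_add ?_ ?_
    · calc _ ≤ (3 ^ U.card * mert P) * (3 ^ U'.card * mert P') *
            (N * ∏ l ∈ V, loc A B C U U' l) := by gcongr
        _ = _ := by ring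
    · calc _ ≤ |beta P R U| * |beta P' R' U'| *
            (((∏ l ∈ W, l : ℕ) : ℝ) * ((R : ℝ) ^ 2 * (R' : ℝ) ^ 2)) := by gcongr
        _ = _ := by ring
  rw [e0]
  refine (sum_le_sum fun U hU => sum_le_sum fun U' hU' => h3 U hU U' hU').trans ?_
  simp only [sum_add_distrib, ← mul_sum]
  refine add_le_add ?_ ?_
  · refine mul_le_mul_of_nonneg_left ?_ (by positivity)
    rw [← sum_loc V A B C]
    set T : Finset ℕ → ℝ := fun U =>
      ∑ U' ∈ V.powerset, 3 ^ U.card * 3 ^ U'.card * ∏ l ∈ V, loc A B C U U' l with hT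
    have hT0 : ∀ U, 0 ≤ T U := fun U => sum_nonneg fun U' _ => by
      have := hloc U U'; positivity
    have hEV : E ⊆ V.powerset := hE.trans (powerset_mono.mpr subset_union_left)
    have hEV' : E' ⊆ V.powerset := hE'.trans (powerset_mono.mpr subset_union_right)
    have h9 : ∑ U ∈ E, ∑ U' ∈ E', (3 : ℝ) ^ U.card * 3 ^ U'.card * ∏ l ∈ V, loc A B C U U' l
        ≤ ∑ U ∈ E, T U := sum_le_sum fun U _ =>
      sum_le_sum_of_subset_of_nonneg hEV' fun U' _ _ => by have := hloc U U'; positivity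
    refine h9.trans ?_
    rcases hd1 with h | ⟨h, h0⟩
    · have := sum_le_sum_of_subset_of_nonneg hEV fun U _ _ => hT0 U
      linarith
    · have h10 : ∑ U ∈ insert ∅ E, T U ≤ ∑ U ∈ V.powerset, T U :=
        sum_le_sum_of_subset_of_nonneg (insert_subset (empty_mem_powerset V) hEV)
          fun U _ _ => hT0 U
      rw [sum_insert h0] at h10
      have h11 : (1 : ℝ) ≤ T ∅ := by
        have := single_le_sum (f := fun U' : Finset ℕ =>
          (3 : ℝ) ^ (∅ : Finset ℕ).card * 3 ^ U'.card * ∏ l ∈ V, loc A B C ∅ U' l)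
          (fun U' _ => by have := hloc ∅ U'; positivity) (empty_mem_powerset V)
        refine le_trans (le_of_eq ?_) this
        simp [loc]
      linarith
  · have h8 : ∑ U ∈ E, |beta P R U| ≤ (R : ℝ) ^ 2 :=
      (sum_le_sum_of_subset_of_nonneg hE fun _ _ _ => abs_nonneg _).trans (sum_abs_beta_le hP)
    have h9 : ∑ U ∈ E', |beta P' R' U| ≤ (R' : ℝ) ^ 2 :=
      (sum_le_sum_of_subset_of_nonneg hE' fun _ _ _ => abs_nonneg _).trans (sum_abs_beta_le hP')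
    have h10 : 0 ≤ ∑ U ∈ E', |beta P' R' U| := sum_nonneg fun _ _ => abs_nonneg _
    rw [← sum_mul]
    calc _ ≤ ((∏ l ∈ W, l : ℕ) : ℝ) * ((R : ℝ) ^ 2 * (R' : ℝ) ^ 2) *
          ((R : ℝ) ^ 2 * (R' : ℝ) ^ 2) := by gcongr
      _ = _ := by ring

end Pool.Agent.Lib.MP_b09490_nt.No
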