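import Pool.Agent.Lib.MP_b09490_nt.No.Defs
import Pool.Agent.Lib.MP_b09490_nt.No.Two

/-!
The sieve for the two forms s and a s + 1.
-/

open Finset Real Filter Topology

namespace Pool.Agent.Lib.MP_b09490_nt.No

open Pool.Agent.Lib.MP_778b46_nt

lemma ps_aff {l : ℕ} (hl : l.Prime) {a : ℤ} (h : ¬ (l : ℤ) ∣ a) :
    ∃ t : ℤ, (l : ℤ) ∣ a * t - 1 ∧ ∀ z : ℤ, ps l (a * z + 1) = ps l (z + t) := by
  have hp : Prime (l : ℤ) := Nat.prime_iff_prime_int.mp hl
  obtain ⟨c, t, hc⟩ := (hp.irreducible.coprime_iff_not_dvd.mpr h : IsCoprime (l : ℤ) a)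
  refine ⟨t, ⟨-c, by linear_combination hc⟩, fun z => ?_⟩
  have : (l : ℤ) ∣ a * z + 1 ↔ (l : ℤ) ∣ z + t := by
    constructor
    · rintro ⟨e, he⟩
      exact ⟨c * z + t * e, by linear_combination t * he - z * hc⟩
    · rintro ⟨e, he⟩
      exact ⟨c + a * e, by linear_combination a * he - hc⟩
  simp only [ps, this]

lemma ps_aff_congr (a : ℤ) (l : ℕ) (s s' : ℤ) (h : s ≡ s' [ZMOD (l : ℕ)]) :
    ps l (a * s + 1) = ps l (a * s' + 1) := ps_congr (h.mul_left a) 1

lemma ps_of_dvd {l : ℕ} (hl : l.Prime) {a : ℤ} (h : (l : ℤ) ∣ a) (z : ℤ) :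
    ps l (a * z + 1) = uu l := by
  refine if_neg fun h1 => ?_
  have h2 : (l : ℤ) ∣ 1 := (dvd_add_right (h.mul_right z)).mp h1
  exact hl.not_dvd_one (by exact_mod_cast h2)

lemma prod_nine_le {V : Finset ℕ} (hV : ∀ l ∈ V, l.Prime) :
    ∏ l ∈ V, (1 + 9 * uu l ^ 2) ≤ exp 18 := by
  have h3 : ∑ l ∈ V, uu l ^ 2 ≤ 2 := by
    simpa using sum_uu_sq_le (P := V) (w := 1) le_rfl fun l hl => (hV l hl).one_lt
  calc _ ≤ ∏ l ∈ V, exp (9 * uu l ^ 2) :=
        prod_le_prod (fun l _ => by positivity) fun l _ => by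
          linarith [add_one_le_exp (9 * uu l ^ 2)]
    _ = exp (9 * ∑ l ∈ V, uu l ^ 2) := by rw [← exp_sum, mul_sum]
    _ ≤ _ := exp_le_exp.mpr (by linarith)

lemma prod_dvd_le_gw {V : Finset ℕ} (hV : ∀ l ∈ V, l.Prime) {a : ℕ} (ha : a ≠ 0) :
    ∏ l ∈ V, (1 + 3 * if (l : ℤ) ∣ a then uu l else 0) ≤ gw a := by
  have e : ∏ l ∈ V, (1 + 3 * if (l : ℤ) ∣ a then uu l else 0) =
      ∏ l ∈ V.filter (fun l => l ∣ a), (1 + 3 * uu l) := by
    rw [prod_filter]
    refine prod_congr rfl fun l _ => ?_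
    simp only [Int.natCast_dvd_natCast]
    split_ifs <;> simp
  rw [e, gw]
  refine prod_le_prod_of_subset_of_one_le (fun l hl => ?_) (fun l hl => ?_) fun l hl _ => ?_
  · exact Nat.mem_primeFactors.mpr ⟨hV l (mem_filter.mp hl).1, (mem_filter.mp hl).2, ha⟩
  · linarith [uu_pos (hV l (mem_filter.mp hl).1)]
  · linarith [uu_pos (Nat.prime_of_mem_primeFactors hl)]

theorem pc {P P' : Finset ℕ} (hP : ∀ l ∈ P, l.Prime) (hP' : ∀ l ∈ P', l.Prime) {R R' : ℕ}
    (hR : 1 ≤ R) (hR' : 1 ≤ R') {a : ℕ} (ha : a ≠ 0) (y : ℤ) (N : ℕ) :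
    ∑ s ∈ Ioc y (y + N), nu P R s * nu P' R' (a * s + 1)
      ≤ N * (mert P / gg P R ^ 2) * (mert P' / gg P' R' ^ 2) * exp 18 * gw a
        + (R : ℝ) ^ 4 * (R' : ℝ) ^ 4 := by
  have hV : ∀ l ∈ P ∪ P', l.Prime := fun l hl => by
    rcases mem_union.mp hl with h | h
    exacts [hP l h, hP' l h]
  have s0 : ∀ l : ℕ, l.Prime → ∑ z ∈ range l, ps l z = 0 := fun l hl => by
    simpa using sum_ps hl 0
  have h := two P P' ∅ hP hP' (by simp) (disjoint_empty_left _) R R' (fun _ _ => 1)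
    (fun l s => ps l s) (fun l s => ps l (a * s + 1)) (fun _ _ _ _ => rfl)
    (fun l s s' hs => by simpa using ps_congr hs 0) (ps_aff_congr a) (by simp)
    (fun l hl s => abs_ps_le (hV l hl) s) (fun l hl s => abs_ps_le (hV l hl) _)
    (fun _ => 0) (fun l => if (l : ℤ) ∣ a then uu l else 0) (fun l => uu l ^ 2)
    (fun l hl => by rw [s0 l (hV l hl)]; simp)
    (fun l hl => by
      by_cases hd : (l : ℤ) ∣ a
      · simp only [ps_of_dvd (hV l hl) hd, if_pos hd, sum_const, card_range, nsmul_eq_mul]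
        exact (abs_of_nonneg (by have := uu_pos (hV l hl); positivity)).le
      · obtain ⟨t, _, ht⟩ := ps_aff (hV l hl) hd
        simp only [ht, sum_ps (hV l hl), if_neg hd]; simp)
    (fun l hl => by
      by_cases hd : (l : ℤ) ∣ a
      · simp only [ps_of_dvd (hV l hl) hd, ← sum_mul, s0 l (hV l hl), zero_mul, abs_zero]
        positivity
      · obtain ⟨t, ht0, ht⟩ := ps_aff (hV l hl) hd
        have h1 := sum_ps_mul (hV l hl) 0 t
        simp only [add_zero, zero_sub] at h1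
        have h2 : ¬ (l : ℤ) ∣ -t := fun h2 => by
          have h3 : (l : ℤ) ∣ 1 := by
            have := dvd_sub ((dvd_neg.mp h2).mul_left (a : ℤ)) ht0
            simpa using this
          exact (hV l hl).not_dvd_one (by exact_mod_cast h3)
        simp only [ht, h1, rho, if_neg h2, abs_mul, abs_neg, Nat.abs_cast, abs_pow, sq_abs]
        exact le_rfl)
    P.powerset P'.powerset subset_rfl subset_rfl 0 (Or.inl le_rfl) y N
  simp only [prod_empty, one_mul, ← sig_sq, Nat.cast_one, sub_zero, mul_zero, add_zero] at h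
  have hg := one_le_gg hP hR
  have hg' := one_le_gg hP' hR'
  have hm := one_le_mert hP
  have hm' := one_le_mert hP'
  have h1 : ∏ l ∈ P ∪ P', (1 + 3 * (if (l : ℤ) ∣ a then uu l else 0) + 9 * uu l ^ 2) ≤
      exp 18 * gw a := by
    have p0 : ∀ l ∈ P ∪ P', 0 ≤ (if (l : ℤ) ∣ a then uu l else 0) := fun l hl => by
      have := uu_pos (hV l hl)
      split_ifs <;> positivity
    calc _ ≤ ∏ l ∈ P ∪ P', ((1 + 9 * uu l ^ 2) * (1 + 3 * if (l : ℤ) ∣ a then uu l else 0)) := by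
          refine prod_le_prod (fun l hl => by have := p0 l hl; positivity) fun l hl => ?_
          have := mul_nonneg (sq_nonneg (uu l)) (p0 l hl)
          nlinarith
      _ ≤ _ := by
          rw [prod_mul_distrib]
          exact mul_le_mul (prod_nine_le hV) (prod_dvd_le_gw hV ha)
            (prod_nonneg fun l hl => by have := p0 l hl; positivity) (exp_pos _).le
  have e : ∑ s ∈ Ioc y (y + N), nu P R s * nu P' R' (a * s + 1) =
      (∑ s ∈ Ioc y (y + N), sig P R s ^ 2 * sig P' R' (a * s + 1) ^ 2) /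
        (gg P R ^ 2 * gg P' R' ^ 2) := by
    rw [sum_div]
    refine sum_congr rfl fun s _ => ?_
    rw [nu, nu]; field_simp
  have hG : 1 ≤ gg P R ^ 2 * gg P' R' ^ 2 :=
    one_le_mul_of_one_le_of_one_le (one_le_pow₀ hg) (one_le_pow₀ hg')
  rw [e]
  calc _ ≤ (N * (mert P * mert P') * (exp 18 * gw a) + (R : ℝ) ^ 4 * (R' : ℝ) ^ 4) /
        (gg P R ^ 2 * gg P' R' ^ 2) := by
        refine div_le_div_of_nonneg_right (h.trans ?_) (by positivity)
        gcongr
    _ ≤ _ := by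
        rw [add_div]
        refine add_le_add (le_of_eq (by field_simp)) (div_le_self (by positivity) hG)

end Pool.Agent.Lib.MP_b09490_nt.No
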