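import Mathlib

/-! Abstract quantile argument: step, propagation, concentration, and the final contradiction. -/

namespace Pool.Agent.Lib.MP_b09490_nt.No

open Finset Filter

/-- Mass of the block `2^m ≤ j < 2^(m+1)` at level `a`. -/
noncomputable def bm (w : ℕ → ℝ → ℝ) (m : ℕ) (a : ℝ) : ℝ := ∑ j ∈ Ico (2 ^ m) (2 ^ (m + 1)), w j a

/-- The properties of a mass function `w` and a moment function `Φ` that the argument uses. -/
structure Sys (ka : ℕ) (C0 th s C : ℝ) (L0 : ℕ) (w Φ : ℕ → ℝ → ℝ) : Prop where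
  nonneg : ∀ j a, 0 ≤ w j a
  anti : ∀ j a b, a ≤ b → w j b ≤ w j a
  top : ∀ j a, 1 ≤ a → w j a ≤ 0
  triv : ∀ j a, 1 ≤ j → w j a ≤ C0 / j
  mark : ∀ j a y, 1 ≤ j → 0 ≤ a → 0 < y → w j (a + y) ≤ Φ j a / (y ^ ka * j)
  kl : ∀ a L i, 0 ≤ a → L0 ≤ L → (∀ m, L ≤ m → m ≤ i → bm w m a ≤ th) →
    ∀ j : ℕ, j + 3 ≤ 2 ^ (i + 2) → Φ j a ≤ C * (s ^ L / s ^ Nat.log 2 j) ^ ka

theorem harm_block (m : ℕ) : ∑ j ∈ Ico (2 ^ m) (2 ^ (m + 1)), (1 : ℝ) / (j : ℕ) ≤ 1 := by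
  have h : ∀ j ∈ Ico (2 ^ m) (2 ^ (m + 1)), (1 : ℝ) / (j : ℕ) ≤ 1 / 2 ^ m := by
    intro j hj
    have h1 : ((2 ^ m : ℕ) : ℝ) ≤ (j : ℝ) := by exact_mod_cast (mem_Ico.1 hj).1
    push_cast at h1
    exact one_div_le_one_div_of_le (by positivity) h1
  refine (sum_le_sum h).trans ?_
  rw [sum_const, Nat.card_Ico, show 2 ^ (m + 1) - 2 ^ m = 2 ^ m by rw [pow_succ]; omega,
    nsmul_eq_mul]
  push_cast
  rw [mul_one_div_cancel (by positivity)]

theorem bm_anti {ka : ℕ} {C0 th s C : ℝ} {L0 : ℕ} {w Φ : ℕ → ℝ → ℝ}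
    (S : Sys ka C0 th s C L0 w Φ) (m : ℕ) {a b : ℝ} (h : a ≤ b) : bm w m b ≤ bm w m a :=
  sum_le_sum fun j _ => S.anti j a b h

theorem bm_le_of {w : ℕ → ℝ → ℝ} {m : ℕ} {a c : ℝ} (hc : 0 ≤ c)
    (h : ∀ j ∈ Ico (2 ^ m) (2 ^ (m + 1)), w j a ≤ c / j) : bm w m a ≤ c := by
  refine (sum_le_sum h).trans ?_
  have : ∑ j ∈ Ico (2 ^ m) (2 ^ (m + 1)), c / (j : ℕ)
      = c * ∑ j ∈ Ico (2 ^ m) (2 ^ (m + 1)), (1 : ℝ) / (j : ℕ) := by
    rw [mul_sum]; exact sum_congr rfl fun j _ => by ring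
  rw [this]
  exact mul_le_of_le_one_right hc (harm_block m)

theorem step_abs {ka : ℕ} {C0 th s C : ℝ} (L0 : ℕ) (hka : 1 ≤ ka) (hth : 0 < th)
    (hs : 1 < s) (hC1 : 1 ≤ C) : ∃ (C5 om : ℝ) (L1 : ℕ), 0 < C5 ∧ 0 < om ∧ om < 1 ∧ L0 ≤ L1 ∧
      ∀ w Φ, Sys ka C0 th s C L0 w Φ → ∀ (a : ℝ) (L n : ℕ), 0 ≤ a → L1 ≤ L →
        (∀ m, L ≤ m → m ≤ L + n → bm w m a ≤ th) → bm w (L + n + 1) (a + C5 * om ^ n) ≤ th := by
  obtain ⟨L2, hL2⟩ : ∃ L2 : ℕ, 4 * C0 / th ≤ 2 ^ L2 := by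
    obtain ⟨n, hn⟩ := pow_unbounded_of_one_lt (4 * C0 / th) (show (1 : ℝ) < 2 by norm_num)
    exact ⟨n, hn.le⟩
  have hs0 : 0 < s := by linarith
  set om : ℝ := s⁻¹ with hom
  have hom0 : 0 < om := inv_pos.2 hs0
  have hom1 : om < 1 := inv_lt_one_of_one_lt₀ hs
  set C5 : ℝ := 1 + 2 * C / th with hC5
  have hx : 0 ≤ 2 * C / th := by positivity
  have hC51 : 1 ≤ C5 := by linarith
  refine ⟨C5, om, max L0 L2, by linarith, hom0, hom1, le_max_left _ _, ?_⟩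
  intro w Φ S a L n ha hL hG
  have hy : 0 < C5 * om ^ n := by positivity
  have key : ∀ j ∈ Ico (2 ^ (L + n + 1)) (2 ^ (L + n + 1 + 1)), w j (a + C5 * om ^ n) ≤
      th / 2 * (1 / (j : ℕ)) + if 2 ^ (L + n + 2) < j + 3 then th / 4 else 0 := by
    intro j hj
    have hj1 : 2 ^ (L + n + 1) ≤ j := (mem_Ico.1 hj).1
    have hj0 : 1 ≤ j := le_trans Nat.one_le_two_pow hj1
    have hjR : (2 : ℝ) ^ (L + n + 1) ≤ j := by exact_mod_cast hj1
    have hjp : (0 : ℝ) < j := by exact_mod_cast hj0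
    split_ifs with hc
    · have h1 := S.triv j (a + C5 * om ^ n) hj0
      have h2 : (2 : ℝ) ^ L2 ≤ 2 ^ (L + n + 1) :=
        pow_le_pow_right₀ (by norm_num) (by have := le_max_right L0 L2; omega)
      have h3 : C0 / j ≤ th / 4 := by
        rw [div_le_iff₀ hjp]
        rw [div_le_iff₀ hth] at hL2
        nlinarith
      have : 0 ≤ th / 2 * (1 / (j : ℝ)) := by positivity
      linarith
    · have h1 := S.mark j a _ hj0 ha hy
      have h2 := S.kl a L (L + n) ha (le_trans (le_max_left _ _) hL) hG j (by omega)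
      rw [Nat.log_eq_of_pow_le_of_lt_pow hj1 (mem_Ico.1 hj).2] at h2
      have h3 : s ^ L / s ^ (L + n + 1) ≤ om ^ n := by
        rw [div_le_iff₀ (by positivity), hom, inv_pow, le_inv_mul_iff₀ (by positivity), ← pow_add]
        exact pow_le_pow_right₀ hs.le (by omega)
      have h4 : (s ^ L / s ^ (L + n + 1)) ^ ka ≤ (om ^ n) ^ ka :=
        pow_le_pow_left₀ (by positivity) h3 _
      have h5 : C5 ≤ C5 ^ ka := le_self_pow₀ hC51 (by omega)
      have h6 : 0 < (om ^ n) ^ ka := by positivity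
      have h7 : Φ j a ≤ th / 2 * (C5 * om ^ n) ^ ka := by
        rw [mul_pow]
        have h8 : C ≤ th / 2 * C5 ^ ka := by
          have : th / 2 * C5 = th / 2 + C := by rw [hC5]; field_simp
          nlinarith
        calc Φ j a ≤ C * (om ^ n) ^ ka := h2.trans (mul_le_mul_of_nonneg_left h4 (by linarith))
          _ ≤ th / 2 * C5 ^ ka * (om ^ n) ^ ka := mul_le_mul_of_nonneg_right h8 h6.le
          _ = _ := by ring
      have h9 : 0 < (C5 * om ^ n) ^ ka := by positivity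
      refine h1.trans ?_
      rw [add_zero, div_le_iff₀ (by positivity)]
      refine h7.trans (le_of_eq ?_)
      field_simp
  refine (sum_le_sum key).trans ?_
  rw [sum_add_distrib, ← mul_sum, ← sum_filter, sum_const, nsmul_eq_mul]
  have h1 := harm_block (L + n + 1)
  have h2 : ((Ico (2 ^ (L + n + 1)) (2 ^ (L + n + 1 + 1))).filter
      fun j => 2 ^ (L + n + 2) < j + 3).card ≤ 2 := by
    refine le_trans (card_le_card (t := Ico (2 ^ (L + n + 2) - 2) (2 ^ (L + n + 2))) ?_) ?_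
    · intro j hj
      rw [mem_filter, mem_Ico] at hj
      rw [mem_Ico]
      have := hj.1.2
      constructor
      · omega
      · exact this
    · rw [Nat.card_Ico]; omega
  have h3 : (((Ico (2 ^ (L + n + 1)) (2 ^ (L + n + 1 + 1))).filter
      fun j => 2 ^ (L + n + 2) < j + 3).card : ℝ) ≤ 2 := by exact_mod_cast h2
  nlinarith

theorem prop_abs {ka : ℕ} {C0 th s C : ℝ} (L0 : ℕ) (hka : 1 ≤ ka) (hth : 0 < th)
    (hs : 1 < s) (hC1 : 1 ≤ C) : ∃ L1 : ℕ, L0 ≤ L1 ∧ ∀ e : ℝ, 0 < e → ∃ R : ℕ,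
      ∀ w Φ, Sys ka C0 th s C L0 w Φ → ∀ (a : ℝ) (L : ℕ), 0 ≤ a → L1 ≤ L →
        (∀ m, L ≤ m → m ≤ L + R → bm w m a ≤ th) → ∀ m, L ≤ m → bm w m (a + e) ≤ th := by
  obtain ⟨C5, om, L1, hC5, h0, h1, hL, H⟩ := step_abs L0 hka hth hs hC1
  refine ⟨L1, hL, fun e he => ?_⟩
  have h2 : 0 < 1 - om := by linarith
  obtain ⟨R, hR⟩ := exists_pow_lt_of_lt_one (show 0 < e * (1 - om) / C5 by positivity) h1
  refine ⟨R, fun w Φ S a L ha hL1 hG => ?_⟩
  have hb : ∀ n : ℕ, 0 ≤ C5 / (1 - om) * (om ^ R - om ^ (R + n)) := fun n =>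
    mul_nonneg (by positivity) (sub_nonneg.2 (pow_le_pow_of_le_one h0.le h1.le (by omega)))
  have key : ∀ n : ℕ, ∀ m, L ≤ m → m ≤ L + (R + n) →
      bm w m (a + C5 / (1 - om) * (om ^ R - om ^ (R + n))) ≤ th := by
    intro n
    induction n with
    | zero => intro m h3 h4; simpa using hG m h3 h4
    | succ n ih =>
      intro m h3 h4
      have h5 : a + C5 / (1 - om) * (om ^ R - om ^ (R + (n + 1)))
          = a + C5 / (1 - om) * (om ^ R - om ^ (R + n)) + C5 * om ^ (R + n) := by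
        rw [← add_assoc R, pow_succ]; field_simp; ring
      rw [h5]
      rcases Nat.lt_or_ge (L + (R + n)) m with h6 | h6
      · obtain rfl : m = L + (R + n) + 1 := by omega
        exact H w Φ S _ L (R + n) (add_nonneg ha (hb n)) hL1 ih
      · exact (bm_anti S m (le_add_of_nonneg_right (by positivity))).trans (ih m h3 h6)
  intro m hm
  refine (bm_anti S m ?_).trans (key m m hm (by omega))
  have h3 : C5 / (1 - om) * om ^ R ≤ e := by
    rw [lt_div_iff₀ hC5] at hR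
    rw [div_mul_eq_mul_div, div_le_iff₀ h2]; linarith
  have h4 : 0 ≤ C5 / (1 - om) * om ^ (R + m) := by positivity
  nlinarith

theorem conc_abs {ka : ℕ} {C0 th s C : ℝ} {L0 : ℕ} {w Φ : ℕ → ℝ → ℝ} (hka : 1 ≤ ka) (hs : 1 < s)
    (S : Sys ka C0 th s C L0 w Φ) {a : ℝ} (ha : 0 ≤ a) (hG : ∀ᶠ m in atTop, bm w m a ≤ th)
    {ε : ℝ} (hε : 0 < ε) : ∀ᶠ j : ℕ in atTop, Φ j a ≤ ε := by
  obtain ⟨L2, hL2⟩ := eventually_atTop.1 hG
  have t0 : Tendsto (Nat.log 2) atTop atTop := tendsto_atTop_atTop.2 fun b =>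
    ⟨2 ^ b, fun j hj => Nat.le_log_of_pow_le (by norm_num) hj⟩
  have t1 : Tendsto (fun j : ℕ => s ^ max L0 L2 / s ^ Nat.log 2 j) atTop (nhds 0) :=
    ((tendsto_pow_atTop_atTop_of_one_lt hs).comp t0).const_div_atTop _
  have t2 : Tendsto (fun j : ℕ => C * (s ^ max L0 L2 / s ^ Nat.log 2 j) ^ ka) atTop
      (nhds 0) := by
    have := (t1.pow ka).const_mul C
    rwa [zero_pow (by omega), mul_zero] at this
  filter_upwards [t2.eventually (ge_mem_nhds hε), eventually_ge_atTop 1] with j h1 h2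
  refine le_trans (S.kl a (max L0 L2) j ha (le_max_left _ _)
    (fun m h3 _ => hL2 m (le_trans (le_max_right _ _) h3)) j ?_) h1
  have : j < 2 ^ j := Nat.lt_two_pow_self
  rw [pow_add]; omega

theorem windows {b : ℕ → ℝ} (hb : ∀ m, 0 ≤ b m) {th : ℝ} {L1 R : ℕ}
    (h : ∀ L, L1 ≤ L → ∃ m, L ≤ m ∧ m ≤ L + R ∧ th < b m) (N : ℕ) :
    ∀ L, L1 ≤ L → N * th ≤ ∑ m ∈ Ico L (L + N * (R + 1)), b m := by
  induction N with
  | zero => intro L _; simp
  | succ N ih =>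
    intro L hL
    obtain ⟨m, h1, h2, h3⟩ := h (L + N * (R + 1)) (by omega)
    rw [← sum_Ico_consecutive b (n := L + N * (R + 1)) (by omega) (by rw [add_mul]; omega)]
    have h4 : b m ≤ ∑ m ∈ Ico (L + N * (R + 1)) (L + (N + 1) * (R + 1)), b m :=
      single_le_sum (fun i _ => hb i) (mem_Ico.2 ⟨h1, by rw [add_mul]; omega⟩)
    have := ih L hL
    push_cast
    linarith

theorem fin_abs {ka : ℕ} {C0 th s C Cx : ℝ} {L0 : ℕ} (hka : 1 ≤ ka) (hth : 0 < th)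
    (hs : 1 < s) (hC1 : 1 ≤ C) {w Φ w' Φ' : ℕ → ℝ → ℝ}
    (S : Sys ka C0 th s C L0 w Φ) (S' : Sys ka C0 th s C L0 w' Φ')
    (link : ∀ (be e y ε : ℝ) (W : ℕ), 0 < e → e ≤ be → 0 < y → y ≤ 1 → 4 * y ≤ e / 2 ^ (W + 8) →
      0 < ε → ∀ᶠ L : ℕ in atTop, ∀ j ∈ Ico (2 ^ (L + W + 7)) (2 ^ (L + W + 7 + 1)),
        w j (be - 2 * y) ≤ (Cx / (1 + ∑ m ∈ Ico L (L + W), bm w' m (1 - be + e)) + ε
          + Φ j (be + y) / y ^ ka) / j) :
    ∃ be : ℝ, 0 ≤ be ∧ be ≤ 1 ∧ ∀ y ε : ℝ, 0 < y → 0 < ε →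
      ∀ᶠ j : ℕ in atTop, Φ j (be + y) ≤ ε ∧ Φ' j (1 - be + y) ≤ ε := by
  set T : Set ℝ := {a | 0 ≤ a ∧ ∀ᶠ m in atTop, bm w m a ≤ th} with hT
  have hT1 : (1 : ℝ) ∈ T := ⟨zero_le_one, Eventually.of_forall fun m =>
    le_trans (sum_nonpos fun j _ => S.top j 1 le_rfl) hth.le⟩
  have hbdd : BddBelow T := ⟨0, fun a ha => ha.1⟩
  set be := sInf T with hbe
  have hbe0 : 0 ≤ be := le_csInf ⟨1, hT1⟩ fun a ha => ha.1
  have hbe1 : be ≤ 1 := csInf_le hbdd hT1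
  have hup : ∀ y, 0 < y → ∀ᶠ m in atTop, bm w m (be + y) ≤ th := by
    intro y hy
    obtain ⟨a, ha, h1⟩ := exists_lt_of_csInf_lt ⟨1, hT1⟩ (show sInf T < be + y by linarith)
    exact ha.2.mono fun m hm => (bm_anti S m h1.le).trans hm
  obtain ⟨L1, -, H⟩ := prop_abs L0 hka hth hs hC1
  have hlow : ∀ e, 0 < e → ∀ᶠ m in atTop, bm w' m (1 - be + e + e) ≤ th := by
    intro e he
    obtain ⟨R, HR⟩ := H e he
    by_cases hc : ∃ L, L1 ≤ L ∧ ∀ m, L ≤ m → m ≤ L + R → bm w' m (1 - be + e) ≤ th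
    · obtain ⟨L, h1, h2⟩ := hc
      exact eventually_atTop.2 ⟨L, HR w' Φ' S' _ L (by linarith) h1 h2⟩
    exfalso
    have hw : ∀ L, L1 ≤ L → ∃ m, L ≤ m ∧ m ≤ L + R ∧ th < bm w' m (1 - be + e) := by
      intro L hL
      by_contra h3
      exact hc ⟨L, hL, fun m h4 h5 => not_lt.1 fun h6 => h3 ⟨m, h4, h5, h6⟩⟩
    have heb : e ≤ be := by
      by_contra h3
      obtain ⟨m, -, -, h4⟩ := hw L1 le_rfl
      have : bm w' m (1 - be + e) ≤ 0 := sum_nonpos fun j _ => S'.top j _ (by linarith)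
      linarith
    obtain ⟨N, hN⟩ := exists_nat_ge (4 * Cx / th ^ 2)
    set W := N * (R + 1) with hW
    set y : ℝ := e / 2 ^ (W + 8) / 4 with hy
    have hy0 : 0 < y := by positivity
    have hye : 4 * y ≤ e := by
      rw [hy, mul_div_cancel₀ _ (by norm_num)]
      exact div_le_self he.le (one_le_pow₀ (by norm_num))
    have hyk : 0 < y ^ ka := by positivity
    have e1 := link be e y (th / 4) W he heb hy0 (by linarith) (by rw [hy]; linarith) (by linarith)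
    obtain ⟨j0, hj0⟩ := eventually_atTop.1
      (conc_abs hka hs S (a := be + y) (by linarith) (hup y hy0) (show 0 < th / 4 * y ^ ka by positivity))
    have e2 : ∀ᶠ L : ℕ in atTop, bm w (L + W + 7) (be - 2 * y) ≤ th := by
      filter_upwards [e1, eventually_ge_atTop L1, eventually_ge_atTop j0] with L h1 h2 h3
      refine bm_le_of hth.le fun j hj => (h1 j hj).trans ?_
      refine div_le_div_of_nonneg_right ?_ (Nat.cast_nonneg _)
      have h4 := windows (b := fun m => bm w' m (1 - be + e))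
        (fun m => sum_nonneg fun j _ => S'.nonneg j _) hw N L h2
      have h5 : j0 ≤ j := by
        have h6 : L + W + 7 < 2 ^ (L + W + 7) := Nat.lt_two_pow_self
        have := (mem_Ico.1 hj).1
        omega
      have h6 : Φ j (be + y) / y ^ ka ≤ th / 4 := by rw [div_le_iff₀ hyk]; exact hj0 j h5
      have hN0 : (0 : ℝ) ≤ N * th := by positivity
      have h7 : Cx / (1 + ∑ m ∈ Ico L (L + W), bm w' m (1 - be + e)) ≤ th / 4 := by
        rw [div_le_iff₀ (by linarith)]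
        rw [div_le_iff₀ (by positivity)] at hN
        nlinarith
      linarith
    have e3 : be - 2 * y ∈ T := by
      refine ⟨by linarith, ?_⟩
      obtain ⟨L3, hL3⟩ := eventually_atTop.1 e2
      refine eventually_atTop.2 ⟨L3 + W + 7, fun m hm => ?_⟩
      have := hL3 (m - W - 7) (by omega)
      rwa [show m - W - 7 + W + 7 = m by omega] at this
    have := csInf_le hbdd e3
    linarith
  refine ⟨be, hbe0, hbe1, fun y ε hy hε => ?_⟩
  have h1 := hlow (y / 2) (by linarith)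
  rw [show 1 - be + y / 2 + y / 2 = 1 - be + y by ring] at h1
  exact (conc_abs hka hs S (by linarith) (hup y hy) hε).and
    (conc_abs hka hs S' (by linarith) h1 hε)

end Pool.Agent.Lib.MP_b09490_nt.No
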