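import Pool.Agent.Lib.MP_b09490_nt.No.Cheb
import Pool.Agent.Lib.MP_b09490_nt.No.KDefs
import Pool.Agent.Lib.MP_b09490_nt.No.QAbs

/-! The concrete quantile argument for `F q = D q / lg q`. -/

open Finset Real Filter Topology

namespace Pool.Agent.Lib.MP_b09490_nt.No

/-- Reciprocal mass of the primes of block `j` above level `a`. -/
noncomputable def qw (G : ℕ → ℝ) (j : ℕ) (a : ℝ) : ℝ :=
  ∑ q ∈ (blk j).filter fun q => a < G q, (1 : ℝ) / q

/-- The normalised moment. -/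
noncomputable def qPhi (ka : ℕ) (G : ℕ → ℝ) (j : ℕ) (a : ℝ) : ℝ :=
  mu j fun p => ff ka (cut G a) j (p - 1)

/-- Markov: the number of primes of a set `A` on which the truncated ratio is at least `y`. -/
theorem count_le_qPhi {ka j : ℕ} {G : ℕ → ℝ} {a y : ℝ} (hy : 0 < y) {A : Finset ℕ}
    (hA : A ⊆ blk j) (h : ∀ p ∈ A, y ≤ min 1 ((HH (cut G a) (p - 1) + 1) / j)) :
    (j : ℝ) / 2 ^ j * #A ≤ qPhi ka G j a / y ^ ka := by
  rw [le_div_iff₀ (by positivity), mul_assoc]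
  refine mul_le_mul_of_nonneg_left ?_ (by positivity)
  calc (#A : ℝ) * y ^ ka = ∑ _p ∈ A, y ^ ka := by rw [sum_const, nsmul_eq_mul]
    _ ≤ ∑ p ∈ A, (min 1 ((HH (cut G a) (p - 1) + 1) / j)) ^ ka :=
      sum_le_sum fun p hp => pow_le_pow_left₀ hy.le (h p hp) _
    _ ≤ _ := sum_le_sum_of_subset_of_nonneg hA fun p _ _ =>
      ff_nonneg ka (fun q _ => cut_nonneg G a q) j (p - 1)

theorem count_above {ka j : ℕ} {G : ℕ → ℝ} (hG : Adm G) {a y : ℝ} (ha : 0 ≤ a) (hy : 0 < y) :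
    (j : ℝ) / 2 ^ j * #((blk j).filter fun q => a + y < G q) ≤ qPhi ka G j a / y ^ ka := by
  refine count_le_qPhi hy (filter_subset _ _) fun p hp => ?_
  obtain ⟨h1, h2⟩ := mem_filter.1 hp
  have hpp := (mem_blk.1 h1).1
  have hj : (0 : ℝ) < j := by exact_mod_cast one_le_of_mem_blk h1
  refine le_min (by linarith [hG.le_one p hpp]) ?_
  rw [le_div_iff₀ hj]
  have h3 := (hG.cut ha).step p hpp
  have h4 := le_lg_blk h1
  have h5 := sub_le_cut G a p
  have h6 : y * j ≤ cut G a p * lg p := mul_le_mul (by linarith) h4 hj.le (cut_nonneg G a p)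
  linarith

theorem sum_inv_le_count {j : ℕ} (hj : 1 ≤ j) {A : Finset ℕ} (hA : A ⊆ blk j) :
    ∑ q ∈ A, (1 : ℝ) / q ≤ (j : ℝ) / 2 ^ j * #A / j := by
  have hj0 : (0 : ℝ) < j := by exact_mod_cast hj
  have : (j : ℝ) / 2 ^ j * #A / j = ∑ _q ∈ A, (1 : ℝ) / 2 ^ j := by
    rw [sum_const, nsmul_eq_mul]; field_simp
  rw [this]
  refine sum_le_sum fun q hq => one_div_le_one_div_of_le (by positivity) ?_
  exact_mod_cast (mem_blk.1 (hA hq)).2.1

theorem qsys {ka L0 : ℕ} {th s C : ℝ} {G : ℕ → ℝ} (hG : Adm G)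
    (kl : ∀ a L i, 0 ≤ a → L0 ≤ L → (∀ m, L ≤ m → m ≤ i → bm (qw G) m a ≤ th) →
      ∀ j : ℕ, j + 3 ≤ 2 ^ (i + 2) → qPhi ka G j a ≤ C * (s ^ L / s ^ Nat.log 2 j) ^ ka) :
    Sys ka 4 th s C L0 (qw G) (qPhi ka G) where
  nonneg j a := sum_nonneg fun q _ => by positivity
  anti j a b h := sum_le_sum_of_subset_of_nonneg
    (fun q hq => mem_filter.2 ⟨(mem_filter.1 hq).1, h.trans_lt (mem_filter.1 hq).2⟩)
    fun q _ _ => by positivity
  top j a ha := by
    unfold qw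
    rw [filter_false_of_mem fun q hq => not_lt.2 ((hG.le_one q (mem_blk.1 hq).1).trans ha)]
    simp
  triv j a _ := (sum_le_sum_of_subset_of_nonneg (filter_subset _ _)
    fun q _ _ => by positivity).trans (sum_inv_blk_le j)
  mark j a y hj ha hy := by
    refine (sum_inv_le_count hj (filter_subset _ _)).trans ?_
    rw [← div_div]
    exact div_le_div_of_nonneg_right (count_above hG ha hy) (Nat.cast_nonneg _)
  kl := kl

/-- A prime divisor of `p - 1` well below the level pulls `F p` down. -/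
theorem pull_down {p q0 : ℕ} (hp : p.Prime) (h2 : p ≠ 2) (hq : q0 ∈ (p - 1).primeFactors)
    {a e : ℝ} (ha : 0 ≤ a) (he : 0 ≤ e) (hlow : FD q0 + e ≤ a) :
    (FD p - a) * lg p ≤ HH (cut FD a) (p - 1) - e * lg q0 := by
  have h0 : p - 1 ≠ 0 := by have := hp.two_le; omega
  have h3 := mul_le_mul_of_nonneg_left (lg_pred_le p hp) ha
  have h4 : e * lg q0 ≤ HH (fun q => cut FD a q - (FD q - a)) (p - 1) := by
    refine le_trans ?_ (single_le_sum (f := fun q => ((p - 1).factorization q : ℝ) *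
      ((cut FD a q - (FD q - a)) * lg q)) (fun q _ => ?_) hq)
    · have h5 : (1 : ℝ) ≤ (p - 1).factorization q0 := by
        exact_mod_cast (Nat.prime_of_mem_primeFactors hq).factorization_pos_of_dvd h0
          (Nat.dvd_of_mem_primeFactors hq)
      have h6 := lg_nonneg q0
      have h7 : e * lg q0 ≤ (cut FD a q0 - (FD q0 - a)) * lg q0 :=
        mul_le_mul_of_nonneg_right (by linarith [cut_nonneg FD a q0]) h6
      have h8 : 0 ≤ e * lg q0 := mul_nonneg he h6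
      nlinarith
    · exact mul_nonneg (Nat.cast_nonneg _)
        (mul_nonneg (sub_nonneg.2 (sub_le_cut FD a q)) (lg_nonneg q))
  rw [HH_sub (cut FD a) fun q => FD q - a, HH_sub FD fun _ => a, HH_const] at h4
  rw [sub_mul, FD_step hp h2]
  linarith

theorem sum_bm_eq (b : ℕ → ℝ → ℝ) (a : ℝ) (L W : ℕ) :
    ∑ m ∈ Ico L (L + W), bm b m a = ∑ j ∈ Ico (2 ^ L) (2 ^ (L + W)), b j a := by
  induction W with
  | zero => simp
  | succ W ih =>
    rw [← add_assoc, sum_Ico_succ_top (by omega), ih, bm]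
    exact sum_Ico_consecutive _ (Nat.pow_le_pow_right (by norm_num) (by omega))
      (Nat.pow_le_pow_right (by norm_num) (by omega))

theorem qlink {ka : ℕ} {Cx : ℝ}
    (exc : ∀ ε : ℝ, 0 < ε → ∀ᶠ k : ℕ in atTop, ∀ Bs : Finset ℕ,
      (∀ q ∈ Bs, q.Prime ∧ q ≤ 2 ^ (k / 40)) →
      (k : ℝ) / 2 ^ k * #((blk k).filter fun p => ∀ q ∈ Bs, ¬ q ∣ p - 1)
        ≤ Cx / (1 + ∑ q ∈ Bs, (1 : ℝ) / q) + ε)
    (be e y ε : ℝ) (W : ℕ) (he : 0 < e) (heb : e ≤ be) (hy : 0 < y) (hy1 : y ≤ 1)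
    (hye : 4 * y ≤ e / 2 ^ (W + 8)) (hε : 0 < ε) :
    ∀ᶠ L : ℕ in atTop, ∀ j ∈ Ico (2 ^ (L + W + 7)) (2 ^ (L + W + 7 + 1)),
      qw FD j (be - 2 * y) ≤
        (Cx / (1 + ∑ m ∈ Ico L (L + W), bm (qw fun q => 1 - FD q) m (1 - be + e)) + ε
          + qPhi ka FD j (be + y) / y ^ ka) / j := by
  obtain ⟨k0, hk0⟩ := eventually_atTop.1 (exc ε hε)
  filter_upwards [eventually_ge_atTop k0] with L hL j hj
  obtain ⟨hj1, hj2⟩ := mem_Ico.1 hj
  have hLj : L + W + 7 < j := lt_of_lt_of_le Nat.lt_two_pow_self hj1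
  set Bs := (Ico (2 ^ L) (2 ^ (L + W))).biUnion
    fun i => (blk i).filter fun q => 1 - be + e < 1 - FD q with hBs
  have hmem : ∀ q ∈ Bs, q.Prime ∧ 2 ^ 2 ^ L ≤ q ∧ q < 2 ^ 2 ^ (L + W) ∧ FD q + e < be := by
    intro q hq
    obtain ⟨i, hi, hq⟩ := mem_biUnion.1 hq
    obtain ⟨h1, h2⟩ := mem_filter.1 hq
    obtain ⟨h3, h4, h5⟩ := mem_blk.1 h1
    obtain ⟨h6, h7⟩ := mem_Ico.1 hi
    exact ⟨h3, (Nat.pow_le_pow_right (by norm_num) h6).trans h4,
      h5.trans_le (Nat.pow_le_pow_right (by norm_num) h7), by linarith⟩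
  have hsum : ∑ m ∈ Ico L (L + W), bm (qw fun q => 1 - FD q) m (1 - be + e)
      = ∑ q ∈ Bs, (1 : ℝ) / q := by
    rw [sum_bm_eq, hBs, sum_biUnion]
    · rfl
    · intro i _ i' _ hne
      exact disjoint_left.2 fun q h1 h2 =>
        hne (blk_unique (mem_filter.1 h1).1 (mem_filter.1 h2).1)
  have h40 : 2 ^ (L + W) ≤ j / 40 := by
    rw [Nat.le_div_iff_mul_le (by norm_num)]
    rw [pow_add] at hj1
    omega
  have h1 := hk0 j (by omega) Bs fun q hq => ⟨(hmem q hq).1,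
    (hmem q hq).2.2.1.le.trans (Nat.pow_le_pow_right (by norm_num) h40)⟩
  have hj0 : (0 : ℝ) < j := by exact_mod_cast (show 0 < j by omega)
  set A1 := (blk j).filter fun p => ∀ q ∈ Bs, ¬ q ∣ p - 1 with hA1
  set A2 := (blk j).filter fun p => y ≤ min 1 ((HH (cut FD (be + y)) (p - 1) + 1) / j) with hA2
  have h2 : (j : ℝ) / 2 ^ j * #A2 ≤ qPhi ka FD j (be + y) / y ^ ka :=
    count_le_qPhi hy (filter_subset _ _) fun p hp => (mem_filter.1 hp).2
  have hsub : ((blk j).filter fun p => be - 2 * y < FD p) ⊆ A1 ∪ A2 := by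
    intro p hp
    obtain ⟨h3, h4⟩ := mem_filter.1 hp
    rw [mem_union]
    by_cases hc : ∀ q ∈ Bs, ¬ q ∣ p - 1
    · exact Or.inl (mem_filter.2 ⟨h3, hc⟩)
    refine Or.inr (mem_filter.2 ⟨h3, le_min hy1 ?_⟩)
    obtain ⟨q, hq, hd⟩ : ∃ q ∈ Bs, q ∣ p - 1 := by
      by_contra h5
      exact hc fun q hq hd => h5 ⟨q, hq, hd⟩
    obtain ⟨hqp, hq1, -, hq3⟩ := hmem q hq
    obtain ⟨hpp, hp1, -⟩ := mem_blk.1 h3
    have hp2 : p ≠ 2 := by
      have : j < 2 ^ j := Nat.lt_two_pow_self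
      omega
    have h5 := pull_down hpp hp2 (Nat.mem_primeFactors.2 ⟨hqp, hd, by have := hpp.two_le; omega⟩)
      (a := be + y) (e := e) (by linarith) he.le (by linarith)
    have h6 : ((2 ^ L : ℕ) : ℝ) ≤ lg q := le_lg hq1
    have h7 := le_lg_blk h3
    have h8 := lg_le_blk h3
    have h9 : (j : ℝ) + 1 ≤ 2 ^ L * 2 ^ (W + 8) := by
      have : j + 1 ≤ 2 ^ L * 2 ^ (W + 8) := by
        rw [← pow_add]; exact hj2
      exact_mod_cast this
    push_cast at h6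
    rw [le_div_iff₀ (by positivity)] at hye
    have h10 : 4 * y * lg p ≤ e * lg q :=
      calc 4 * y * lg p ≤ 4 * y * (2 ^ L * 2 ^ (W + 8)) :=
            mul_le_mul_of_nonneg_left (h8.trans h9) (by linarith)
        _ = 4 * y * 2 ^ (W + 8) * 2 ^ L := by ring
        _ ≤ e * lg q := mul_le_mul hye h6 (by positivity) he.le
    rw [le_div_iff₀ hj0]
    have h11 : -(3 * y) * lg p ≤ (FD p - (be + y)) * lg p :=
      mul_le_mul_of_nonneg_right (by linarith) (lg_nonneg p)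
    have h12 : y * j ≤ y * lg p := mul_le_mul_of_nonneg_left h7 hy.le
    linarith
  refine (sum_inv_le_count (by omega) (filter_subset _ _)).trans ?_
  refine div_le_div_of_nonneg_right ?_ hj0.le
  have h3 : (#((blk j).filter fun p => be - 2 * y < FD p) : ℝ) ≤ #A1 + #A2 := by
    exact_mod_cast (card_le_card hsub).trans (card_union_le _ _)
  have h4 := mul_le_mul_of_nonneg_left h3 (show (0 : ℝ) ≤ (j : ℝ) / 2 ^ j by positivity)
  rw [hsum]
  linarith

theorem conc_of {ka L0 : ℕ} {th s C Cx : ℝ} (hka : 1 ≤ ka) (hth : 0 < th) (hs : 1 < s)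
    (hC : 1 ≤ C)
    (kl : ∀ G, Adm G → ∀ a L i, 0 ≤ a → L0 ≤ L → (∀ m, L ≤ m → m ≤ i → bm (qw G) m a ≤ th) →
      ∀ j : ℕ, j + 3 ≤ 2 ^ (i + 2) → qPhi ka G j a ≤ C * (s ^ L / s ^ Nat.log 2 j) ^ ka)
    (exc : ∀ ε : ℝ, 0 < ε → ∀ᶠ k : ℕ in atTop, ∀ Bs : Finset ℕ,
      (∀ q ∈ Bs, q.Prime ∧ q ≤ 2 ^ (k / 40)) →
      (k : ℝ) / 2 ^ k * #((blk k).filter fun p => ∀ q ∈ Bs, ¬ q ∣ p - 1)
        ≤ Cx / (1 + ∑ q ∈ Bs, (1 : ℝ) / q) + ε) :
    ∃ t : ℝ, 0 ≤ t ∧ t ≤ 1 ∧ (∀ y, 0 < y → Tendsto (shU (t + y)) atTop (𝓝 0)) ∧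
      ∀ y, 0 < y → Tendsto (shL (t - y)) atTop (𝓝 0) := by
  obtain ⟨be, h0, h1, H⟩ := fin_abs hka hth hs hC (qsys adm_FD (kl _ adm_FD))
    (qsys adm_one_sub_FD (kl _ adm_one_sub_FD)) (qlink exc)
  have lim : ∀ s : ℕ → ℝ, (∀ j, 0 ≤ s j) → (∀ ε, 0 < ε → ∀ᶠ j in atTop, s j ≤ ε) →
      Tendsto s atTop (𝓝 0) := fun s hs h =>
    tendsto_order.2 ⟨fun a ha => Eventually.of_forall fun j => ha.trans_le (hs j),
      fun a ha => (h (a / 2) (by linarith)).mono fun j hj => by linarith⟩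
  refine ⟨be, h0, h1, fun y hy => lim _ (shU_nonneg _) fun ε hε => ?_,
    fun y hy => lim _ (shL_nonneg _) fun ε hε => ?_⟩
  · have hk : 0 < (y / 2) ^ ka := by positivity
    filter_upwards [H (y / 2) (ε * (y / 2) ^ ka) (by linarith) (by positivity)] with j hj
    have h2 := count_above (ka := ka) (j := j) adm_FD (a := be + y / 2) (y := y / 2)
      (by linarith) (by linarith)
    have h3 : ((blk j).filter fun q => (be + y) * lg q < D q)
        = (blk j).filter fun q => be + y / 2 + y / 2 < FD q := by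
      refine filter_congr fun q hq => ?_
      have h4 := one_le_lg (mem_blk.1 hq).1
      rw [FD, lt_div_iff₀ (by linarith), show be + y / 2 + y / 2 = be + y by ring]
    rw [shU, h3]
    exact h2.trans ((div_le_iff₀ hk).2 hj.1)
  · have hk : 0 < (y / 2) ^ ka := by positivity
    filter_upwards [H (y / 2) (ε * (y / 2) ^ ka) (by linarith) (by positivity)] with j hj
    have h2 := count_above (ka := ka) (j := j) adm_one_sub_FD (a := 1 - be + y / 2) (y := y / 2)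
      (by linarith) (by linarith)
    have h3 : ((blk j).filter fun q => (D q : ℝ) < (be - y) * lg q)
        = (blk j).filter fun q => 1 - be + y / 2 + y / 2 < 1 - FD q := by
      refine filter_congr fun q hq => ?_
      have h4 := one_le_lg (mem_blk.1 hq).1
      rw [← div_lt_iff₀ (by linarith), FD]
      constructor <;> intro h <;> linarith
    rw [shL, h3]
    exact h2.trans ((div_le_iff₀ hk).2 hj.2)

end Pool.Agent.Lib.MP_b09490_nt.No
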