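import Pool.Agent.Lib.MP_b09490_nt.Main
import Pool.Agent.Lib.MP_b09490_nt.No.Defs

/-! The constant of the normal order lies strictly between the two extreme values. -/

open Finset Real Filter Topology

namespace Pool.Agent.Lib.MP_b09490_nt.No

theorem rankin_false {w E : ℕ → ℝ} {A C : ℝ} (hA : 0 ≤ A)
    (hw : ∀ x, ∑ n ∈ Icc 1 x, w n ≤ C)
    (hl : ∀ n : ℕ, 1 ≤ n → exp (-(A * E n + log n / 2)) ≤ w n)
    (h : Tendsto (fun x : ℕ => (∑ n ∈ Icc 1 x, E n) / (x * log x)) atTop (𝓝 0)) : False := by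
  have t1 : Tendsto (fun x : ℕ => log x) atTop atTop :=
    tendsto_log_atTop.comp tendsto_natCast_atTop_atTop
  obtain ⟨x, h1, h2, h3⟩ := ((h.eventually (ge_mem_nhds (show (0 : ℝ) < 1 / (4 * (A + 1)) by
    positivity))).and ((t1.eventually_gt_atTop (4 * C)).and (eventually_ge_atTop 2))).exists
  have hx : (1 : ℝ) < x := by exact_mod_cast h3
  have hL := log_pos hx
  rw [div_le_div_iff₀ (by positivity) (by positivity)] at h1
  have h4 : ∀ n ∈ Icc 1 x, exp (-(3 / 4 * log x)) * (1 + log x / 4 - A * E n) ≤ w n := by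
    intro n hn
    obtain ⟨h5, h6⟩ := mem_Icc.1 hn
    have h7 : log n ≤ log x := log_le_log (by exact_mod_cast h5) (by exact_mod_cast h6)
    refine le_trans ?_ (hl n h5)
    rw [show -(A * E n + log n / 2) = -(3 / 4 * log x) + (3 / 4 * log x - A * E n - log n / 2) by
      ring, exp_add]
    refine mul_le_mul_of_nonneg_left ?_ (exp_pos _).le
    linarith [add_one_le_exp (3 / 4 * log x - A * E n - log n / 2)]
  have h5 := (sum_le_sum h4).trans (hw x)
  rw [← mul_sum, sum_sub_distrib, sum_const, Nat.card_Icc, ← mul_sum, nsmul_eq_mul,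
    Nat.add_sub_cancel] at h5
  have h6 : A * ∑ n ∈ Icc 1 x, E n ≤ x * log x / 4 := by
    rcases le_total 0 (∑ n ∈ Icc 1 x, E n) with h7 | h7
    · nlinarith
    · have : 0 < x * log x := by positivity
      nlinarith
  have h7 : exp (-(3 / 4 * log x)) * x ≤ C :=
    le_trans (mul_le_mul_of_nonneg_left (by nlinarith) (exp_pos _).le) h5
  have h8 : exp (-(3 / 4 * log x)) * x = exp (log x / 4) := by
    rw [show log x / 4 = -(3 / 4 * log x) + log x by ring, exp_add, exp_log (by linarith)]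
  linarith [add_one_le_exp (log x / 4)]

theorem exp_le_pow_D (n : ℕ) : exp (-(log n / 2)) ≤ (3 / 4 : ℝ) ^ D n := by
  have h1 := D_le_lg n
  have h2 := log_pos (show (1 : ℝ) < 2 by norm_num)
  rw [lg_eq, le_div_iff₀ h2] at h1
  have h3 : exp (-(log 2 / 2)) ≤ 3 / 4 := by
    refine (pow_le_pow_iff_left₀ (exp_pos _).le (by norm_num) two_ne_zero).1 ?_
    rw [← exp_nat_mul, show ((2 : ℕ) : ℝ) * -(log 2 / 2) = -log 2 by push_cast; ring, exp_neg,
      exp_log (by norm_num)]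
    norm_num
  calc exp (-(log n / 2)) ≤ exp (D n * (-(log 2 / 2))) := exp_le_exp.2 (by linarith)
    _ ≤ _ := by rw [exp_nat_mul]; exact pow_le_pow_left₀ (exp_pos _).le h3 _

theorem lt_one_of_mean {t : ℝ}
    (h : Tendsto (fun x : ℕ => (∑ n ∈ Icc 1 x, |(D n : ℝ) - t * lg n|) / (x * log x)) atTop (𝓝 0)) :
    t < 1 := by
  by_contra ht
  obtain ⟨A, hA⟩ := exists_sum_le (l := 3 / 4) (by norm_num) (by norm_num)
  have h2 := log_pos (show (1 : ℝ) < 2 by norm_num)
  refine rankin_false (A := A * log 2) (by positivity) hA (fun n hn => ?_) h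
  have hn0 : (0 : ℝ) < n := by exact_mod_cast hn
  rw [neg_add, exp_add, W]
  refine mul_le_mul ?_ (exp_le_pow_D n) (exp_pos _).le (by positivity)
  rw [mul_assoc, ← mul_neg, exp_nat_mul]
  refine pow_le_pow_left₀ (exp_pos _).le ?_ _
  rw [← le_log_iff_exp_le (by positivity), log_div (by positivity) hn0.ne', log_pow]
  have h3 := neg_abs_le ((D n : ℝ) - t * lg n)
  have h4 : lg n ≤ t * lg n := le_mul_of_one_le_left (lg_nonneg n) (not_lt.1 ht)
  have h5 : lg n * log 2 = log n := by rw [lg_eq]; field_simp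
  nlinarith

/-- The weight for the lower bound. -/
noncomputable def V3 (n : ℕ) : ℝ := ((n : ℝ) / 3 ^ D n) ^ 24 * (3 / 4) ^ D n

theorem V3_nonneg (n : ℕ) : 0 ≤ V3 n := by unfold V3; positivity

theorem V3_mul {m n : ℕ} (hm : m ≠ 0) (hn : n ≠ 0) : V3 (m * n) = V3 m * V3 n := by
  unfold V3
  rw [D_mul hm hn, pow_add, pow_add, Nat.cast_mul, ← div_mul_div_comm, mul_pow]; ring

theorem V3_prime {m : ℕ} (hm : 2 ≤ m) (hp : (2 * m + 1).Prime) : V3 (2 * m + 1) ≤ 1 / 96 * V3 m := by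
  unfold V3
  rw [D_pred hp (by omega), Nat.add_sub_cancel, D_mul two_ne_zero (by omega), D_two, pow_add,
    pow_add, pow_one, pow_one]
  have h1 : (2 : ℝ) ≤ m := by exact_mod_cast hm
  have h2 : ((2 * m + 1 : ℕ) : ℝ) / (3 * 3 ^ D m) ≤ 5 / 6 * (m / 3 ^ D m) := by
    rw [div_mul_div_comm, div_le_div_iff₀ (by positivity) (by positivity)]
    push_cast
    have : (0 : ℝ) < 3 ^ D m := by positivity
    nlinarith
  calc _ ≤ (5 / 6 * ((m : ℝ) / 3 ^ D m)) ^ 24 * (3 / 4 * (3 / 4) ^ D m) := by gcongr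
    _ = (5 / 6) ^ 24 * (3 / 4) * (((m : ℝ) / 3 ^ D m) ^ 24 * (3 / 4) ^ D m) := by ring
    _ ≤ _ := mul_le_mul_of_nonneg_right (by norm_num) (by positivity)

theorem sum_V3_le (x : ℕ) : ∑ n ∈ Icc 1 x, V3 n ≤ 8 := by
  induction x with
  | zero => simp
  | succ x ih =>
    have h2 : V3 2 ≤ 1 / 24 := by rw [V3, D_two]; norm_num
    have h3 : V3 3 = 3 / 4 := by
      rw [V3, D_pred Nat.prime_three (by norm_num), show 3 - 1 = 2 from rfl, D_two]; norm_num
    set Q := (Icc 2 x).filter fun m => (2 * m + 1).Prime with hQ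
    have hP : ∑ p ∈ Nat.primesLE (x + 1), V3 p ≤ 7 / 8 := by
      have a1 : ∑ p ∈ Nat.primesLE (x + 1) \ {2, 3}, V3 p ≤ ∑ m ∈ Q, V3 (2 * m + 1) := by
        refine sum_le_of_cover (fun m => 2 * m + 1) V3_nonneg fun p hp => ?_
        obtain ⟨c1, c2⟩ := Finset.mem_sdiff.1 hp
        obtain ⟨c3, c4⟩ := Nat.mem_primesLE.1 c1
        have c5 : p ≠ 2 ∧ p ≠ 3 := by simpa using c2
        obtain ⟨m, hm⟩ := c4.odd_of_ne_two c5.1
        have := c4.two_le
        exact ⟨m, mem_filter.2 ⟨mem_Icc.2 (by omega), hm ▸ c4⟩, hm.symm⟩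
      have a2 : ∑ m ∈ Q, V3 (2 * m + 1) ≤ 1 / 96 * ∑ m ∈ Icc 1 x, V3 m := by
        rw [mul_sum]
        refine le_trans (sum_le_sum fun m hm => V3_prime (mem_Icc.1 (mem_filter.1 hm).1).1
          (mem_filter.1 hm).2) (sum_le_sum_of_subset_of_nonneg (fun m hm => ?_)
          fun m _ _ => mul_nonneg (by norm_num) (V3_nonneg m))
        have := mem_Icc.1 (mem_filter.1 hm).1
        exact mem_Icc.2 (by omega)
      have a3 : ∑ p ∈ Nat.primesLE (x + 1), V3 p
          ≤ ∑ p ∈ Nat.primesLE (x + 1) \ {2, 3} ∪ {2, 3}, V3 p :=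
        sum_le_sum_of_subset_of_nonneg (by rw [sdiff_union_self_eq_union]; exact subset_union_left)
          fun p _ _ => V3_nonneg p
      rw [sum_union sdiff_disjoint, sum_pair (by norm_num)] at a3
      linarith
    have b1 : ∑ n ∈ Icc 2 (x + 1), V3 n
        ≤ ∑ t ∈ Nat.primesLE (x + 1) ×ˢ Icc 1 x, V3 (t.1 * t.2) := by
      refine sum_le_of_cover (fun t : ℕ × ℕ => t.1 * t.2) V3_nonneg fun n hn => ?_
      obtain ⟨c1, c2⟩ := mem_Icc.1 hn
      obtain ⟨m, hm⟩ := Nat.minFac_dvd n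
      have hp := Nat.minFac_prime (show n ≠ 1 by omega)
      have c3 := hp.two_le
      have c4 : m ≠ 0 := by rintro rfl; omega
      refine ⟨(n.minFac, m), mem_product.2 ⟨Nat.mem_primesLE.2
        ⟨(Nat.minFac_le (by omega)).trans c2, hp⟩, mem_Icc.2 ⟨by omega, ?_⟩⟩, hm.symm⟩
      have : 2 * m ≤ n := (Nat.mul_le_mul_right m c3).trans hm.ge
      show m ≤ x
      omega
    have b2 : ∑ t ∈ Nat.primesLE (x + 1) ×ˢ Icc 1 x, V3 (t.1 * t.2)
        = (∑ p ∈ Nat.primesLE (x + 1), V3 p) * ∑ m ∈ Icc 1 x, V3 m := by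
      rw [sum_mul_sum, sum_product]
      refine sum_congr rfl fun p hp => sum_congr rfl fun m hm => ?_
      exact V3_mul (Nat.prime_of_mem_primesLE hp).ne_zero (by have := (mem_Icc.1 hm).1; omega)
    have b3 : V3 1 = 1 := by simp [V3, D_one]
    have b4 : 0 ≤ ∑ m ∈ Icc 1 x, V3 m := sum_nonneg fun m _ => V3_nonneg m
    rw [← insert_Icc_add_one_left_eq_Icc (by omega), sum_insert (by simp), b3]
    norm_num only
    nlinarith

theorem lt_of_mean {t : ℝ}
    (h : Tendsto (fun x : ℕ => (∑ n ∈ Icc 1 x, |(D n : ℝ) - t * lg n|) / (x * log x)) atTop (𝓝 0)) :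
    log 2 / log 3 < t := by
  by_contra ht
  have h2 := log_pos (show (1 : ℝ) < 2 by norm_num)
  have h3 := log_pos (show (1 : ℝ) < 3 by norm_num)
  refine rankin_false (A := (24 : ℕ) * log 3) (by positivity) sum_V3_le (fun n hn => ?_) h
  have hn0 : (0 : ℝ) < n := by exact_mod_cast hn
  rw [neg_add, exp_add, V3]
  refine mul_le_mul ?_ (exp_le_pow_D n) (exp_pos _).le (by positivity)
  rw [mul_assoc, ← mul_neg, exp_nat_mul]
  refine pow_le_pow_left₀ (exp_pos _).le ?_ _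
  rw [← le_log_iff_exp_le (by positivity), log_div hn0.ne' (by positivity), log_pow]
  have h4 := le_abs_self ((D n : ℝ) - t * lg n)
  have h5 : t * lg n ≤ log 2 / log 3 * lg n := mul_le_mul_of_nonneg_right (not_lt.1 ht) (lg_nonneg n)
  have h6 : log 3 * (log 2 / log 3 * lg n) = log n := by rw [lg_eq]; field_simp
  nlinarith

/-- The constant `t / log 2` lies strictly between `1 / log 3` and `1 / log 2`. -/
theorem strict_of_mean {t : ℝ}
    (h : Tendsto (fun x : ℕ => (∑ n ∈ Icc 1 x, |(D n : ℝ) - t * lg n|) / (x * log x)) atTop (𝓝 0)) :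
    1 / log 3 < t / log 2 ∧ t / log 2 < 1 / log 2 := by
  have h2 := log_pos (show (1 : ℝ) < 2 by norm_num)
  refine ⟨?_, div_lt_div_of_pos_right (lt_one_of_mean h) h2⟩
  rw [lt_div_iff₀ h2, one_div_mul_eq_div]
  exact lt_of_mean h

end Pool.Agent.Lib.MP_b09490_nt.No
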