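import Pool.Agent.Lib.MP_b09490_nt.No.PC

/-!
The variance of the sieve weight along the forms l m + 1.
-/

open Finset Real Filter Topology

namespace Pool.Agent.Lib.MP_b09490_nt.No

open Pool.Agent.Lib.MP_778b46_nt

theorem rough_nonneg (w : ℕ) (n : ℤ) : 0 ≤ rough w n :=
  prod_nonneg fun r _ => by split_ifs <;> norm_num

theorem rough_eq_one {w : ℕ} {n : ℤ} (h : ∀ r : ℕ, r.Prime → r ≤ w → ¬ (r : ℤ) ∣ n) :
    rough w n = 1 :=
  prod_eq_one fun r hr => if_neg (h r (Nat.prime_of_mem_primesLE hr) (Nat.le_of_mem_primesLE hr))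

theorem rough_le_nu {w R : ℕ} (hR : 1 ≤ R) (n : ℤ) : rough w n ≤ nu (Nat.primesLE w) R n := by
  by_cases h : ∀ r ∈ Nat.primesLE w, ¬ (r : ℤ) ∣ n
  · rw [nu_eq_one (fun l hl => Nat.prime_of_mem_primesLE hl) hR h]
    exact (prod_eq_one fun r hr => if_neg (h r hr)).le
  · push Not at h
    obtain ⟨r, hr, hd⟩ := h
    have h0 : rough w n = 0 := prod_eq_zero hr (by rw [if_pos hd])
    rw [h0]
    exact nu_nonneg n

lemma sum_Icc_cast (F : ℤ → ℝ) (N : ℕ) :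
    ∑ m ∈ Icc 1 N, F (m : ℕ) = ∑ s ∈ Ioc (0 : ℤ) (0 + N), F s := by
  refine sum_bij (fun m _ => (m : ℤ)) (fun m hm => ?_) (fun a _ b _ h => by exact_mod_cast h)
    (fun s hs => ?_) fun _ _ => rfl
  · rw [mem_Icc] at hm; rw [mem_Ioc]; omega
  · rw [mem_Ioc] at hs
    exact ⟨s.toNat, by rw [mem_Icc]; omega, by omega⟩

lemma var_pair {P : Finset ℕ} {R w : ℕ} (hP : ∀ r ∈ P, r.Prime ∧ w < r) (hR : 1 ≤ R) {a b : ℤ}
    (ha : ∀ r ∈ P, ¬ (r : ℤ) ∣ a) (hb : ∀ r ∈ P, ¬ (r : ℤ) ∣ b) (y : ℤ) (N : ℕ) :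
    ∑ s ∈ Ioc y (y + N), (rough w (a * s + 1) * (nu P R (a * s + 1) - 1 / gg P R)) *
        (rough w (b * s + 1) * (nu P R (b * s + 1) - 1 / gg P R)) ≤
      N * (mert P / gg P R ^ 2) ^ 2 * (∏ r ∈ P, (1 + 9 * |rho r (a - b)|) - 1) +
        (R : ℝ) ^ 8 * 4 ^ w := by
  have hP1 : ∀ r ∈ P, r.Prime := fun r hr => (hP r hr).1
  have hV : ∀ r ∈ P ∪ P, r ∈ P := fun r hr => by simpa using hr
  have s0 : ∀ c : ℤ, (∀ r ∈ P, ¬ (r : ℤ) ∣ c) → ∀ l ∈ P ∪ P,
      |∑ z ∈ range l, ps l (c * z + 1)| ≤ l * (0 : ℝ) := by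
    intro c hc l hl
    obtain ⟨t, _, ht⟩ := ps_aff (hP1 l (hV l hl)) (hc l (hV l hl))
    simp only [ht, sum_ps (hP1 l (hV l hl))]; simp
  have h := two P P (Nat.primesLE w) hP1 hP1 (fun l hl => Nat.prime_of_mem_primesLE hl)
    (disjoint_left.mpr fun r h1 h2 => by
      have := (hP r (hV r h2)).2
      have := Nat.le_of_mem_primesLE h1
      omega) R R
    (fun r s => (if (r : ℤ) ∣ a * s + 1 then (0 : ℝ) else 1) *
      (if (r : ℤ) ∣ b * s + 1 then (0 : ℝ) else 1))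
    (fun l s => ps l (a * s + 1)) (fun l s => ps l (b * s + 1))
    (fun l s s' hs => by
      simp only [((hs.mul_left a).add_right 1).dvd_iff, ((hs.mul_left b).add_right 1).dvd_iff])
    (ps_aff_congr a) (ps_aff_congr b)
    (fun l _ s => by split_ifs <;> simp)
    (fun l hl s => abs_ps_le (hP1 l (hV l hl)) _) (fun l hl s => abs_ps_le (hP1 l (hV l hl)) _)
    (fun _ => 0) (fun _ => 0) (fun l => |rho l (a - b)|) (s0 a ha) (s0 b hb)
    (fun l hl => by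
      obtain ⟨t, ⟨e, he⟩, ht⟩ := ps_aff (hP1 l (hV l hl)) (ha l (hV l hl))
      obtain ⟨t', ⟨e', he'⟩, ht'⟩ := ps_aff (hP1 l (hV l hl)) (hb l (hV l hl))
      have h2 : (l : ℤ) ∣ t - t' ↔ (l : ℤ) ∣ a - b := by
        constructor
        · rintro ⟨c, hc⟩
          exact ⟨b * e - a * e' - a * b * c, by linear_combination b * he - a * he' - a * b * hc⟩
        · rintro ⟨c, hc⟩
          exact ⟨t' * e - t * e' - t * t' * c, by
            linear_combination t' * he - t * he' - t * t' * hc⟩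
      simp only [ht, ht', sum_ps_mul (hP1 l (hV l hl)), rho, h2, abs_mul, Nat.abs_cast]
      exact le_rfl)
    (P.powerset.erase ∅) (P.powerset.erase ∅) (erase_subset _ _) (erase_subset _ _) 1
    (Or.inr ⟨le_rfl, notMem_erase _ _⟩) y N
  simp only [mul_zero, add_zero, union_self, prod_mul_distrib] at h
  have hg := one_le_gg hP1 hR
  have h4 : ((∏ l ∈ Nat.primesLE w, l : ℕ) : ℝ) ≤ 4 ^ w := by
    rw [← primorial_eq_prod_primesLE]
    exact_mod_cast primorial_le_four_pow w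
  have hG : 1 ≤ gg P R ^ 4 := one_le_pow₀ hg
  calc _ = (∑ s ∈ Ioc y (y + N), (rough w (a * s + 1) * rough w (b * s + 1)) *
        ((∑ U ∈ P.powerset.erase ∅, beta P R U * ∏ l ∈ U, ps l (a * s + 1)) *
          ∑ U ∈ P.powerset.erase ∅, beta P R U * ∏ l ∈ U, ps l (b * s + 1))) / gg P R ^ 4 := by
        rw [sum_div]
        refine sum_congr rfl fun s _ => ?_
        rw [nu_sub hP1 hR, nu_sub hP1 hR]; field_simp
    _ ≤ (N * (mert P * mert P) * (∏ r ∈ P, (1 + 9 * |rho r (a - b)|) - 1) +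
        (R : ℝ) ^ 8 * 4 ^ w) / gg P R ^ 4 := by
        refine div_le_div_of_nonneg_right (le_trans h ?_) (by positivity)
        refine add_le_add le_rfl ?_
        calc _ ≤ 4 ^ w * ((R : ℝ) ^ 4 * (R : ℝ) ^ 4) := by gcongr
          _ = _ := by ring
    _ ≤ _ := by
        rw [add_div]
        refine add_le_add (le_of_eq (by field_simp)) (div_le_self (by positivity) hG)

lemma rho_off {P : Finset ℕ} {w i a b : ℕ} (hP : ∀ r ∈ P, r.Prime ∧ w < r) (hw : 1 ≤ w)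
    (ha : a < 2 ^ (i + 1)) (hb : b < 2 ^ (i + 1)) (hab : a ≠ b) :
    ∏ r ∈ P, (1 + 9 * |rho r ((a : ℤ) - b)|) ≤ exp (9 * (i + 3) / w) := by
  have hw' : (0 : ℝ) < w := by exact_mod_cast hw
  set F := P.filter fun l : ℕ => (l : ℤ) ∣ (a : ℤ) - b with hF
  have h1 : 2 ^ F.card ≤ ∏ l ∈ F, l :=
    pow_card_le_prod F _ 2 fun l hl => (hP l (mem_filter.mp hl).1).1.two_le
  have h2 : ∏ l ∈ F, l ∣ ((a : ℤ) - b).natAbs :=
    prod_primes_dvd _ (fun l hl => (hP l (mem_filter.mp hl).1).1.prime)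
      fun l hl => Int.natCast_dvd.mp (mem_filter.mp hl).2
  have h3 : 2 ^ F.card < 2 ^ (i + 1) :=
    (h1.trans (Nat.le_of_dvd (by omega) h2)).trans_lt (by omega)
  have h4 : (F.card : ℝ) ≤ i + 1 := by
    exact_mod_cast ((Nat.pow_lt_pow_iff_right one_lt_two).mp h3).le
  have h5 : ∑ r ∈ P, |rho r ((a : ℤ) - b)| ≤ ∑ r ∈ P, uu r ^ 2 + ∑ r ∈ F, (1 : ℝ) / w := by
    rw [hF, sum_filter, ← sum_add_distrib]
    refine sum_le_sum fun r hr => ?_
    have hu := uu_pos (hP r hr).1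
    unfold rho
    split_ifs
    · have h6 : uu r ≤ 1 / w := by
        have : (w : ℝ) + 1 ≤ r := by exact_mod_cast (hP r hr).2
        exact one_div_le_one_div_of_le hw' (by linarith)
      rw [abs_of_pos hu]; nlinarith [sq_nonneg (uu r)]
    · rw [abs_neg, abs_of_nonneg (sq_nonneg _), add_zero]
  have h6 := sum_uu_sq_le (P := P) hw fun l hl => (hP l hl).2
  rw [sum_const, nsmul_eq_mul] at h5
  have h7 : ∑ r ∈ P, |rho r ((a : ℤ) - b)| ≤ (i + 3) / w := by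
    calc _ ≤ 2 / (w : ℝ) + ((i : ℝ) + 1) * (1 / w) := h5.trans (by gcongr)
      _ = _ := by field_simp; ring
  calc _ ≤ ∏ r ∈ P, exp (9 * |rho r ((a : ℤ) - b)|) :=
        prod_le_prod (fun l _ => by positivity) fun l _ => by
          linarith [add_one_le_exp (9 * |rho l ((a : ℤ) - b)|)]
    _ = exp (9 * ∑ r ∈ P, |rho r ((a : ℤ) - b)|) := by rw [← exp_sum, mul_sum]
    _ ≤ _ := exp_le_exp.mpr (by rw [mul_div_assoc]; linarith)

lemma rho_diag {P : Finset ℕ} (hP : ∀ r ∈ P, r.Prime) :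
    ∏ r ∈ P, (1 + 9 * |rho r 0|) ≤ mert P ^ 9 := by
  rw [mert, ← prod_pow]
  refine prod_le_prod (fun l _ => by positivity) fun l hl => ?_
  have hu := uu_pos (hP l hl)
  rw [rho, if_pos (dvd_zero _), abs_of_pos hu]
  simpa using one_add_mul_le_pow (a := uu l) (by linarith) 9

theorem var {P T : Finset ℕ} {R w i : ℕ} (hP : ∀ r ∈ P, r.Prime ∧ w < r) (hw : 1 ≤ w)
    (hR : 1 ≤ R) (hT : T ⊆ blk i) (hd : Disjoint P T) (N : ℕ) :
    ∑ m ∈ Icc 1 N,
        (∑ l ∈ T, rough w (l * m + 1) * (nu P R (l * m + 1) - 1 / gg P R)) ^ 2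
      ≤ N * (mert P / gg P R ^ 2) ^ 2 *
          ((#T : ℝ) ^ 2 * (exp (9 * (i + 3) / w) - 1) + #T * mert P ^ 9)
        + (#T : ℝ) ^ 2 * (R : ℝ) ^ 8 * 4 ^ w := by
  have hP1 : ∀ r ∈ P, r.Prime := fun r hr => (hP r hr).1
  have hm := one_le_mert hP1
  have nd : ∀ l ∈ T, ∀ r ∈ P, ¬ (r : ℤ) ∣ (l : ℤ) := fun l hl r hr h => by
    have h1 : r = l := (Nat.prime_dvd_prime_iff_eq (hP1 r hr) (mem_blk.1 (hT hl)).1).mp
      (Int.natCast_dvd_natCast.mp h)
    exact disjoint_left.mp hd hr (h1 ▸ hl)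
  have he : 0 ≤ exp (9 * ((i : ℝ) + 3) / w) - 1 := sub_nonneg.mpr (one_le_exp (by positivity))
  rw [sum_Icc_cast fun s =>
    (∑ l ∈ T, rough w (l * s + 1) * (nu P R (l * s + 1) - 1 / gg P R)) ^ 2]
  simp only [sq (∑ _ ∈ T, _), sum_mul_sum]
  rw [sum_comm]
  have h1 : ∀ a ∈ T, ∑ s ∈ Ioc (0 : ℤ) (0 + N), ∑ b ∈ T,
      (rough w (a * s + 1) * (nu P R (a * s + 1) - 1 / gg P R)) *
        (rough w (b * s + 1) * (nu P R (b * s + 1) - 1 / gg P R)) ≤
      N * (mert P / gg P R ^ 2) ^ 2 * (#T * (exp (9 * (i + 3) / w) - 1) + mert P ^ 9) +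
        #T * ((R : ℝ) ^ 8 * 4 ^ w) := by
    intro a ha
    rw [sum_comm]
    have h2 : ∀ b ∈ T, ∏ r ∈ P, (1 + 9 * |rho r ((a : ℤ) - b)|) - 1 ≤
        (exp (9 * (i + 3) / w) - 1) + if a = b then mert P ^ 9 else 0 := by
      intro b hb
      split_ifs with h
      · subst h
        rw [sub_self]
        linarith [rho_diag hP1]
      · linarith [rho_off hP hw (mem_blk.1 (hT ha)).2.2 (mem_blk.1 (hT hb)).2.2 h]
    refine (sum_le_sum fun b hb => (var_pair hP hR (nd a ha) (nd b hb) 0 N).trans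
      (add_le_add (mul_le_mul_of_nonneg_left (h2 b hb) (by positivity)) le_rfl)).trans ?_
    rw [sum_add_distrib, ← mul_sum, sum_add_distrib, sum_ite_eq, if_pos ha]
    simp only [sum_const, nsmul_eq_mul]
    exact le_rfl
  refine (sum_le_sum h1).trans (le_of_eq ?_)
  rw [sum_const, nsmul_eq_mul]; ring

end Pool.Agent.Lib.MP_b09490_nt.No
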