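import Pool.Agent.Lib.MP_b09490_nt.No.Exc
import Pool.Agent.Lib.MP_b09490_nt.No.Var
import Pool.Agent.Lib.MP_b09490_nt.No.Gw
import Pool.Agent.Lib.MP_b09490_nt.No.Cheb

/-!
Sieve estimates for the transfer bound.
-/

open Finset Real Filter Topology

namespace Pool.Agent.Lib.MP_b09490_nt.No

open Pool.Agent.Lib.MP_778b46_nt

lemma exists_thr : ∃ u0 : ℕ, 40 ≤ u0 ∧ ∀ u : ℕ, u0 ≤ u → (u + 1) ^ 98 ≤ 2 ^ (u / 10) := by
  have h := (tendsto_pow_const_div_const_pow_of_one_lt 98 (one_lt_two (α := ℝ))).eventually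
    (eventually_le_nhds (show (0 : ℝ) < 1 / 20 ^ 98 by positivity))
  obtain ⟨n0, hn⟩ := eventually_atTop.mp h
  refine ⟨10 * n0 + 40, by omega, fun u hu => ?_⟩
  have h1 := hn (u / 10) (by omega)
  rw [div_le_div_iff₀ (by positivity) (by positivity), ← mul_pow, one_mul] at h1
  have h2 : (u / 10 * 20) ^ 98 ≤ 2 ^ (u / 10) := by exact_mod_cast h1
  exact (Nat.pow_le_pow_left (by omega) 98).trans h2

/-- The primes used for swapping. -/
def swp (u : ℕ) : Finset ℕ := (Ico (2 ^ u) (2 ^ (u ^ 2))).filter Nat.Prime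

/-- The sifting primes at block `i`. -/
def sif (k i : ℕ) : Finset ℕ := (Nat.primesLE (2 ^ (k / 40)) \ Nat.primesLE (k / 10)) \ blk i

/-- The size conditions. -/
structure Big (k u : ℕ) : Prop where
  lo : u ^ 10 ≤ k
  hi : k < (u + 1) ^ 10
  u40 : 40 ≤ u
  thr : ∀ i : ℕ, u ≤ i → (i + 1) ^ 98 ≤ 2 ^ (i / 10)

namespace Big

variable {k u i : ℕ}

lemma sq_le (h : Big k u) : 40 * u ^ 2 ≤ k := by
  have h1 : 40 ≤ u ^ 8 := h.u40.trans (Nat.le_self_pow (by norm_num) u)
  calc 40 * u ^ 2 ≤ u ^ 8 * u ^ 2 := Nat.mul_le_mul_right _ h1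
    _ = u ^ 10 := by ring
    _ ≤ k := h.lo

lemma u_le (h : Big k u) : 40 * u ≤ k := by
  have := h.sq_le
  have h1 : u ≤ u ^ 2 := Nat.le_self_pow (by norm_num) u
  omega

lemma cube_le (h : Big k u) : k ^ 3 ≤ 2 ^ (u / 10) := by
  calc k ^ 3 ≤ ((u + 1) ^ 10) ^ 3 := Nat.pow_le_pow_left h.hi.le 3
    _ ≤ (u + 1) ^ 98 := by rw [← pow_mul]; exact Nat.pow_le_pow_right (by omega) (by norm_num)
    _ ≤ _ := h.thr u le_rfl

lemma k_le (h : Big k u) : k ≤ 2 ^ (u / 10) := (Nat.le_self_pow (by norm_num) k).trans h.cube_le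

lemma mert_small (h : Big k u) : mert (Nat.primesLE (k / 10)) ≤ 10 * cM * u := by
  have h0 := h.u_le
  have h1 := h.u40
  have h2 := mert_le_cM (n := k / 10) (by omega) (subset_refl _)
  have h3 : ((k / 10 : ℕ) : ℝ) ≤ ((u : ℝ) + 1) ^ 10 := by
    exact_mod_cast (Nat.div_le_self k 10).trans h.hi.le
  have h4 : (0 : ℝ) < (k / 10 : ℕ) := by exact_mod_cast (by omega : 0 < k / 10)
  have h5 := log_le_log h4 h3
  rw [log_pow] at h5
  have h6 := log_le_sub_one_of_pos (show (0 : ℝ) < u + 1 by positivity)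
  have h7 := one_le_cM
  push_cast at h5
  nlinarith

lemma mert_swp (h : Big k u) : (u : ℝ) / cM ≤ mert (swp u) := by
  have h1 := h.u40
  have hE : ∀ l ∈ swp u, l.Prime := fun l hl => (mem_filter.mp hl).2
  have hp : 2 ≤ 2 ^ (u ^ 2) := Nat.le_self_pow (by positivity) 2
  have h2 := log_le_mert (P := Nat.primesLE (2 ^ u) ∪ swp u) (R := 2 ^ (u ^ 2) - 1)
    (fun l hl => by
      rcases mem_union.mp hl with h | h
      exacts [Nat.prime_of_mem_primesLE h, hE l h])
    (fun l hl hle => by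
      rw [mem_union, Nat.mem_primesLE, swp, mem_filter, mem_Ico]
      by_cases h3 : l ≤ 2 ^ u
      · exact Or.inl ⟨h3, hl⟩
      · exact Or.inr ⟨⟨by omega, by omega⟩, hl⟩) (by omega)
  have h3 := mert_union_le (primes_of_subset (subset_refl (Nat.primesLE (2 ^ u)))) hE
  have h4 := mert_le_cM (n := 2 ^ u) (Nat.le_self_pow (by omega) 2) (subset_refl _)
  rw [Nat.cast_sub (by omega)] at h2
  push_cast at h2 h4
  rw [sub_add_cancel, log_pow] at h2
  rw [log_pow] at h4
  have h5 := one_le_mert hE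
  have h6 := one_le_cM
  have h7 : (0 : ℝ) < u * log 2 := by
    have : (0 : ℝ) < u := by exact_mod_cast (by omega : 0 < u)
    have := log_pos (one_lt_two (α := ℝ))
    positivity
  rw [div_le_iff₀ (by linarith)]
  refine le_of_mul_le_mul_left ?_ h7
  push_cast at h2
  calc _ = (u : ℝ) ^ 2 * log 2 := by ring
    _ ≤ cM * (u * log 2) * mert (swp u) := h2.trans (h3.trans (by gcongr))
    _ = _ := by ring

/-- Primes with no swapping prime. -/
lemma exc_swp (h : Big k u) : (#((blk k).filter fun p => ∀ q ∈ swp u, ¬ q ∣ p - 1) : ℝ) ≤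
    (120 * cM ^ 5 * exp 18 + 1) * 2 ^ k / (k * u) := by
  have h0 := h.u_le
  have h1 := h.u40
  have h2 := h.sq_le
  have h3 := exc_mert (k := k) (by omega) (Bs := swp u) fun q hq => by
    obtain ⟨h4, h5⟩ := mem_filter.mp hq
    exact Nat.mem_primesLE.mpr ⟨(mem_Ico.mp h4).2.le.trans
      (Nat.pow_le_pow_right two_pos (by omega)), h5⟩
  have hk : (0 : ℝ) < k := by exact_mod_cast (by omega : 0 < k)
  have hu : (0 : ℝ) < u := by exact_mod_cast (by omega : 0 < u)
  have h6 := one_le_cM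
  have h7 : 2 ^ (k / 5) * (k * u) ≤ 2 ^ k := by
    calc _ ≤ 2 ^ (k / 5) * k ^ 3 := by
          gcongr
          calc k * u ≤ k * k ^ 2 := by gcongr; nlinarith
            _ = _ := by ring
      _ ≤ 2 ^ (k / 5) * 2 ^ (u / 10) := Nat.mul_le_mul_left _ h.cube_le
      _ ≤ _ := by rw [← pow_add]; exact Nat.pow_le_pow_right two_pos (by omega)
  have h8 : (2 : ℝ) ^ (k / 5) ≤ 2 ^ k / (k * u) := by
    rw [le_div_iff₀ (by positivity)]; exact_mod_cast h7
  have h9 := h.mert_swp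
  calc _ ≤ 120 * cM ^ 4 * exp 18 * 2 ^ k / (k * (u / cM)) + 2 ^ k / (k * u) := by
        refine h3.trans (add_le_add ?_ h8)
        gcongr
    _ = _ := by field_simp

/-- The inner sieve over the swapped prime. -/
lemma inner (h : Big k u) (hi : u ≤ i) {m : ℕ} (hm : m ≠ 0) :
    ∑ l ∈ blk i, rough (k / 10) (l * m + 1) ≤
      (30 * cM ^ 4 * exp 18 + 10 * cM) * (2 ^ i / i) * gw m / mert (Nat.primesLE (k / 10)) := by
  have h1 := h.u40
  set R := 2 ^ (i / 10) with hRdef
  have hR : 2 ≤ R := two_le_pow_div (by norm_num) (by omega)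
  have hR1 : 1 ≤ R := by omega
  have hRi : R < 2 ^ i := Nat.pow_lt_pow_right one_lt_two (by omega)
  have hw : Nat.primesLE (k / 10) ⊆ Nat.primesLE R := Nat.primesLE_mono
    ((Nat.div_le_self k 10).trans (h.k_le.trans (Nat.pow_le_pow_right two_pos (by omega))))
  have h2 := pc (primes_of_subset (subset_refl (Nat.primesLE R))) (primes_of_subset hw) hR1 hR1 hm
    ((2 ^ i : ℕ) - 1) (2 ^ i)
  have h3 : ∑ l ∈ blk i, rough (k / 10) (l * m + 1) ≤
      ∑ s ∈ Ioc (((2 ^ i : ℕ) : ℤ) - 1) ((2 ^ i : ℕ) - 1 + (2 ^ i : ℕ)),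
        nu (Nat.primesLE R) R s * nu (Nat.primesLE (k / 10)) R (m * s + 1) := by
    have hinj : Set.InjOn (fun p : ℕ => (p : ℤ)) (blk i) := fun a _ b _ h =>
      Nat.cast_injective h
    calc _ ≤ ∑ s ∈ (blk i).image (fun p : ℕ => (p : ℤ)),
          nu (Nat.primesLE R) R s * nu (Nat.primesLE (k / 10)) R (m * s + 1) := by
          rw [sum_image hinj]
          refine sum_le_sum fun p hp => ?_
          obtain ⟨hp3, hp4, _⟩ := mem_blk.1 hp
          rw [nu_prime (subset_refl _) hR1 hp3 (by omega), one_mul, mul_comm (m : ℤ)]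
          exact rough_le_nu hR1 _
      _ ≤ _ := by
          refine sum_le_sum_of_subset_of_nonneg (fun s hs => ?_)
            fun s _ _ => mul_nonneg (nu_nonneg _) (nu_nonneg _)
          obtain ⟨p, hp, rfl⟩ := mem_image.mp hs
          obtain ⟨_, hp4, hp5⟩ := mem_blk.1 hp
          rw [pow_succ] at hp5
          rw [mem_Ioc]; omega
  have h4 := ratio_all_le (n := i) (d := 10) (by norm_num) (by omega)
  have h5 := ratio_le hR hw
  have hM := one_le_mert (primes_of_subset hw)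
  have hM' := one_le_mert (primes_of_subset (subset_refl (Nat.primesLE R)))
  have h6 := h.mert_small
  have hc := one_le_cM
  have hg := one_le_gw m
  have hi' : (0 : ℝ) < i := by exact_mod_cast (by omega : 0 < i)
  set M := mert (Nat.primesLE (k / 10))
  have h7 : R ^ 4 * R ^ 4 * (i * i) ≤ 2 ^ i := by
    calc _ ≤ R ^ 4 * R ^ 4 * (i + 1) ^ 98 := by
          gcongr
          calc i * i ≤ (i + 1) ^ 2 := by nlinarith
            _ ≤ _ := Nat.pow_le_pow_right (by omega) (by norm_num)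
      _ ≤ R ^ 4 * R ^ 4 * R := by gcongr; exact h.thr i hi
      _ = 2 ^ (i / 10 * 9) := by rw [pow_mul]; ring
      _ ≤ _ := Nat.pow_le_pow_right two_pos (by omega)
  have h8 : (R : ℝ) ^ 4 * (R : ℝ) ^ 4 ≤ 10 * cM * (2 ^ i / i) * gw m / M := by
    have h9 : (R : ℝ) ^ 4 * (R : ℝ) ^ 4 * (i * i) ≤ 2 ^ i := by exact_mod_cast h7
    have h10 : (u : ℝ) ≤ i := by exact_mod_cast hi
    rw [le_div_iff₀ (by linarith)]
    calc _ ≤ (R : ℝ) ^ 4 * (R : ℝ) ^ 4 * (10 * cM * i) := by
          gcongr; exact h6.trans (by gcongr)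
      _ = 10 * cM * (((R : ℝ) ^ 4 * (R : ℝ) ^ 4 * (i * i)) / i) * 1 := by field_simp
      _ ≤ _ := by gcongr
  refine h3.trans (h2.trans ?_)
  calc _ ≤ ((2 ^ i : ℕ) : ℝ) * (3 * (10 : ℕ) * cM ^ 2 / i) * (cM ^ 2 / M) * exp 18 * gw m +
        10 * cM * (2 ^ i / i) * gw m / M := by
        refine add_le_add ?_ h8
        gcongr
    _ = _ := by push_cast; field_simp; ring

lemma sif_subset : sif k i ⊆ Nat.primesLE (2 ^ (k / 40)) := sdiff_subset.trans sdiff_subset

lemma mert_blk (hi : 8 ≤ i) : mert (blk i) ≤ 3 := by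
  have hp : ∀ l ∈ blk i, l.Prime := fun l hl => (mem_blk.1 hl).1
  have h1 : ∑ l ∈ blk i, uu l ≤ 2 * ∑ l ∈ blk i, (1 : ℝ) / l := by
    rw [mul_sum]
    refine sum_le_sum fun l hl => ?_
    have : (2 : ℝ) ≤ l := by exact_mod_cast (hp l hl).two_le
    rw [uu, mul_one_div, div_le_div_iff₀ (by linarith) (by linarith)]; linarith
  have h2 := sum_inv_blk_le i
  have h3 : (8 : ℝ) ≤ i := by exact_mod_cast hi
  have h4 : (4 : ℝ) / i ≤ 1 / 2 := by rw [div_le_div_iff₀ (by linarith) two_pos]; linarith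
  calc _ ≤ ∏ l ∈ blk i, exp (uu l) :=
        prod_le_prod (fun l hl => by linarith [uu_pos (hp l hl)]) fun l _ => by
          linarith [add_one_le_exp (uu l)]
    _ = exp (∑ l ∈ blk i, uu l) := (exp_sum _ _).symm
    _ ≤ exp 1 := exp_le_exp.mpr (by linarith)
    _ ≤ 3 := by linarith [exp_one_lt_d9]

lemma inv_mert_sif (h : Big k u) (hi : u ≤ i) :
    1 / mert (sif k i) ≤ 360 * mert (Nat.primesLE (k / 10)) / k := by
  have h0 := h.u_le
  have h1 := h.u40
  have hp : ∀ l ∈ blk i, l.Prime := fun l hl => (mem_blk.1 hl).1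
  have hs := primes_of_subset (sif_subset (k := k) (i := i))
  have hw := primes_of_subset (subset_refl (Nat.primesLE (k / 10)))
  have hu : ∀ l ∈ Nat.primesLE (k / 10) ∪ blk i, l.Prime := fun l hl => by
    rcases mem_union.mp hl with h | h
    exacts [hw l h, hp l h]
  have h2 := log_le_mert (P := sif k i ∪ (Nat.primesLE (k / 10) ∪ blk i)) (R := 2 ^ (k / 40))
    (fun l hl => by
      rcases mem_union.mp hl with h | h
      exacts [hs l h, hu l h])
    (fun l hl hle => by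
      have : l ∈ Nat.primesLE (2 ^ (k / 40)) := Nat.mem_primesLE.mpr ⟨hle, hl⟩
      simp only [sif, mem_union, Finset.mem_sdiff]
      tauto) Nat.one_le_two_pow
  have h3 := div_le_log (n := k) (d := 40) (by norm_num) (by omega)
  have h4 := mert_union_le hs hu
  have h5 := mert_union_le hw hp
  have h6 := mert_blk (i := i) (by omega)
  have h7 := one_le_mert hs
  have h8 := one_le_mert hw
  have hk : (0 : ℝ) < k := by exact_mod_cast (by omega : 0 < k)
  have h9 : (k : ℝ) / (3 * (40 : ℕ)) ≤ mert (sif k i) * (mert (Nat.primesLE (k / 10)) * 3) :=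
    h3.trans (h2.trans (h4.trans (by gcongr; exact h5.trans (by gcongr))))
  rw [div_le_div_iff₀ (by linarith) hk]
  rw [div_le_iff₀ (by norm_num)] at h9
  push_cast at h9
  linarith

end Big

end Pool.Agent.Lib.MP_b09490_nt.No
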