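import Pool.Agent.Lib.MP_b09490_nt.No.TrA

/-!
The deviation term of the transfer bound.
-/

open Finset Real Filter Topology

namespace Pool.Agent.Lib.MP_b09490_nt.No

open Pool.Agent.Lib.MP_778b46_nt

/-- The deviation of the sieve weight at block `i`. -/
noncomputable def dev (k i m : ℕ) : ℝ :=
  ∑ l ∈ blk i, rough (k / 10) (l * m + 1) *
    (nu (sif k i) (2 ^ (k / 40)) (l * m + 1) - 1 / gg (sif k i) (2 ^ (k / 40)))

/-- Constant of the deviation bound. -/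
noncomputable def cD : ℝ := 4 * (3600 * cM ^ 3) ^ 2 * (720 + cM ^ 9) + 1

lemma one_le_cD : 1 ≤ cD := by
  have := one_le_cM
  unfold cD
  have : 0 ≤ 4 * (3600 * cM ^ 3) ^ 2 * (720 + cM ^ 9) := by positivity
  linarith

namespace Big

variable {k u i : ℕ}

lemma exp_small (h : Big k u) (hi : i < u ^ 2) :
    exp (9 * ((i : ℝ) + 3) / (k / 10 : ℕ)) - 1 ≤ 720 / (u : ℝ) ^ 8 := by
  have h0 := h.u_le
  have h1 := h.u40
  have hu : (40 : ℝ) ≤ u := by exact_mod_cast h1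
  have hw : (0 : ℝ) < (k / 10 : ℕ) := by exact_mod_cast (by omega : 0 < k / 10)
  have h2 : (i + 3) * u ^ 8 ≤ 40 * (k / 10) := by
    have h3 : u ≤ u ^ 2 := Nat.le_self_pow (by norm_num) u
    calc _ ≤ 2 * u ^ 2 * u ^ 8 := Nat.mul_le_mul_right _ (by omega)
      _ = 2 * u ^ 10 := by ring
      _ ≤ _ := by have := h.lo; omega
  have h3 : ((i : ℝ) + 3) * u ^ 8 ≤ 40 * (k / 10 : ℕ) := by exact_mod_cast h2
  have h4 : 9 * ((i : ℝ) + 3) / (k / 10 : ℕ) ≤ 360 / (u : ℝ) ^ 8 := by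
    rw [div_le_div_iff₀ hw (by positivity)]; linarith
  have h5 : 360 / (u : ℝ) ^ 8 ≤ 1 := by
    rw [div_le_one (by positivity)]
    calc (360 : ℝ) ≤ 40 ^ 8 := by norm_num
      _ ≤ _ := by gcongr
  have h6 : 0 ≤ 9 * ((i : ℝ) + 3) / (k / 10 : ℕ) := by positivity
  have h7 := abs_exp_sub_one_le (x := 9 * ((i : ℝ) + 3) / (k / 10 : ℕ))
    (by rw [abs_of_nonneg h6]; linarith)
  rw [abs_of_nonneg h6] at h7
  calc _ ≤ 2 * (360 / (u : ℝ) ^ 8) := (le_abs_self _).trans (h7.trans (by gcongr))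
    _ = _ := by ring

lemma mert_nine (h : Big k u) (hi : u ≤ i) :
    mert (sif k i) ^ 9 ≤ cM ^ 9 * 2 ^ i / (u : ℝ) ^ 8 := by
  have h0 := h.u_le
  have h1 := h.u40
  have hu : (40 : ℝ) ≤ u := by exact_mod_cast h1
  have h2 := mert_le_cM (two_le_pow_div (n := k) (d := 40) (by norm_num) (by omega))
    (sif_subset (k := k) (i := i))
  have hc := one_le_cM
  have h3 : log ((2 ^ (k / 40) : ℕ) : ℝ) ≤ k := by
    push_cast
    rw [log_pow]
    have h4 : ((k / 40 : ℕ) : ℝ) ≤ k := by exact_mod_cast Nat.div_le_self k 40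
    have h5 := log_two_lt_d9
    have h6 : (0 : ℝ) ≤ (k / 40 : ℕ) := Nat.cast_nonneg _
    nlinarith
  have h4 : k ^ 9 * u ^ 8 ≤ 2 ^ i := by
    calc _ ≤ ((u + 1) ^ 10) ^ 9 * (u + 1) ^ 8 := by
          gcongr
          exacts [h.hi.le, Nat.le_succ u]
      _ = (u + 1) ^ 98 := by ring
      _ ≤ 2 ^ (u / 10) := h.thr u le_rfl
      _ ≤ _ := Nat.pow_le_pow_right two_pos (by omega)
  have h5 : (k : ℝ) ^ 9 * u ^ 8 ≤ 2 ^ i := by exact_mod_cast h4
  have h6 := one_le_mert (primes_of_subset (sif_subset (k := k) (i := i)))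
  rw [le_div_iff₀ (by positivity)]
  calc _ ≤ (cM * k) ^ 9 * u ^ 8 := by gcongr; exact h2.trans (by gcongr)
    _ = cM ^ 9 * (k ^ 9 * u ^ 8) := by ring
    _ ≤ _ := by gcongr

lemma ratio_sif (h : Big k u) (hi : u ≤ i) :
    mert (sif k i) / gg (sif k i) (2 ^ (k / 40)) ^ 2 ≤ 3600 * cM ^ 3 * u / k := by
  have h0 := h.u_le
  have h1 := h.u40
  have h2 := ratio_le (two_le_pow_div (n := k) (d := 40) (by norm_num) (by omega))
    (sif_subset (k := k) (i := i))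
  have h3 := h.inv_mert_sif hi
  have h4 := h.mert_small
  have hc := one_le_cM
  calc _ ≤ cM ^ 2 * (1 / mert (sif k i)) := by rw [mul_one_div]; exact h2
    _ ≤ cM ^ 2 * (360 * (10 * cM * u) / k) :=
        mul_le_mul_of_nonneg_left (h3.trans (by gcongr)) (by positivity)
    _ = _ := by ring

lemma sum_abs_dev (h : Big k u) (hi : u ≤ i) (hi2 : i < u ^ 2) :
    ∑ m ∈ Icc 1 (2 ^ (k + 1 - i)), |dev k i m| ≤ cD * (2 ^ k / (k * u ^ 3)) := by
  have h0 := h.u_le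
  have h1 := h.u40
  have h2 := h.sq_le
  have hu : (40 : ℝ) ≤ u := by exact_mod_cast h1
  have hk : (0 : ℝ) < k := by exact_mod_cast (by omega : 0 < k)
  have hc := one_le_cM
  set N := 2 ^ (k + 1 - i) with hN
  have hv := var (P := sif k i) (T := blk i) (R := 2 ^ (k / 40)) (w := k / 10) (i := i)
    (fun r hr => by
      obtain ⟨h3, h4⟩ := Finset.mem_sdiff.mp (Finset.mem_sdiff.mp hr).1
      have h5 := Nat.prime_of_mem_primesLE h3
      exact ⟨h5, not_le.mp fun h6 => h4 (Nat.mem_primesLE.mpr ⟨h6, h5⟩)⟩)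
    (by omega) Nat.one_le_two_pow (subset_refl _) sdiff_disjoint N
  have hcs := sq_sum_le_card_mul_sum_sq (s := Icc 1 N) (f := fun m => |dev k i m|)
  simp only [sq_abs, Nat.card_Icc, Nat.add_sub_cancel] at hcs
  have hT := card_blk_le_two_pow i
  have h3 := h.exp_small hi2
  have h4 := h.mert_nine hi
  have h5 := h.ratio_sif hi
  have h6 := one_le_mert (primes_of_subset (sif_subset (k := k) (i := i)))
  have he : 0 ≤ exp (9 * ((i : ℝ) + 3) / (k / 10 : ℕ)) - 1 :=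
    sub_nonneg.mpr (one_le_exp (by positivity))
  have hNi : (N : ℝ) * 2 ^ i = 2 * 2 ^ k := by
    rw [hN]; push_cast
    rw [← pow_add, show k + 1 - i + i = k + 1 by omega, pow_succ, mul_comm]
  have h7 : N * ((2 ^ i) ^ 2 * (2 ^ (k / 40)) ^ 8 * 4 ^ (k / 10)) * (k * u ^ 3) ^ 2
      ≤ (2 ^ k) ^ 2 := by
    have h8 : (k * u ^ 3) ^ 2 ≤ 2 ^ (u / 10) := by
      refine le_trans ?_ h.cube_le
      calc _ = k ^ 2 * u ^ 6 := by ring
        _ ≤ k ^ 2 * k := Nat.mul_le_mul_left _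
            ((Nat.pow_le_pow_right (by omega) (by norm_num)).trans h.lo)
        _ = _ := by ring
    refine (Nat.mul_le_mul_left _ h8).trans ?_
    rw [hN, show 4 = 2 ^ 2 by norm_num]
    simp only [← pow_mul, ← pow_add]
    exact Nat.pow_le_pow_right two_pos (by omega)
  have h8 : (N : ℝ) * ((2 ^ i) ^ 2 * ((2 ^ (k / 40) : ℕ) : ℝ) ^ 8 * 4 ^ (k / 10)) ≤
      (2 ^ k / (k * u ^ 3)) ^ 2 := by
    rw [div_pow, le_div_iff₀ (by positivity)]
    exact_mod_cast h7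
  have hD := one_le_cD
  refine (sq_le_sq₀ (sum_nonneg fun _ _ => abs_nonneg _) (by positivity)).mp (hcs.trans ?_)
  calc _ ≤ (N : ℝ) * (N * (3600 * cM ^ 3 * u / k) ^ 2 *
          ((2 ^ i) ^ 2 * (720 / (u : ℝ) ^ 8) + 2 ^ i * (cM ^ 9 * 2 ^ i / (u : ℝ) ^ 8))
        + (2 ^ i) ^ 2 * ((2 ^ (k / 40) : ℕ) : ℝ) ^ 8 * 4 ^ (k / 10)) := by
        refine mul_le_mul_of_nonneg_left (le_trans hv ?_) (Nat.cast_nonneg _)
        gcongr
    _ = (N * 2 ^ i) ^ 2 * ((3600 * cM ^ 3) ^ 2 * (720 + cM ^ 9)) / (k * u ^ 3) ^ 2 +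
        (N : ℝ) * ((2 ^ i) ^ 2 * ((2 ^ (k / 40) : ℕ) : ℝ) ^ 8 * 4 ^ (k / 10)) := by
        field_simp
    _ ≤ (2 * 2 ^ k) ^ 2 * ((3600 * cM ^ 3) ^ 2 * (720 + cM ^ 9)) / (k * u ^ 3) ^ 2 +
        (2 ^ k / (k * u ^ 3)) ^ 2 := by rw [hNi]; gcongr
    _ = cD * (2 ^ k / (k * u ^ 3)) ^ 2 := by unfold cD; field_simp; ring
    _ ≤ cD ^ 2 * (2 ^ k / (k * u ^ 3)) ^ 2 := by gcongr; nlinarith
    _ = _ := by ring

end Big

end Pool.Agent.Lib.MP_b09490_nt.No
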